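import Pool.Agent.H498.LG.Main

/-! Polynomials which annihilate the images of an element. -/

set_option autoImplicit false
set_option linter.all false

namespace Pool.Agent.H498.LG

open Topology Filter NumberField IsDedekindDomain
open Pool.Agent.W401.Cheb
open Pool.Agent.X320.DS (Stable Semisimple toEnd toEnd_apply alg alg_eq_span trace_nondeg)
open Pool.Agent.H498.BG (ZQ red Zbar red_eq inv_lt_one)

variable {ℓ : ℕ} [hℓ : Fact ℓ.Prime] {N : ℕ}

theorem eq_zero_of_infinite (x : Zbar ℓ) (h : {m | red ℓ m x = 0}.Infinite) : x = 0 := by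
  by_contra hne
  have hx : 0 < ‖(x : PadicAlgCl ℓ)‖ := norm_pos_iff.2 fun h0 => hne (Subtype.ext h0)
  obtain ⟨m, hm⟩ := exists_pow_lt_of_lt_one hx (inv_lt_one (ℓ := ℓ))
  obtain ⟨m', h1, h2⟩ := h.exists_gt m
  have h3 := (red_eq m' x 0).1 (by rw [map_zero]; exact h1)
  have e : ((x : PadicAlgCl ℓ) - ((0 : Zbar ℓ) : PadicAlgCl ℓ)) = x := sub_zero _
  rw [e] at h3
  have h4 : (ℓ : ℝ)⁻¹ ^ m' ≤ (ℓ : ℝ)⁻¹ ^ m := pow_le_pow_of_le_one (by positivity) (inv_lt_one (ℓ := ℓ)).le h2.le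
  linarith

/-- the value of a trace function at a polynomial -/
theorem trace_mul_aeval {G : Type*} [Group G] {R : Type*} [CommRing R] (r : G →* GL (Fin N) R) (g γ : G)
    (Q : Polynomial R) : ((r g : Matrix (Fin N) (Fin N) R) * Polynomial.aeval (r γ : Matrix (Fin N) (Fin N) R) Q).trace =
      ∑ i ∈ Finset.range (Q.natDegree + 1), Q.coeff i * (r (g * γ ^ i) : Matrix (Fin N) (Fin N) R).trace := by
  rw [Polynomial.aeval_eq_sum_range, Finset.mul_sum, Matrix.trace_sum]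
  refine Finset.sum_congr rfl fun i _ => ?_
  rw [Matrix.mul_smul, Matrix.trace_smul, smul_eq_mul, map_mul, map_pow, Units.val_mul, Units.val_pow_eq_pow_val]

theorem annih {G : Type*} [Group G] (ρ : (m : ℕ) → G →* GL (Fin N) (ZQ ℓ m)) (T : G → Zbar ℓ)
    (hT : ∀ m g, red ℓ m (T g) = (ρ m g : Matrix (Fin N) (Fin N) (ZQ ℓ m)).trace)
    (r : G →* GL (Fin N) (PadicAlgCl ℓ)) (hr : Semisimple r)
    (hrT : ∀ g, (r g : Matrix (Fin N) (Fin N) (PadicAlgCl ℓ)).trace = T g) (γ : G) (Q : Polynomial (Zbar ℓ))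
    (h : {m | Polynomial.aeval (ρ m γ : Matrix (Fin N) (Fin N) (ZQ ℓ m)) (Q.map (red ℓ m)) = 0}.Infinite) :
    Polynomial.aeval (r γ : Matrix (Fin N) (Fin N) (PadicAlgCl ℓ)) (Q.map (Zbar ℓ).subtype) = 0 := by
  have key : ∀ g, ((r g : Matrix (Fin N) (Fin N) (PadicAlgCl ℓ)) *
      Polynomial.aeval (r γ : Matrix (Fin N) (Fin N) (PadicAlgCl ℓ)) (Q.map (Zbar ℓ).subtype)).trace = 0 := by
    intro g
    have h0 : ∑ i ∈ Finset.range (Q.natDegree + 1), Q.coeff i * T (g * γ ^ i) = 0 := by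
      refine eq_zero_of_infinite _ (h.mono fun m hm => ?_)
      show red ℓ m _ = 0
      have e0 : red ℓ m (∑ i ∈ Finset.range (Q.natDegree + 1), Q.coeff i * T (g * γ ^ i)) =
          ∑ i ∈ Finset.range (Q.natDegree + 1), red ℓ m (Q.coeff i) *
            (ρ m (g * γ ^ i) : Matrix (Fin N) (Fin N) (ZQ ℓ m)).trace := by
        rw [map_sum]
        exact Finset.sum_congr rfl fun i _ => by rw [map_mul (red ℓ m), hT]
      rw [e0]
      have h1 := trace_mul_aeval (ρ m) g γ (Q.map (red ℓ m))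
      have hm' : Polynomial.aeval (ρ m γ : Matrix (Fin N) (Fin N) (ZQ ℓ m)) (Q.map (red ℓ m)) = 0 := hm
      rw [hm', Matrix.mul_zero, Matrix.trace_zero] at h1
      simp only [Polynomial.coeff_map] at h1
      have hle := Polynomial.natDegree_map_le (f := red ℓ m) (p := Q)
      have hsub : Finset.range ((Q.map (red ℓ m)).natDegree + 1) ⊆ Finset.range (Q.natDegree + 1) :=
        Finset.range_subset_range.2 (by omega)
      refine Eq.trans (Finset.sum_subset hsub (f := fun i => red ℓ m (Q.coeff i) *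
        (ρ m (g * γ ^ i) : Matrix (Fin N) (Fin N) (ZQ ℓ m)).trace) fun i _ hi => ?_).symm h1.symm
      rw [Finset.mem_range, not_lt] at hi
      have h2 : (Q.map (red ℓ m)).coeff i = 0 := Polynomial.coeff_eq_zero_of_natDegree_lt (by omega)
      rw [Polynomial.coeff_map] at h2
      rw [h2, zero_mul]
    rw [trace_mul_aeval, Polynomial.natDegree_map_eq_of_injective (Zbar ℓ).subtype_injective]
    simp only [Polynomial.coeff_map, hrT]
    have h1 := congrArg (Zbar ℓ).subtype h0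
    rw [map_sum, map_zero] at h1
    simp only [map_mul] at h1
    exact h1
  let M : Matrix (Fin N) (Fin N) (PadicAlgCl ℓ) :=
    Polynomial.aeval (r γ : Matrix (Fin N) (Fin N) (PadicAlgCl ℓ)) (Q.map (Zbar ℓ).subtype)
  have hM : Matrix.toLin' M = Polynomial.aeval (toEnd r γ) (Q.map (Zbar ℓ).subtype) := by
    have h1 := Polynomial.aeval_algHom_apply
      (Matrix.toLinAlgEquiv' (R := PadicAlgCl ℓ) (n := Fin N)).toAlgHom
      (r γ : Matrix (Fin N) (Fin N) (PadicAlgCl ℓ)) (Q.map (Zbar ℓ).subtype)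
    exact h1.symm
  have hmem : Matrix.toLin' M ∈ alg r := by
    rw [hM]
    have h1 : toEnd r γ ∈ alg r := Algebra.subset_adjoin ⟨γ, rfl⟩
    have h2 := Polynomial.aeval_mem_adjoin_singleton (PadicAlgCl ℓ) (toEnd r γ) (p := Q.map (Zbar ℓ).subtype)
    exact Algebra.adjoin_le (by
      intro x hx
      rw [Set.mem_singleton_iff.1 hx]
      exact h1) h2
  have hz := trace_nondeg hr (by exact_mod_cast N.factorial_ne_zero) hmem (fun a ha => by
    have ha' : a ∈ Submodule.span (PadicAlgCl ℓ) (Set.range (toEnd r)) := by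
      rw [← alg_eq_span]
      exact ha
    refine Submodule.span_induction (p := fun a _ => LinearMap.trace (PadicAlgCl ℓ) (Fin N → PadicAlgCl ℓ)
      (a * Matrix.toLin' M) = 0) ?_ ?_ ?_ ?_ ha'
    · rintro _ ⟨g, rfl⟩
      have e1 : toEnd r g * Matrix.toLin' M = Matrix.toLin' ((r g : Matrix (Fin N) (Fin N) (PadicAlgCl ℓ)) * M) := by
        rw [Matrix.toLin'_mul]
        rfl
      rw [e1, Matrix.trace_toLin'_eq]
      exact key g
    · rw [zero_mul, map_zero]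
    · intro a b _ _ ha hb
      rw [add_mul, map_add, ha, hb, add_zero]
    · intro c a _ ha
      rw [smul_mul_assoc, map_smul, ha, smul_zero])
  exact Matrix.toLin'.injective (hz.trans (map_zero _).symm)

variable {K : Type} [Field K] [NumberField K] {k : ℕ} {Fs : Set (Poly N)} {c : Poly N → GK K → PadicAlgCl ℓ}
  {S : Set (HeightOneSpectrum (𝓞 K))} {L : Submodule ℚ_[ℓ] (PadicAlgCl ℓ)} {ρ : (m : ℕ) → GK K →* GL (Fin N) (ZQ ℓ m)}
  {D : ℕ → Set (HeightOneSpectrum (𝓞 K))}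

/-- **The limit of a system of parameters**, with the annihilating polynomials. -/
theorem Sys.parameter' [FiniteDimensional ℚ_[ℓ] L] (H : Sys k Fs c S L ρ D) (htr : trP N ∈ Fs)
    (C : GK K → Set (Poly N)) (hC : Datum C) (hinv : ∀ f ∈ Fs, Invt C f) (hρ : ∀ m g, ρ m g ∈ zs (C g)) :
    ∃ r : GK K →* GL (Fin N) (PadicAlgCl ℓ), Continuous r ∧ Semisimple r ∧ (∀ v ∉ S, ∀ τ, IsInert v τ → r τ = 1) ∧
      (∀ g, r g ∈ zs (C g)) ∧
      (∀ f ∈ Fs, ∀ m g, ∃ h : val f (r g : Matrix (Fin N) (Fin N) (PadicAlgCl ℓ)) ∈ Zbar ℓ,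
        red ℓ m ⟨_, h⟩ = val f (ρ m g : Matrix (Fin N) (Fin N) (ZQ ℓ m))) ∧
      (∀ f ∈ Fs, ∀ v ∉ S, ∀ σ, IsFrob v σ → val f (r σ : Matrix (Fin N) (Fin N) (PadicAlgCl ℓ)) = c f σ) ∧
      ∀ γ (Q : Polynomial (Zbar ℓ)),
        {m | Polynomial.aeval (ρ m γ : Matrix (Fin N) (Fin N) (ZQ ℓ m)) (Q.map (red ℓ m)) = 0}.Infinite →
        Polynomial.aeval (r γ : Matrix (Fin N) (Fin N) (PadicAlgCl ℓ)) (Q.map (Zbar ℓ).subtype) = 0 := by
  obtain ⟨r, h1, h2, h3, h4, h5, h6⟩ := H.parameter htr C hC hinv hρ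
  refine ⟨r, h1, h2, h3, h4, h5, h6, fun γ Q hQ => ?_⟩
  have hmem : ∀ g, (r g : Matrix (Fin N) (Fin N) (PadicAlgCl ℓ)).trace ∈ Zbar ℓ := by
    intro g
    obtain ⟨h, _⟩ := h5 _ htr 0 g
    rwa [val_trP] at h
  refine annih ρ (fun g => ⟨_, hmem g⟩) (fun m g => ?_) r h2 (fun g => rfl) γ Q hQ
  obtain ⟨h, e⟩ := h5 _ htr m g
  have e' : red ℓ m ⟨_, hmem g⟩ = red ℓ m ⟨_, h⟩ := congrArg _ (Subtype.ext (val_trP _).symm)
  exact e'.trans (e.trans (val_trP _))

end Pool.Agent.H498.LG
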