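import Pool.Graph.R_pool_sql_team_seeded_64922ed1.X320.DS.Trace

/-! Semisimple representations with the same trace are conjugate (over an extension of the field). -/

set_option autoImplicit false
set_option linter.all false

namespace Pool.Agent.H498.LG

open Pool.Agent.X320.DS (Stable Semisimple toEnd toEnd_apply alg trace_nondeg alg_eq_span semisimple_ring)

variable {N : ℕ}

theorem idem_end {F V : Type*} [Field F] [AddCommGroup V] [Module F V] [FiniteDimensional F V] [CharZero F]
    (f f' : Module.End F V) (hf : f * f = f) (hf' : f' * f' = f')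
    (ht : LinearMap.trace F V f = LinearMap.trace F V f') :
    ∃ s s' : Module.End F V, f' * s = s ∧ s' * s = f := by
  have h1 := (LinearMap.IsIdempotentElem.isProj_range f hf).trace
  have h2 := (LinearMap.IsIdempotentElem.isProj_range f' hf').trace
  rw [h1, h2] at ht
  have h3 : Module.finrank F (LinearMap.range f) = Module.finrank F (LinearMap.range f') := by exact_mod_cast ht
  let e : LinearMap.range f ≃ₗ[F] LinearMap.range f' := LinearEquiv.ofFinrankEq _ _ h3
  have hf'v : ∀ w : LinearMap.range f', f' w = w := by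
    rintro ⟨_, v, rfl⟩
    exact LinearMap.congr_fun hf' v
  refine ⟨(LinearMap.range f').subtype ∘ₗ (e : LinearMap.range f →ₗ[F] LinearMap.range f') ∘ₗ f.rangeRestrict,
    (LinearMap.range f).subtype ∘ₗ (e.symm : LinearMap.range f' →ₗ[F] LinearMap.range f) ∘ₗ f'.rangeRestrict, ?_, ?_⟩
  · apply LinearMap.ext
    intro v
    exact hf'v _
  · apply LinearMap.ext
    intro v
    have h4 : f'.rangeRestrict ((e (f.rangeRestrict v) : LinearMap.range f') : V) = e (f.rangeRestrict v) := by
      apply Subtype.ext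
      exact hf'v _
    show ((e.symm (f'.rangeRestrict ((e (f.rangeRestrict v) : LinearMap.range f') : V)) : LinearMap.range f) : V) = f v
    rw [h4, LinearEquiv.symm_apply_apply]
    rfl

theorem idem_mat {F : Type*} [Field F] [CharZero F] (P P' : Matrix (Fin N) (Fin N) F) (hP : P * P = P)
    (hP' : P' * P' = P') (ht : P.trace = P'.trace) :
    ∃ S S' : Matrix (Fin N) (Fin N) F, P' * S = S ∧ S' * S = P := by
  let e : Matrix (Fin N) (Fin N) F ≃ₐ[F] Module.End F (Fin N → F) := Matrix.toLinAlgEquiv' (R := F) (n := Fin N)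
  obtain ⟨s, s', h1, h2⟩ := idem_end (e P) (e P') (by rw [← map_mul, hP]) (by rw [← map_mul, hP'])
    (by
      have h : ∀ A, LinearMap.trace F (Fin N → F) (e A) = A.trace := fun A => Matrix.trace_toLin'_eq _
      rw [h, h, ht])
  refine ⟨e.symm s, e.symm s', ?_, ?_⟩
  · apply e.injective
    rw [map_mul, e.apply_symm_apply, h1]
  · apply e.injective
    rw [map_mul, e.apply_symm_apply, e.apply_symm_apply, h2]

section pi

variable {k F : Type*} [Field k] [Field F] [CharZero F] [Algebra k F] {m : ℕ} {d : Fin m → ℕ}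

/-- matrix units -/
def mu (k : Type*) [Field k] (d : Fin m → ℕ) (i : Fin m) (a b : Fin (d i)) : (i : Fin m) → Matrix (Fin (d i)) (Fin (d i)) k :=
  Pi.single i (Matrix.single a b 1)

theorem mu_same (i : Fin m) (a b c : Fin (d i)) : mu k d i a b * mu k d i b c = mu k d i a c := by
  unfold mu
  rw [← Pi.single_mul, Matrix.single_mul_single_same, mul_one]

theorem mu_ne (i : Fin m) (a b b' c : Fin (d i)) (h : b ≠ b') : mu k d i a b * mu k d i b' c = 0 := by
  unfold mu
  rw [← Pi.single_mul, Matrix.single_mul_single_of_ne (h := h), Pi.single_zero]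

theorem mu_ne' (i i' : Fin m) (a b : Fin (d i)) (a' b' : Fin (d i')) (h : i ≠ i') :
    mu k d i a b * mu k d i' a' b' = 0 := by
  unfold mu
  funext j
  rw [Pi.mul_apply]
  by_cases hj : j = i
  · subst hj
    rw [Pi.single_eq_of_ne h, mul_zero]
    rfl
  · rw [Pi.single_eq_of_ne hj, zero_mul]
    rfl

theorem mu_decomp (a : (i : Fin m) → Matrix (Fin (d i)) (Fin (d i)) k) :
    a = ∑ i, ∑ b, ∑ c, a i b c • mu k d i b c := by
  conv_lhs => rw [← Finset.univ_sum_single a]
  refine Finset.sum_congr rfl fun i _ => ?_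
  conv_lhs => rw [Matrix.matrix_eq_sum_single (a i)]
  have h : ∀ x : Matrix (Fin (d i)) (Fin (d i)) k, Pi.single i x =
    LinearMap.single k (fun i => Matrix (Fin (d i)) (Fin (d i)) k) i x := fun _ => rfl
  rw [h, map_sum]
  refine Finset.sum_congr rfl fun b _ => ?_
  rw [map_sum]
  refine Finset.sum_congr rfl fun c _ => ?_
  unfold mu
  rw [h, ← map_smul, Matrix.smul_single, smul_eq_mul, mul_one]

theorem bn_pi (hd : ∀ i, NeZero (d i))
    (Θ₀ Θ : ((i : Fin m) → Matrix (Fin (d i)) (Fin (d i)) k) →ₐ[k] Matrix (Fin N) (Fin N) F)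
    (htr : ∀ a, (Θ₀ a).trace = (Θ a).trace) : ∃ g : GL (Fin N) F, ∀ a, Θ a * g = g * Θ₀ a := by
  classical
  let z : ∀ i, Fin (d i) := fun i => ⟨0, Nat.pos_of_ne_zero (hd i).out⟩
  have hS : ∀ i, ∃ S : Matrix (Fin N) (Fin N) F × Matrix (Fin N) (Fin N) F,
      Θ (mu k d i (z i) (z i)) * S.1 = S.1 ∧ S.2 * S.1 = Θ₀ (mu k d i (z i) (z i)) := by
    intro i
    obtain ⟨S, S', h1, h2⟩ := idem_mat (Θ₀ (mu k d i (z i) (z i))) (Θ (mu k d i (z i) (z i)))
      (by rw [← map_mul, mu_same]) (by rw [← map_mul, mu_same]) (htr _)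
    exact ⟨(S, S'), h1, h2⟩
  choose S hS1 hS2 using hS
  have hS3 : ∀ i, (S i).2 * (Θ (mu k d i (z i) (z i)) * (S i).1) = Θ₀ (mu k d i (z i) (z i)) := by
    intro i
    rw [hS1, hS2]
  let g : Matrix (Fin N) (Fin N) F := ∑ i, ∑ a, Θ (mu k d i a (z i)) * (S i).1 * Θ₀ (mu k d i (z i) a)
  let g' : Matrix (Fin N) (Fin N) F := ∑ i, ∑ a, Θ₀ (mu k d i a (z i)) * (S i).2 * Θ (mu k d i (z i) a)
  have hΘg : ∀ i b c, Θ (mu k d i b c) * g = Θ (mu k d i b (z i)) * (S i).1 * Θ₀ (mu k d i (z i) c) := by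
    intro i b c
    show Θ (mu k d i b c) * (∑ i, ∑ a, Θ (mu k d i a (z i)) * (S i).1 * Θ₀ (mu k d i (z i) a)) = _
    rw [Finset.mul_sum, Finset.sum_eq_single i, Finset.mul_sum, Finset.sum_eq_single c]
    · rw [← Matrix.mul_assoc, ← Matrix.mul_assoc, ← map_mul, mu_same]
    · intro a _ ha
      rw [← Matrix.mul_assoc, ← Matrix.mul_assoc, ← map_mul, mu_ne _ _ _ _ _ ha.symm, map_zero, Matrix.zero_mul, Matrix.zero_mul]
    · intro h
      exact absurd (Finset.mem_univ _) h
    · intro j _ hj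
      rw [Finset.mul_sum]
      refine Finset.sum_eq_zero fun a _ => ?_
      rw [← Matrix.mul_assoc, ← Matrix.mul_assoc, ← map_mul, mu_ne' _ _ _ _ _ _ hj.symm, map_zero, Matrix.zero_mul, Matrix.zero_mul]
    · intro h
      exact absurd (Finset.mem_univ _) h
  have hgΘ : ∀ i b c, g * Θ₀ (mu k d i b c) = Θ (mu k d i b (z i)) * (S i).1 * Θ₀ (mu k d i (z i) c) := by
    intro i b c
    show (∑ i, ∑ a, Θ (mu k d i a (z i)) * (S i).1 * Θ₀ (mu k d i (z i) a)) * Θ₀ (mu k d i b c) = _
    rw [Finset.sum_mul, Finset.sum_eq_single i, Finset.sum_mul, Finset.sum_eq_single b]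
    · rw [Matrix.mul_assoc, ← map_mul, mu_same]
    · intro a _ ha
      rw [Matrix.mul_assoc, ← map_mul, mu_ne _ _ _ _ _ ha, map_zero, Matrix.mul_zero]
    · intro h
      exact absurd (Finset.mem_univ _) h
    · intro j _ hj
      rw [Finset.sum_mul]
      refine Finset.sum_eq_zero fun a _ => ?_
      rw [Matrix.mul_assoc, ← map_mul, mu_ne' _ _ _ _ _ _ hj, map_zero, Matrix.mul_zero]
    · intro h
      exact absurd (Finset.mem_univ _) h
  have hone : ∑ i, ∑ a, mu k d i a a = 1 := by
    conv_rhs => rw [mu_decomp (1 : (i : Fin m) → Matrix (Fin (d i)) (Fin (d i)) k)]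
    refine Finset.sum_congr rfl fun i _ => Finset.sum_congr rfl fun a _ => ?_
    rw [Finset.sum_eq_single a]
    · rw [Pi.one_apply, Matrix.one_apply_eq, one_smul]
    · intro c _ hc
      rw [Pi.one_apply, Matrix.one_apply_ne hc.symm, zero_smul]
    · intro h
      exact absurd (Finset.mem_univ _) h
  have hg'g : g' * g = 1 := by
    show (∑ i, ∑ a, Θ₀ (mu k d i a (z i)) * (S i).2 * Θ (mu k d i (z i) a)) * g = 1
    rw [Finset.sum_mul, ← map_one Θ₀, ← hone, map_sum]
    refine Finset.sum_congr rfl fun i _ => ?_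
    rw [Finset.sum_mul, map_sum]
    refine Finset.sum_congr rfl fun a _ => ?_
    rw [Matrix.mul_assoc, hΘg, Matrix.mul_assoc, ← Matrix.mul_assoc (S i).2, hS3, ← map_mul, ← map_mul, mu_same, mu_same]
  have hgg' : g * g' = 1 := mul_eq_one_comm.1 hg'g
  refine ⟨⟨g, g', hgg', hg'g⟩, fun a => ?_⟩
  show Θ a * g = g * Θ₀ a
  rw [mu_decomp a]
  simp only [map_sum, map_smul, Finset.sum_mul, Finset.mul_sum, smul_mul_assoc, mul_smul_comm, hΘg, hgΘ]

end pi

theorem lift_alg {k B A₀ M : Type*} [Field k] [Ring B] [Ring A₀] [Ring M] [Algebra k B] [Algebra k A₀] [Algebra k M]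
    (p : B →ₐ[k] A₀) (hp : Function.Surjective p) (Θ : B →ₐ[k] M) (h : ∀ x, p x = 0 → Θ x = 0) :
    ∃ Θ' : A₀ →ₐ[k] M, ∀ x, Θ' (p x) = Θ x := by
  have hker : RingHom.ker (p : B →+* A₀) ≤ RingHom.ker (Θ : B →+* M) := fun x hx => h x hx
  let φ : A₀ →+* M := (p : B →+* A₀).liftOfRightInverseAux (Function.surjInv hp) (Function.rightInverse_surjInv hp)
    (Θ : B →+* M) hker
  have hφ : ∀ x, φ (p x) = Θ x := fun x =>
    (p : B →+* A₀).liftOfRightInverseAux_comp_apply (Function.surjInv hp) (Function.rightInverse_surjInv hp)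
      (Θ : B →+* M) hker x
  refine ⟨{ toRingHom := φ, commutes' := fun c => ?_ }, hφ⟩
  show φ (algebraMap k A₀ c) = _
  rw [← p.commutes, hφ, Θ.commutes]

/-- **Semisimple representations with the same trace are conjugate.** -/
theorem bn {G : Type*} [Group G] {k F : Type*} [Field k] [IsAlgClosed k] [CharZero k] [Field F] [CharZero F]
    (j : k →+* F) (r : G →* GL (Fin N) k) (hr : Semisimple r) (y : G →* GL (Fin N) F) (hy : Semisimple y)
    (htr : ∀ g, (y g : Matrix (Fin N) (Fin N) F).trace = j (r g : Matrix (Fin N) (Fin N) k).trace) :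
    ∃ p : GL (Fin N) F, ∀ g, (y g : Matrix (Fin N) (Fin N) F) * p = p * (r g : Matrix (Fin N) (Fin N) k).map j := by
  classical
  letI : Algebra k F := j.toAlgebra
  haveI := semisimple_ring hr
  obtain ⟨m, d, hd, ⟨e⟩⟩ := IsSemisimpleRing.exists_algEquiv_pi_matrix_of_isAlgClosed k (alg r)
  let πE : MonoidAlgebra k G →ₐ[k] Module.End k (Fin N → k) := MonoidAlgebra.lift k (Module.End k (Fin N → k)) G (toEnd r)
  have hπE : ∀ g, πE (MonoidAlgebra.single g 1) = toEnd r g := by
    intro g
    show MonoidAlgebra.lift k (Module.End k (Fin N → k)) G (toEnd r) (MonoidAlgebra.single g 1) = _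
    rw [MonoidAlgebra.lift_single, one_smul]
  have hmem : ∀ x, πE x ∈ alg r := by
    intro x
    induction x using MonoidAlgebra.induction_linear with
    | zero => rw [map_zero]; exact (alg r).zero_mem
    | add x y hx hy => rw [map_add]; exact (alg r).add_mem hx hy
    | single g c =>
      have e : (MonoidAlgebra.single g c : MonoidAlgebra k G) = c • MonoidAlgebra.single g 1 := by
        rw [MonoidAlgebra.smul_single, smul_eq_mul, mul_one]
      rw [e, map_smul, hπE]
      exact (alg r).smul_mem (Algebra.subset_adjoin ⟨g, rfl⟩) c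
  let π : MonoidAlgebra k G →ₐ[k] alg r := πE.codRestrict (alg r) hmem
  have hπs : Function.Surjective π := by
    rintro ⟨a, ha⟩
    have ha' : a ∈ πE.range := by
      have hle : alg r ≤ πE.range := Algebra.adjoin_le (by
        rintro _ ⟨g, rfl⟩
        exact ⟨MonoidAlgebra.single g 1, hπE g⟩)
      exact hle ha
    obtain ⟨x, hx⟩ := ha'
    exact ⟨x, Subtype.ext hx⟩
  let p : MonoidAlgebra k G →ₐ[k] ((i : Fin m) → Matrix (Fin (d i)) (Fin (d i)) k) := (e : alg r →ₐ[k] _).comp π
  have hp : Function.Surjective p := e.surjective.comp hπs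
  have hp0 : ∀ x, p x = 0 → πE x = 0 := by
    intro x hx
    have h1 : π x = 0 := (map_eq_zero_iff e e.injective).1 hx
    exact congrArg Subtype.val h1
  let jM : Matrix (Fin N) (Fin N) k →ₐ[k] Matrix (Fin N) (Fin N) F := (Algebra.ofId k F).mapMatrix
  have hjM : ∀ A, jM A = A.map j := fun A => rfl
  let Θ₀ : MonoidAlgebra k G →ₐ[k] Matrix (Fin N) (Fin N) F :=
    (jM.comp (Matrix.toLinAlgEquiv' (R := k) (n := Fin N)).symm.toAlgHom).comp πE
  have hΘ₀g : ∀ g, Θ₀ (MonoidAlgebra.single g 1) = (r g : Matrix (Fin N) (Fin N) k).map j := by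
    intro g
    show jM ((Matrix.toLinAlgEquiv' (R := k) (n := Fin N)).symm (πE (MonoidAlgebra.single g 1))) = _
    rw [hπE, hjM]
    congr 1
    exact (Matrix.toLinAlgEquiv' (R := k) (n := Fin N)).symm_apply_apply _
  let Θ : MonoidAlgebra k G →ₐ[k] Matrix (Fin N) (Fin N) F :=
    MonoidAlgebra.lift k (Matrix (Fin N) (Fin N) F) G ((Units.coeHom _).comp y)
  have hΘg : ∀ g, Θ (MonoidAlgebra.single g 1) = (y g : Matrix (Fin N) (Fin N) F) := by
    intro g
    show MonoidAlgebra.lift k (Matrix (Fin N) (Fin N) F) G ((Units.coeHom _).comp y) (MonoidAlgebra.single g 1) = _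
    rw [MonoidAlgebra.lift_single, one_smul]
    rfl
  have htrall : ∀ x, (Θ₀ x).trace = (Θ x).trace := by
    intro x
    induction x using MonoidAlgebra.induction_linear with
    | zero => rw [map_zero, map_zero]
    | add x y hx hy => rw [map_add, map_add, Matrix.trace_add, Matrix.trace_add, hx, hy]
    | single g c =>
      have e : (MonoidAlgebra.single g c : MonoidAlgebra k G) = c • MonoidAlgebra.single g 1 := by
        rw [MonoidAlgebra.smul_single, smul_eq_mul, mul_one]
      rw [e, map_smul, map_smul, Matrix.trace_smul, Matrix.trace_smul, hΘ₀g, hΘg, htr]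
      congr 1
      rw [Matrix.trace, Matrix.trace, map_sum]
      rfl
  have h0 : ∀ x, p x = 0 → Θ₀ x = 0 := by
    intro x hx
    show jM ((Matrix.toLinAlgEquiv' (R := k) (n := Fin N)).symm (πE x)) = 0
    rw [hp0 x hx, map_zero, map_zero]
  have h1 : ∀ x, p x = 0 → Θ x = 0 := by
    intro x hx
    have hxmem : ∀ x, Matrix.toLin' (Θ x) ∈ alg y := by
      intro x
      induction x using MonoidAlgebra.induction_linear with
      | zero => rw [map_zero, map_zero]; exact (alg y).zero_mem
      | add x y hx hy => rw [map_add, map_add]; exact (alg _).add_mem hx hy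
      | single g c =>
        have e : (MonoidAlgebra.single g c : MonoidAlgebra k G) = c • MonoidAlgebra.single g 1 := by
          rw [MonoidAlgebra.smul_single, smul_eq_mul, mul_one]
        have e2 : Θ (MonoidAlgebra.single g c) = (j c) • (y g : Matrix (Fin N) (Fin N) F) := by
          rw [e, map_smul, hΘg]
          exact (algebraMap_smul F c (y g : Matrix (Fin N) (Fin N) F)).symm
        rw [e2, map_smul]
        exact (alg y).smul_mem (Algebra.subset_adjoin ⟨g, rfl⟩) _
    have hz := trace_nondeg hy (by exact_mod_cast N.factorial_ne_zero) (hxmem x) (fun a ha => by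
      have ha' : a ∈ Submodule.span F (Set.range (toEnd y)) := by
        rw [← alg_eq_span]
        exact ha
      refine Submodule.span_induction (p := fun a _ => LinearMap.trace F (Fin N → F) (a * Matrix.toLin' (Θ x)) = 0)
        ?_ ?_ ?_ ?_ ha'
      · rintro _ ⟨g, rfl⟩
        have e1 : toEnd y g * Matrix.toLin' (Θ x) = Matrix.toLin' (Θ (MonoidAlgebra.single g 1 * x)) := by
          rw [map_mul, hΘg, Matrix.toLin'_mul]
          rfl
        rw [e1, Matrix.trace_toLin'_eq, ← htrall, map_mul, h0 x hx, Matrix.mul_zero, Matrix.trace_zero]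
      · rw [zero_mul, map_zero]
      · intro a b _ _ ha hb
        rw [add_mul, map_add, ha, hb, add_zero]
      · intro c a _ ha
        rw [smul_mul_assoc, map_smul, ha, smul_zero])
    exact Matrix.toLin'.injective (hz.trans (map_zero _).symm)
  obtain ⟨Φ₀, hΦ₀⟩ := lift_alg p hp Θ₀ h0
  obtain ⟨Φ, hΦ⟩ := lift_alg p hp Θ h1
  obtain ⟨q, hq⟩ := bn_pi hd Φ₀ Φ (fun a => by
    obtain ⟨x, rfl⟩ := hp a
    rw [hΦ₀, hΦ, htrall])
  refine ⟨q, fun g => ?_⟩
  have := hq (p (MonoidAlgebra.single g 1))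
  rwa [hΦ, hΦ₀, hΘg, hΘ₀g] at this

end Pool.Agent.H498.LG
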