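import Pool.Agent.H498.LG.Rank
import Pool.Graph.R_pool_sql_team_seeded_64922ed1.X320.DS.Rel

/-! Polynomial functions of representations modulo powers of `ℓ` which agree at most places. -/

set_option autoImplicit false
set_option linter.all false

namespace Pool.Agent.H498.LG

open Topology Filter NumberField IsDedekindDomain
open Pool.Agent.W401.Cheb
open Pool.Agent.W528.Ord (dens_mono dens_nonneg dens_or)
open Pool.Agent.H498.BG (cover ZQ red trans Zbar trans_red upperDensity nontriv eventually_lt norm_ell inv_lt_one inv_nonneg eq_of_red red_eq)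

/-- **Density of the support.** -/
theorem dens_support {K : Type} [Field K] [NumberField K] {R : Type*} [CommRing R] [PreValuationRing R] (d : ℕ)
    (f : GK K → R) (u w : GK K → Fin d → R) (hf : ∀ g h, f (g * h) = ∑ j, u g j * w h j)
    (U : Subgroup (GK K)) [U.Normal] (hU : IsOpen (U : Set (GK K))) (hwU : ∀ g, ∀ x ∈ U, w (g * x) = w g)
    (hfU : ∀ g, ∀ x ∈ U, f (g * x) = f g) (x₀ : GK K) (hx₀ : f x₀ ≠ 0)
    (δ : ℝ) (hδ : δ < 1 / d) :
    ∀ᶠ N in atTop, δ < dens (fun v : HeightOneSpectrum (𝓞 K) => ∃ σ, f σ ≠ 0 ∧ IsFrob v σ) N := by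
  classical
  have hfin : Finite (GK K ⧸ U) := Subgroup.quotient_finite_of_isOpen _ hU
  have hw : (Set.range w).Finite := by
    have h1 : ∀ a b : GK K, (QuotientGroup.leftRel U) a b → w a = w b := by
      intro a b hab
      rw [QuotientGroup.leftRel_apply] at hab
      have := hwU a _ hab
      rw [mul_inv_cancel_left] at this
      exact this.symm
    have h2 : Set.range w ⊆ Set.range (Quotient.lift w h1) := by
      rintro _ ⟨y, rfl⟩
      exact ⟨Quotient.mk _ y, rfl⟩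
    exact (Set.finite_range (Quotient.lift w h1)).subset h2
  obtain ⟨x, hx⟩ := cover d f u w hf hw x₀ hx₀
  set C : Set (GK K) := {σ | ∃ τ, f (τ * σ * τ⁻¹) ≠ 0} with hC
  have key := Pool.Agent.W528.Ord.chebK K U hU C
    (fun σ hσ τ => by
      obtain ⟨τ', h⟩ := hσ
      refine ⟨τ' * τ⁻¹, ?_⟩
      have e : τ' * τ⁻¹ * (τ * σ * τ⁻¹) * (τ' * τ⁻¹)⁻¹ = τ' * σ * τ'⁻¹ := by group
      rw [e]
      exact h)
    (fun σ hσ u hu => by
      obtain ⟨τ', h⟩ := hσ
      refine ⟨τ', ?_⟩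
      have e : τ' * (σ * u) * τ'⁻¹ = τ' * σ * τ'⁻¹ * (τ' * u * τ'⁻¹) := by group
      rw [e, hfU _ _ (Subgroup.Normal.conj_mem inferInstance _ hu _)]
      exact h)
  set m : GK K → GK K ⧸ U := QuotientGroup.mk with hm
  have hcard : (0 : ℝ) < (Nat.card (GK K ⧸ U) : ℝ) := by exact_mod_cast Nat.card_pos
  have hcount : Nat.card (GK K ⧸ U) ≤ d * (m '' C).ncard := by
    have h1 : (Set.univ : Set (GK K ⧸ U)) ⊆ ⋃ i : Fin d, (fun q : GK K ⧸ U => q * (m (x i))⁻¹) '' (m '' C) := by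
      intro q _
      obtain ⟨h, rfl⟩ := QuotientGroup.mk_surjective q
      obtain ⟨i, hi⟩ := hx h
      refine Set.mem_iUnion.2 ⟨i, m (h * x i), ⟨h * x i, ⟨1, by simpa using hi⟩, rfl⟩, ?_⟩
      show (m (h * x i)) * (m (x i))⁻¹ = m h
      have : m (h * x i) = m h * m (x i) := rfl
      rw [this, mul_inv_cancel_right]
    have h2 := Set.ncard_le_ncard h1 (Set.toFinite _)
    rw [Set.ncard_univ] at h2
    refine h2.trans ?_
    have h3 : ∀ s : Finset (Fin d), (⋃ i ∈ s, (fun q : GK K ⧸ U => q * (m (x i))⁻¹) '' (m '' C)).ncard ≤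
        s.card * (m '' C).ncard := by
      intro s
      induction s using Finset.induction_on with
      | empty => simp
      | insert a s ha ih =>
        rw [Finset.set_biUnion_insert, Finset.card_insert_of_notMem ha]
        refine (Set.ncard_union_le _ _).trans ?_
        have h4 := Set.ncard_image_le (f := fun q : GK K ⧸ U => q * (m (x a))⁻¹) (Set.toFinite (m '' C))
        nlinarith
    have h5 := h3 Finset.univ
    simpa using h5
  have hlim : δ < ((m '' C).ncard : ℝ) / (Nat.card (GK K ⧸ U) : ℝ) := by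
    have hd : (0 : ℝ) < d := by
      rcases Nat.eq_zero_or_pos d with h0 | h0
      · subst h0
        rw [Nat.zero_mul] at hcount
        have := Nat.card_pos (α := GK K ⧸ U)
        omega
      · exact_mod_cast h0
    refine hδ.trans_le ?_
    rw [div_le_div_iff₀ hd hcard, one_mul, mul_comm]
    exact_mod_cast hcount
  filter_upwards [key.eventually (lt_mem_nhds hlim)] with N hN
  refine hN.trans_le (dens_mono ?_ N)
  rintro v ⟨σ, ⟨τ, hτ⟩, hσ⟩
  exact ⟨_, hτ, Pool.Agent.X320.DS.isFrob_conj hσ τ⟩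

variable {K : Type} [Field K] [NumberField K] {ℓ : ℕ} [hℓ : Fact ℓ.Prime] {N : ℕ}

/-- the number of monomials of degree at most `k` in the entries -/
def mon (N k : ℕ) : ℕ := (N ^ 2 + k).choose k

theorem mon_pos (N k : ℕ) : 0 < mon N k := Nat.choose_pos (by omega)

theorem card_sym (N k : ℕ) : Fintype.card (Sym (Option (Fin N × Fin N)) k) = mon N k := by
  rw [Sym.card_sym_eq_choose, Fintype.card_option, Fintype.card_prod, Fintype.card_fin, mon]
  congr 1
  have : N ^ 2 = N * N := sq N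
  omega

/-- **Polynomial functions which agree at most places agree everywhere.** -/
theorem agree {m m' k : ℕ} (h : m ≤ m') (ρ : GK K →* GL (Fin N) (ZQ ℓ m))
    (ρ' : GK K →* GL (Fin N) (ZQ ℓ m')) (hρ : IsOpen (ρ.ker : Set (GK K))) (hρ' : IsOpen (ρ'.ker : Set (GK K)))
    (S : Set (HeightOneSpectrum (𝓞 K))) (hS : S.Finite) (D D' : Set (HeightOneSpectrum (𝓞 K)))
    (hD : upperDensity D < 1 / (4 * mon N k)) (hD' : upperDensity D' < 1 / (4 * mon N k))
    (F : Poly N) (hF : F.totalDegree ≤ k) (c : GK K → PadicAlgCl ℓ)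
    (hm : ∀ v ∉ S, v ∉ D → ∀ σ, IsFrob v σ → ∃ h : c σ ∈ Zbar ℓ,
      val F (ρ σ : Matrix (Fin N) (Fin N) (ZQ ℓ m)) = red ℓ m ⟨c σ, h⟩)
    (hm' : ∀ v ∉ S, v ∉ D' → ∀ σ, IsFrob v σ → ∃ h : c σ ∈ Zbar ℓ,
      val F (ρ' σ : Matrix (Fin N) (Fin N) (ZQ ℓ m')) = red ℓ m' ⟨c σ, h⟩) (g : GK K) :
    trans h (val F (ρ' g : Matrix (Fin N) (Fin N) (ZQ ℓ m'))) = val F (ρ g : Matrix (Fin N) (Fin N) (ZQ ℓ m)) := by
  classical
  by_contra hne
  set f : GK K → ZQ ℓ m := fun g => trans h (val F (ρ' g : Matrix (Fin N) (Fin N) (ZQ ℓ m'))) -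
    val F (ρ g : Matrix (Fin N) (Fin N) (ZQ ℓ m)) with hf
  obtain ⟨w1, hw1⟩ := exists_rank (R := ZQ ℓ m) k F hF
  let Sy := Sym (Option (Fin N × Fin N)) k
  let e : Fin (2 * mon N k) ≃ Sy ⊕ Sy :=
    Fintype.equivOfCardEq (by rw [Fintype.card_sum, card_sym, Fintype.card_fin]; ring)
  let A' : GK K → Matrix (Fin N) (Fin N) (ZQ ℓ m) := fun g => (ρ' g : Matrix (Fin N) (Fin N) (ZQ ℓ m')).map (trans h)
  let A : GK K → Matrix (Fin N) (Fin N) (ZQ ℓ m) := fun g => ρ g
  have hA' : ∀ x y, A' (x * y) = A' x * A' y := by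
    intro x y
    show ((ρ' (x * y) : Matrix (Fin N) (Fin N) (ZQ ℓ m'))).map (trans h) = _
    rw [map_mul, Units.val_mul, Matrix.map_mul]
  have hA : ∀ x y, A (x * y) = A x * A y := by
    intro x y
    show (ρ (x * y) : Matrix (Fin N) (Fin N) (ZQ ℓ m)) = _
    rw [map_mul, Units.val_mul]
  set u : GK K → Fin (2 * mon N k) → ZQ ℓ m := fun g j => Sum.elim
    (fun s : Sy => mono k (fun p : Fin N × Fin N => A' g p.1 p.2) s)
    (fun s : Sy => -mono k (fun p : Fin N × Fin N => A g p.1 p.2) s) (e j) with hu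
  set w : GK K → Fin (2 * mon N k) → ZQ ℓ m := fun g j => Sum.elim
    (fun s : Sy => w1 (A' g) s) (fun s : Sy => w1 (A g) s) (e j) with hw
  have hfac : ∀ g h, f (g * h) = ∑ j, u g j * w h j := by
    intro x y
    rw [hu, hw]
    rw [Equiv.sum_comp e fun s => Sum.elim
      (fun s : Sy => mono k (fun p : Fin N × Fin N => A' x p.1 p.2) s)
      (fun s : Sy => -mono k (fun p : Fin N × Fin N => A x p.1 p.2) s) s * Sum.elim
      (fun s : Sy => w1 (A' y) s) (fun s : Sy => w1 (A y) s) s]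
    rw [Fintype.sum_sum_type]
    simp only [Sum.elim_inl, Sum.elim_inr, neg_mul, Finset.sum_neg_distrib]
    rw [← hw1, ← hw1, ← hA', ← hA, ← sub_eq_add_neg]
    simp only [hf]
    rw [val_map]
  have hUo : IsOpen ((ρ.ker ⊓ ρ'.ker : Subgroup (GK K)) : Set (GK K)) := by
    rw [Subgroup.coe_inf]
    exact hρ.inter hρ'
  have hker : ∀ x ∈ ρ.ker ⊓ ρ'.ker, ∀ g, ρ (g * x) = ρ g ∧ ρ' (g * x) = ρ' g := by
    intro x hx g
    rw [map_mul, map_mul, (MonoidHom.mem_ker).1 hx.1, (MonoidHom.mem_ker).1 hx.2, mul_one, mul_one]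
    exact ⟨rfl, rfl⟩
  have hsum : upperDensity D + upperDensity D' < 1 / (2 * mon N k) := by
    have hn' : (0 : ℝ) < mon N k := by exact_mod_cast mon_pos N k
    have e1 : (1 : ℝ) / (4 * mon N k) + 1 / (4 * mon N k) = 1 / (2 * mon N k) := by
      field_simp
      norm_num
    linarith
  obtain ⟨δ, hδ1, hδ2⟩ := exists_between hsum
  have key := dens_support (2 * mon N k) f u w hfac (ρ.ker ⊓ ρ'.ker) hUo
    (fun g x hx => by
      funext j
      simp only [hw, A, A', (hker x hx g).1, (hker x hx g).2])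
    (fun g x hx => by simp only [hf, (hker x hx g).1, (hker x hx g).2]) g (sub_ne_zero.2 hne) δ (by
      push_cast
      exact hδ2)
  set η : ℝ := (δ - (upperDensity D + upperDensity D')) / 3 with hη
  have hηpos : 0 < η := by rw [hη]; linarith
  have h1 := eventually_lt (D := D) (δ := upperDensity D + η) (by linarith)
  have h2 := eventually_lt (D := D') (δ := upperDensity D' + η) (by linarith)
  have h3 := (Pool.Agent.X320.DS.dens_finite S hS).eventually (gt_mem_nhds hηpos)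
  obtain ⟨N₀, hN, hN1, hN2, hN3⟩ := (key.and (h1.and (h2.and h3))).exists
  have h4 : ∀ v : HeightOneSpectrum (𝓞 K), (∃ σ, f σ ≠ 0 ∧ IsFrob v σ) → (v ∈ D ∨ v ∈ D') ∨ v ∈ S := by
    rintro v ⟨σ, hσ, hv⟩
    by_contra hcon
    push Not at hcon
    obtain ⟨⟨hvD, hvD'⟩, hvS⟩ := hcon
    apply hσ
    obtain ⟨i1, e1⟩ := hm v hvS hvD σ hv
    obtain ⟨i2, e2⟩ := hm' v hvS hvD' σ hv
    simp only [hf]
    rw [e1, e2, trans_red, sub_self]
  have h5 := dens_mono h4 N₀
  have h6 := dens_or (fun v : HeightOneSpectrum (𝓞 K) => v ∈ D ∨ v ∈ D') (fun v => v ∈ S) N₀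
  have h7 := dens_or (fun v : HeightOneSpectrum (𝓞 K) => v ∈ D) (fun v => v ∈ D') N₀
  have h8 : η * 3 = δ - (upperDensity D + upperDensity D') := by rw [hη]; ring
  linarith

end Pool.Agent.H498.LG
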