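import Pool.Agent.H498.LG.Energy

/-! Critical points of the energy. -/

set_option autoImplicit false
set_option linter.all false

namespace Pool.Agent.H498.LG

open Matrix Topology Filter
open scoped ComplexOrder

variable {N : ℕ}

/-- entrywise derivative at `0` -/
def MD (M : ℝ → Mat N) (M' : Mat N) : Prop := ∀ a b, HasDerivAt (fun s => M s a b) (M' a b) 0

theorem MD.const (A : Mat N) : MD (fun _ => A) 0 := fun a b => hasDerivAt_const _ _

theorem MD.mul {M P : ℝ → Mat N} {M' P' : Mat N} (h : MD M M') (h' : MD P P') :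
    MD (fun s => M s * P s) (M' * P 0 + M 0 * P') := by
  intro a b
  have e : (M' * P 0 + M 0 * P') a b = ∑ c, (M' a c * P 0 c b + M 0 a c * P' c b) := by
    rw [Matrix.add_apply, Matrix.mul_apply, Matrix.mul_apply, Finset.sum_add_distrib]
  rw [e]
  simp only [Matrix.mul_apply]
  exact HasDerivAt.fun_sum fun c _ => (h a c).mul (h' c b)

theorem MD.add {M P : ℝ → Mat N} {M' P' : Mat N} (h : MD M M') (h' : MD P P') :
    MD (fun s => M s + P s) (M' + P') := fun a b => (h a b).add (h' a b)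

theorem MD.sub {M P : ℝ → Mat N} {M' P' : Mat N} (h : MD M M') (h' : MD P P') :
    MD (fun s => M s - P s) (M' - P') := fun a b => (h a b).sub (h' a b)

theorem MD.trace {M : ℝ → Mat N} {M' : Mat N} (h : MD M M') :
    HasDerivAt (fun s => (M s).trace.re) M'.trace.re 0 := by
  have h1 : HasDerivAt (fun s => (M s).trace) M'.trace 0 := by
    unfold Matrix.trace
    exact HasDerivAt.fun_sum fun c _ => h c c
  exact (Complex.reCLM.hasFDerivAt (x := (M 0).trace)).comp_hasDerivAt 0 h1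

theorem sp_apply (W : Mat N) (v : Fin N → ℝ) (a b : Fin N) :
    sp W v a b = ∑ i, W a i * (v i : ℂ) * star (W b i) := by
  unfold sp
  rw [Matrix.mul_apply]
  refine Finset.sum_congr rfl fun i _ => ?_
  rw [Matrix.mul_diagonal, conjTranspose_apply]

theorem MD.sp (W : Mat N) (c : ℝ) (a : Fin N → ℝ) :
    MD (fun s => sp W (fun i => Real.exp (c * s * a i))) (LG.sp W (fun i => c * a i)) := by
  intro x y
  simp only [sp_apply]
  refine HasDerivAt.fun_sum fun i _ => ?_
  refine HasDerivAt.mul_const (HasDerivAt.const_mul _ ?_) _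
  have h1 : HasDerivAt (fun s : ℝ => Real.exp (c * s * a i)) (c * a i) 0 := by
    have h2 : HasDerivAt (fun s : ℝ => c * s * a i) (c * a i) 0 := by
      simpa using ((hasDerivAt_id (0 : ℝ)).const_mul c).mul_const (a i)
    have h3 := h2.exp
    simpa using h3
  exact h1.ofReal_comp

theorem MD.five {X Z : ℝ → Mat N} {ξ ζ : Mat N} (hX : MD X ξ) (hZ : MD Z ζ) (hX0 : X 0 = 1) (hZ0 : Z 0 = 1)
    (u v : Mat N) : MD (fun s => X s * u * Z s * v * X s) (ξ * (u * v) + u * ζ * v + u * v * ξ) := by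
  have h := (((hX.mul (MD.const u)).mul hZ).mul (MD.const v)).mul hX
  simp only [hX0, hZ0, Matrix.mul_one, Matrix.one_mul, Matrix.mul_zero, add_zero, Matrix.add_mul,
    Matrix.mul_assoc] at h
  simpa only [Matrix.mul_assoc] using h

theorem coe_gl_inv {k : GL (Fin N) ℂ} {A B : Mat N} (h : (k : Mat N) = A) (hB : B * A = 1) :
    ((k⁻¹ : GL (Fin N) ℂ) : Mat N) = B := by
  calc ((k⁻¹ : GL (Fin N) ℂ) : Mat N) = B * A * ((k⁻¹ : GL (Fin N) ℂ) : Mat N) := by rw [hB, Matrix.one_mul]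
    _ = _ := by rw [Matrix.mul_assoc, ← h, gl_mul_inv, Matrix.mul_one]

theorem sp_exp_mul {W : Mat N} (hW : Wᴴ * W = 1) (a : Fin N → ℝ) (c d : ℝ) :
    sp W (fun i => Real.exp (c * a i)) * sp W (fun i => Real.exp (d * a i)) = sp W (fun i => Real.exp ((c + d) * a i)) := by
  rw [sp_mul hW]
  congr 1
  funext i
  rw [← Real.exp_add]
  congr 1
  ring

theorem sp_exp_zero {W : Mat N} (hW : W * Wᴴ = 1) (a : Fin N → ℝ) : sp W (fun i => Real.exp (0 * a i)) = 1 := by
  rw [← sp_one hW]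
  congr 1
  funext i
  rw [zero_mul, Real.exp_zero]

/-- the logarithm of `z z*` -/
noncomputable def lg (U : Mat N) (α : Fin N → ℝ) : Mat N := sp U (fun i => Real.log (α i))

/-- the logarithm of `z* z` -/
noncomputable def lg' (z : GL (Fin N) ℂ) (U : Mat N) (α : Fin N → ℝ) : Mat N :=
  (z : Mat N)ᴴ * sp U (fun i => Real.log (α i) / α i) * (z : Mat N)

/-- **The critical points of the energy.** -/
theorem crit {ι : Type} [Fintype ι] (y : ι → GL (Fin N) ℂ) (H : Subgroup (GL (Fin N) ℂ))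
    (hmin : ∀ k ∈ H, ∑ i, Phi (y i) ≤ ∑ i, Phi (k * y i * k⁻¹)) (U : ι → Mat N) (α : ι → Fin N → ℝ)
    (hd : ∀ i, Dat (y i) (U i) (α i)) {W : Mat N} (hW : Wᴴ * W = 1) (hW' : W * Wᴴ = 1) (a : Fin N → ℝ)
    (hk : ∀ s : ℝ, ∃ k ∈ H, (k : Mat N) = sp W (fun i => Real.exp (s * a i))) :
    ∑ i, (sp W a * (lg (U i) (α i) - lg' (y i) (U i) (α i))).trace.re = 0 := by
  let X : ℝ → ℝ → Mat N := fun c s => sp W (fun i => Real.exp (c * s * a i))
  have hX0 : ∀ c, X c 0 = 1 := by
    intro c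
    show sp W (fun i => Real.exp (c * 0 * a i)) = 1
    rw [mul_zero]
    exact sp_exp_zero hW' a
  have hXD : ∀ c, MD (X c) (sp W (fun i => c * a i)) := fun c => MD.sp W c a
  let P : ι → Mat N := fun i => sp (U i) (fun j => 2 * Real.log (α i j) / α i j)
  let Q : ι → Mat N := fun i => sp (U i) (fun j => (1 + 2 * |Real.log (α i j)|) / α i j)
  let A : ι → Mat N := fun i => (y i : Mat N) * (y i : Mat N)ᴴ
  let B : ι → ℝ → Mat N := fun i s => X 1 s * (y i : Mat N) * X (-2) s * (y i : Mat N)ᴴ * X 1 s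
  let C : ι → ℝ → Mat N := fun i s => X (-1) s * (((y i)⁻¹ : GL (Fin N) ℂ) : Mat N)ᴴ * X 2 s *
    (((y i)⁻¹ : GL (Fin N) ℂ) : Mat N) * X (-1) s
  let ψ : ℝ → ℝ := fun s => ∑ i, ((P i * (B i s - A i)).trace.re +
    (Q i * (B i s - 2 • A i + A i * C i s * A i)).trace.re)
  have hB0 : ∀ i, B i 0 = A i := by
    intro i
    show X 1 0 * (y i : Mat N) * X (-2) 0 * (y i : Mat N)ᴴ * X 1 0 = _
    rw [hX0, hX0, Matrix.one_mul, Matrix.mul_one, Matrix.mul_one]
  have hC0 : ∀ i, C i 0 = LG.iv (y i) := by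
    intro i
    show X (-1) 0 * (((y i)⁻¹ : GL (Fin N) ℂ) : Mat N)ᴴ * X 2 0 * (((y i)⁻¹ : GL (Fin N) ℂ) : Mat N) * X (-1) 0 = _
    rw [hX0, hX0, Matrix.one_mul, Matrix.mul_one, Matrix.mul_one]
    rfl
  have hψ0 : ψ 0 = 0 := by
    refine Finset.sum_eq_zero fun i _ => ?_
    rw [hB0, hC0, rem_self, sub_self, Matrix.mul_zero, Matrix.mul_zero, Matrix.trace_zero, Complex.zero_re, add_zero]
  have hψ : ∀ s, 0 ≤ ψ s := by
    intro s
    obtain ⟨k, hkH, hks⟩ := hk s
    have hks1 : (k : Mat N) = X 1 s := by rw [hks]; show _ = sp W (fun i => Real.exp (1 * s * a i)); simp only [one_mul]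
    have hki : ((k⁻¹ : GL (Fin N) ℂ) : Mat N) = X (-1) s := by
      refine coe_gl_inv hks1 ?_
      show sp W (fun i => Real.exp (-1 * s * a i)) * sp W (fun i => Real.exp (1 * s * a i)) = 1
      rw [sp_exp_mul hW, show -1 * s + 1 * s = 0 by ring, sp_exp_zero hW']
    have hstar : ∀ c, (X c s)ᴴ = X c s := fun c => sp_star _ _
    have hadd : ∀ c d, X c s * X d s = X (c + d) s := by
      intro c d
      show sp W (fun i => Real.exp (c * s * a i)) * sp W (fun i => Real.exp (d * s * a i)) = _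
      rw [sp_exp_mul hW, ← add_mul]
    have e1 : ∀ i, ((k * y i * k⁻¹ : GL (Fin N) ℂ) : Mat N) * ((k * y i * k⁻¹ : GL (Fin N) ℂ) : Mat N)ᴴ = B i s := by
      intro i
      rw [Units.val_mul, Units.val_mul, hki, hks1, conjTranspose_mul, conjTranspose_mul, hstar, hstar]
      show _ = X 1 s * (y i : Mat N) * X (-2) s * (y i : Mat N)ᴴ * X 1 s
      rw [show (-2 : ℝ) = -1 + -1 by norm_num, ← hadd]
      simp only [Matrix.mul_assoc]
    have e2 : ∀ i, LG.iv (k * y i * k⁻¹) = C i s := by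
      intro i
      have e3 : ((k * y i * k⁻¹)⁻¹ : GL (Fin N) ℂ) = k * (y i)⁻¹ * k⁻¹ := by group
      unfold LG.iv
      rw [e3, Units.val_mul, Units.val_mul, hki, hks1, conjTranspose_mul, conjTranspose_mul, hstar, hstar]
      show _ = X (-1) s * (((y i)⁻¹ : GL (Fin N) ℂ) : Mat N)ᴴ * X 2 s * (((y i)⁻¹ : GL (Fin N) ℂ) : Mat N) * X (-1) s
      rw [show (2 : ℝ) = 1 + 1 by norm_num, ← hadd]
      simp only [Matrix.mul_assoc]
    have h1 := hmin k hkH
    have h2 : ∀ i, Phi (k * y i * k⁻¹) - Phi (y i) ≤ (P i * (B i s - A i)).trace.re +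
        (Q i * (B i s - 2 • A i + A i * C i s * A i)).trace.re := by
      intro i
      have h3 := (hd i).phi_key (k * y i * k⁻¹)
      rw [e1, e2] at h3
      have h4 := (abs_le.1 h3).2
      show _ ≤ (sp (U i) (fun j => 2 * Real.log (α i j) / α i j) * (B i s - (y i : Mat N) * (y i : Mat N)ᴴ)).trace.re +
        (sp (U i) (fun j => (1 + 2 * |Real.log (α i j)|) / α i j) * (B i s - 2 • ((y i : Mat N) * (y i : Mat N)ᴴ) +
          (y i : Mat N) * (y i : Mat N)ᴴ * C i s * ((y i : Mat N) * (y i : Mat N)ᴴ))).trace.re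
      linarith
    have h5 := Finset.sum_le_sum fun i (_ : i ∈ Finset.univ) => h2 i
    rw [Finset.sum_sub_distrib] at h5
    show 0 ≤ ∑ i, _
    linarith
  have hmin0 : IsLocalMin ψ 0 := by
    refine Filter.Eventually.of_forall fun s => ?_
    rw [hψ0]
    exact hψ s
  let ξ : Mat N := sp W a
  have hneg : sp W (fun i => -1 * a i) = - ξ := by
    have := sp_smul W (-1) a
    rw [← this]
    simp [ξ]
  have h2' : sp W (fun i => 2 * a i) = 2 • ξ := by
    have := sp_smul W 2 a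
    rw [← this, two_smul]
    push_cast
    rw [two_smul]
  have hneg2 : sp W (fun i => -2 * a i) = - (2 • ξ) := by
    have := sp_smul W (-2) a
    rw [← this, two_smul]
    push_cast
    rw [neg_smul, two_smul]
  have h1' : sp W (fun i => 1 * a i) = ξ := by simp only [one_mul]; rfl
  let B' : ι → Mat N := fun i => ξ * A i + (y i : Mat N) * (- (2 • ξ)) * (y i : Mat N)ᴴ + A i * ξ
  have hBD : ∀ i, MD (B i) (B' i) := by
    intro i
    have := MD.five (hXD 1) (hXD (-2)) (hX0 1) (hX0 (-2)) (y i : Mat N) (y i : Mat N)ᴴ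
    rw [h1', hneg2] at this
    exact this
  have hCD : ∀ i, MD (C i) (-ξ * LG.iv (y i) + (((y i)⁻¹ : GL (Fin N) ℂ) : Mat N)ᴴ * (2 • ξ) *
      (((y i)⁻¹ : GL (Fin N) ℂ) : Mat N) + LG.iv (y i) * -ξ) := by
    intro i
    have := MD.five (hXD (-1)) (hXD 2) (hX0 (-1)) (hX0 2) (((y i)⁻¹ : GL (Fin N) ℂ) : Mat N)ᴴ
      (((y i)⁻¹ : GL (Fin N) ℂ) : Mat N)
    rw [hneg, h2'] at this
    exact this
  have hD : HasDerivAt ψ (∑ i, (P i * B' i).trace.re) 0 := by
    refine HasDerivAt.fun_sum fun i _ => ?_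
    have g1 : HasDerivAt (fun s => (P i * (B i s - A i)).trace.re) (P i * B' i).trace.re 0 := by
      have := ((MD.const (P i)).mul ((hBD i).sub (MD.const (A i)))).trace
      simpa only [Matrix.zero_mul, zero_add, sub_zero] using this
    have g2 : HasDerivAt (fun s => (Q i * (B i s - 2 • A i + A i * C i s * A i)).trace.re) 0 0 := by
      have := ((MD.const (Q i)).mul (((hBD i).sub (MD.const (2 • A i))).add
        (((MD.const (A i)).mul (hCD i)).mul (MD.const (A i))))).trace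
      have e : B' i - 0 + (((0 : Mat N) * C i 0 + A i * (-ξ * LG.iv (y i) + (((y i)⁻¹ : GL (Fin N) ℂ) : Mat N)ᴴ * (2 • ξ) *
          (((y i)⁻¹ : GL (Fin N) ℂ) : Mat N) + LG.iv (y i) * -ξ)) * A i + A i * C i 0 * 0) = 0 := by
        have f1 : A i * LG.iv (y i) = 1 := mul_iv (y i)
        have f2 : LG.iv (y i) * A i = 1 := by
          have := mul_eq_one_comm.1 f1
          exact this
        have f3 : A i * (((y i)⁻¹ : GL (Fin N) ℂ) : Mat N)ᴴ = (y i : Mat N) := by
          show (y i : Mat N) * (y i : Mat N)ᴴ * _ = _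
          rw [Matrix.mul_assoc, gl_star_mul_inv, Matrix.mul_one]
        have f4 : (((y i)⁻¹ : GL (Fin N) ℂ) : Mat N) * A i = (y i : Mat N)ᴴ := by
          show _ * ((y i : Mat N) * (y i : Mat N)ᴴ) = _
          rw [← Matrix.mul_assoc, gl_inv_mul, Matrix.one_mul]
        have f5 : (A i * (-ξ * LG.iv (y i) + (((y i)⁻¹ : GL (Fin N) ℂ) : Mat N)ᴴ * (2 • ξ) *
          (((y i)⁻¹ : GL (Fin N) ℂ) : Mat N) + LG.iv (y i) * -ξ)) * A i =
            A i * -ξ * (LG.iv (y i) * A i) + (A i * (((y i)⁻¹ : GL (Fin N) ℂ) : Mat N)ᴴ) * (2 • ξ) *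
            ((((y i)⁻¹ : GL (Fin N) ℂ) : Mat N) * A i) + (A i * LG.iv (y i)) * -ξ * A i := by
          simp only [Matrix.mul_add, Matrix.add_mul, Matrix.mul_assoc]
        rw [Matrix.zero_mul, Matrix.mul_zero, zero_add, add_zero, f5, f1, f2, f3, f4, Matrix.mul_one, Matrix.one_mul]
        show ξ * A i + (y i : Mat N) * (- (2 • ξ)) * (y i : Mat N)ᴴ + A i * ξ - 0 + _ = 0
        simp only [Matrix.mul_neg, Matrix.neg_mul]
        abel
      rw [e] at this
      simpa only [Matrix.zero_mul, zero_add, Matrix.mul_zero, Matrix.trace_zero, Complex.zero_re] using this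
    have := g1.add g2
    rwa [add_zero] at this
  have h0 := hmin0.hasDerivAt_eq_zero hD
  have hterm : ∀ i, (P i * B' i).trace.re = 4 * (ξ * (lg (U i) (α i) - lg' (y i) (U i) (α i))).trace.re := by
    intro i
    have hA : A i = sp (U i) (α i) := (hd i).eq
    have p1 : P i * A i = 2 • lg (U i) (α i) := by
      rw [hA]
      show sp (U i) _ * sp (U i) _ = 2 • sp (U i) _
      rw [sp_mul (hd i).l, two_smul, sp_add]
      congr 1
      funext j
      have := ((hd i).pos j).ne'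
      field_simp
      ring
    have p2 : A i * P i = 2 • lg (U i) (α i) := by
      rw [hA]
      show sp (U i) _ * sp (U i) _ = 2 • sp (U i) _
      rw [sp_mul (hd i).l, two_smul, sp_add]
      congr 1
      funext j
      have := ((hd i).pos j).ne'
      field_simp
      ring
    have p3 : (y i : Mat N)ᴴ * P i * (y i : Mat N) = 2 • lg' (y i) (U i) (α i) := by
      show (y i : Mat N)ᴴ * sp (U i) _ * (y i : Mat N) = 2 • ((y i : Mat N)ᴴ * sp (U i) _ * (y i : Mat N))
      rw [two_smul, ← Matrix.add_mul, ← Matrix.mul_add, sp_add]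
      congr 3
      funext j
      ring
    have q1 : (P i * (ξ * A i)).trace = 2 * (ξ * lg (U i) (α i)).trace := by
      rw [← Matrix.mul_assoc, Matrix.trace_mul_comm, ← Matrix.mul_assoc, p2, Matrix.trace_mul_comm, Matrix.mul_smul,
        Matrix.trace_smul]
      simp
    have q2 : (P i * (A i * ξ)).trace = 2 * (ξ * lg (U i) (α i)).trace := by
      rw [← Matrix.mul_assoc, p1, Matrix.trace_mul_comm, Matrix.mul_smul, Matrix.trace_smul]
      simp
    have q3 : (P i * ((y i : Mat N) * (- (2 • ξ)) * (y i : Mat N)ᴴ)).trace = -(4 * (ξ * lg' (y i) (U i) (α i)).trace) := by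
      rw [show P i * ((y i : Mat N) * (- (2 • ξ)) * (y i : Mat N)ᴴ) = (P i * (y i : Mat N) * (- (2 • ξ))) * (y i : Mat N)ᴴ by
        simp only [Matrix.mul_assoc], Matrix.trace_mul_comm, ← Matrix.mul_assoc, ← Matrix.mul_assoc, p3,
        Matrix.mul_neg, Matrix.trace_neg, Matrix.smul_mul, Matrix.mul_smul, Matrix.trace_smul, Matrix.trace_smul,
        Matrix.trace_mul_comm]
      simp only [nsmul_eq_mul, Nat.cast_ofNat]
      ring
    show (P i * (ξ * A i + (y i : Mat N) * (- (2 • ξ)) * (y i : Mat N)ᴴ + A i * ξ)).trace.re = _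
    rw [Matrix.mul_add, Matrix.mul_add, Matrix.trace_add, Matrix.trace_add, q1, q2, q3, Matrix.mul_sub, Matrix.trace_sub]
    simp only [Complex.add_re, Complex.neg_re, Complex.mul_re, Complex.sub_re, Complex.re_ofNat, Complex.im_ofNat, zero_mul, sub_zero]
    ring
  simp only [hterm] at h0
  rw [← Finset.mul_sum] at h0
  exact (mul_eq_zero.1 h0).resolve_left (by norm_num)

end Pool.Agent.H498.LG
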