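import Pool.Agent.H498.LG.Rank
import Pool.Graph.R_pool_sql_team_seeded_64922ed1.X320.DS.Transfer

/-! Descent of a conjugating matrix to an algebraically closed subfield, and compactness. -/

set_option autoImplicit false
set_option linter.all false

namespace Pool.Agent.H498.LG

open Pool.Agent.X320.DS (exists_hom)

variable {N : ℕ}

/-- **Transfer of a conjugating matrix.** -/
theorem transfer {k F : Type*} [Field k] [IsAlgClosed k] [Field F] (j : k →+* F) (p : GL (Fin N) F) :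
    ∃ g : GL (Fin N) k, ∀ (A : Matrix (Fin N) (Fin N) k) (P : Poly N) (c : k),
      val P ((p : Matrix (Fin N) (Fin N) F) * A.map j * ((p⁻¹ : GL (Fin N) F) : Matrix (Fin N) (Fin N) F)) = j c →
      val P ((g : Matrix (Fin N) (Fin N) k) * A * ((g⁻¹ : GL (Fin N) k) : Matrix (Fin N) (Fin N) k)) = c := by
  classical
  letI : Algebra k F := j.toAlgebra
  let pm : Matrix (Fin N) (Fin N) F := p
  let qm : Matrix (Fin N) (Fin N) F := ((p⁻¹ : GL (Fin N) F) : Matrix (Fin N) (Fin N) F)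
  have hpq : pm * qm = 1 := by
    show (p : Matrix (Fin N) (Fin N) F) * ((p⁻¹ : GL (Fin N) F) : Matrix (Fin N) (Fin N) F) = 1
    rw [← Units.val_mul, mul_inv_cancel, Units.val_one]
  let s : Finset F := (Finset.univ.image fun x : Fin N × Fin N => pm x.1 x.2) ∪
    Finset.univ.image fun x : Fin N × Fin N => qm x.1 x.2
  obtain ⟨θ⟩ := exists_hom (E := k) (Ω := k) s
  have hp : ∀ a b, pm a b ∈ Algebra.adjoin k (s : Set F) := fun a b => Algebra.subset_adjoin
    (Finset.mem_coe.2 (Finset.mem_union_left _ (Finset.mem_image.2 ⟨(a, b), Finset.mem_univ _, rfl⟩)))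
  have hq : ∀ a b, qm a b ∈ Algebra.adjoin k (s : Set F) := fun a b => Algebra.subset_adjoin
    (Finset.mem_coe.2 (Finset.mem_union_right _ (Finset.mem_image.2 ⟨(a, b), Finset.mem_univ _, rfl⟩)))
  set B := Algebra.adjoin k (s : Set F) with hB
  let p' : Matrix (Fin N) (Fin N) B := fun a b => ⟨pm a b, hp a b⟩
  let q' : Matrix (Fin N) (Fin N) B := fun a b => ⟨qm a b, hq a b⟩
  have hp' : p'.map (B.val : B →+* F) = pm := by ext a b; rfl
  have hq' : q'.map (B.val : B →+* F) = qm := by ext a b; rfl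
  have hinj : Function.Injective (fun A : Matrix (Fin N) (Fin N) B => A.map (B.val : B →+* F)) :=
    Matrix.map_injective Subtype.val_injective
  have hpq' : p' * q' = 1 := by
    apply hinj
    show (p' * q').map (B.val : B →+* F) = (1 : Matrix (Fin N) (Fin N) B).map (B.val : B →+* F)
    rw [Matrix.map_mul, hp', hq', hpq, Matrix.map_one _ (map_zero _) (map_one _)]
  let gm : Matrix (Fin N) (Fin N) k := p'.map (θ : B →+* k)
  let hm : Matrix (Fin N) (Fin N) k := q'.map (θ : B →+* k)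
  have hgh : gm * hm = 1 := by
    show p'.map (θ : B →+* k) * q'.map (θ : B →+* k) = 1
    rw [← Matrix.map_mul, hpq', Matrix.map_one _ (map_zero _) (map_one _)]
  refine ⟨⟨gm, hm, hgh, mul_eq_one_comm.1 hgh⟩, fun A P c h => ?_⟩
  show val P (gm * A * hm) = c
  have h1 : val P (p' * A.map (algebraMap k B) * q') = algebraMap k B c := by
    apply Subtype.val_injective
    show (B.val : B →+* F) (val P (p' * A.map (algebraMap k B) * q')) = j c
    rw [val_map, Matrix.map_mul, Matrix.map_mul, hp', hq', ← h]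
    rfl
  have h2 : (θ : B →+* k) (algebraMap k B c) = c := θ.commutes c
  rw [← h2, ← h1, val_map, Matrix.map_mul, Matrix.map_mul]
  congr 2
  show _ = gm * (A.map (algebraMap k B)).map (θ : B →+* k)
  congr 1
  ext a b
  exact (θ.commutes _).symm

/-- the variables of the conjugating matrix and of its inverse -/
abbrev Sg (N : ℕ) : Type := (Fin N × Fin N) ⊕ (Fin N × Fin N)

/-- generic matrix -/
noncomputable def Xg (N : ℕ) (k : Type*) [Field k] : Matrix (Fin N) (Fin N) (MvPolynomial (Sg N) k) :=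
  Matrix.of fun a b => MvPolynomial.X (Sum.inl (a, b))

/-- generic matrix -/
noncomputable def Xh (N : ℕ) (k : Type*) [Field k] : Matrix (Fin N) (Fin N) (MvPolynomial (Sg N) k) :=
  Matrix.of fun a b => MvPolynomial.X (Sum.inr (a, b))

/-- the evaluation at two matrices -/
noncomputable def ev {k : Type*} [Field k] (g h : Matrix (Fin N) (Fin N) k) : MvPolynomial (Sg N) k →+* k :=
  MvPolynomial.eval (Sum.elim (fun p => g p.1 p.2) (fun p => h p.1 p.2))

/-- the equation -/
noncomputable def eqn {k : Type*} [Field k] (A : Matrix (Fin N) (Fin N) k) (Q : Poly N × k) : MvPolynomial (Sg N) k :=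
  val Q.1 (Xg N k * A.map MvPolynomial.C * Xh N k) - MvPolynomial.C Q.2

theorem ev_eqn {k : Type*} [Field k] (g h A : Matrix (Fin N) (Fin N) k) (Q : Poly N × k) :
    ev g h (eqn A Q) = val Q.1 (g * A * h) - Q.2 := by
  have e1 : (Xg N k).map (ev g h) = g := by
    ext a b
    exact (MvPolynomial.eval_X _).trans rfl
  have e2 : (Xh N k).map (ev g h) = h := by
    ext a b
    exact (MvPolynomial.eval_X _).trans rfl
  have e3 : (A.map MvPolynomial.C).map (ev g h) = A := by
    ext a b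
    exact MvPolynomial.eval_C _
  have e4 : ev g h (MvPolynomial.C Q.2) = Q.2 := MvPolynomial.eval_C _
  rw [eqn, map_sub, val_map, Matrix.map_mul, Matrix.map_mul, e1, e2, e3, e4]

/-- **Compactness.** -/
theorem compactness {k : Type*} [Field k] {Γ : Type*} (r : Γ → Matrix (Fin N) (Fin N) k) (R : Γ → Set (Poly N × k))
    (hfin : ∀ Γ₀ : Finset Γ, ∃ g : GL (Fin N) k, ∀ γ ∈ Γ₀, ∀ Q ∈ R γ,
      val Q.1 ((g : Matrix (Fin N) (Fin N) k) * r γ * ((g⁻¹ : GL (Fin N) k) : Matrix (Fin N) (Fin N) k)) = Q.2) :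
    ∃ g : GL (Fin N) k, ∀ γ, ∀ Q ∈ R γ,
      val Q.1 ((g : Matrix (Fin N) (Fin N) k) * r γ * ((g⁻¹ : GL (Fin N) k) : Matrix (Fin N) (Fin N) k)) = Q.2 := by
  classical
  let 𝒮 : Set (MvPolynomial (Sg N) k) := {q | ∃ γ, ∃ Q ∈ R γ, q = eqn (r γ) Q}
  have hfg : (Submodule.span (MvPolynomial (Sg N) k) 𝒮).FG := IsNoetherian.noetherian _
  obtain ⟨t, ht, hspan⟩ := (Submodule.fg_span_iff_fg_span_finset_subset 𝒮).1 hfg
  have hch : ∀ q : t, ∃ γ, ∃ Q ∈ R γ, (q : MvPolynomial (Sg N) k) = eqn (r γ) Q := fun q => ht q.2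
  choose γ₀ hγ₀ using hch
  obtain ⟨g, hg⟩ := hfin (Finset.univ.image γ₀)
  refine ⟨g, fun γ Q hQ => ?_⟩
  have h1 : eqn (r γ) Q ∈ Submodule.span (MvPolynomial (Sg N) k) 𝒮 := Submodule.subset_span ⟨γ, Q, hQ, rfl⟩
  rw [hspan] at h1
  have h2 : eqn (r γ) Q ∈ RingHom.ker (ev (g : Matrix (Fin N) (Fin N) k) ((g⁻¹ : GL (Fin N) k) : Matrix (Fin N) (Fin N) k)) := by
    refine Submodule.span_le.2 (fun q hq => ?_) h1
    obtain ⟨Q', hQ', e⟩ := hγ₀ ⟨q, Finset.mem_coe.1 hq⟩
    have e' : q = eqn (r (γ₀ ⟨q, Finset.mem_coe.1 hq⟩)) Q' := e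
    show ev _ _ q = 0
    rw [e', ev_eqn, hg _ (Finset.mem_image_of_mem _ (Finset.mem_univ _)) Q' hQ', sub_self]
  have h3 : ev (g : Matrix (Fin N) (Fin N) k) ((g⁻¹ : GL (Fin N) k) : Matrix (Fin N) (Fin N) k) (eqn (r γ) Q) = 0 := h2
  rw [ev_eqn] at h3
  exact sub_eq_zero.1 h3

end Pool.Agent.H498.LG
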