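import Mathlib

/-! Embeddings in the complex numbers. -/

set_option autoImplicit false
set_option linter.all false

namespace Pool.Agent.H498.LG

open Cardinal

theorem card_padic (ℓ : ℕ) [Fact ℓ.Prime] : #ℚ_[ℓ] ≤ 𝔠 := by
  have h1 : Function.Surjective (Padic.mk : PadicSeq ℓ → ℚ_[ℓ]) := Quotient.mk_surjective
  refine (mk_le_of_surjective h1).trans ?_
  have h2 : Function.Injective (fun s : PadicSeq ℓ => (s : ℕ → ℚ)) := Subtype.val_injective
  refine (mk_le_of_injective h2).trans ?_
  rw [mk_pi, prod_const]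
  simp

theorem card_algcl (ℓ : ℕ) [Fact ℓ.Prime] : #(PadicAlgCl ℓ) ≤ 𝔠 :=
  (Algebra.IsAlgebraic.cardinalMk_le_max ℚ_[ℓ] (PadicAlgCl ℓ)).trans
    (max_le (card_padic ℓ) aleph0_le_continuum)

/-- fields of characteristic zero of at most the cardinality of the continuum embed in the complex numbers -/
theorem exists_embedding (F : Type) [Field F] [CharZero F] (h : #F ≤ 𝔠) : Nonempty (F →+* ℂ) := by
  let Q := FractionRing (MvPolynomial ℝ F)
  let L := AlgebraicClosure Q
  have h1 : #Q ≤ 𝔠 := by
    refine (le_of_eq (IsFractionRing.cardinalMk (R := MvPolynomial ℝ F) Q)).trans ?_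
    refine MvPolynomial.cardinalMk_le_max.trans ?_
    rw [mk_real]
    exact max_le (max_le h le_rfl) aleph0_le_continuum
  have h2 : #L ≤ 𝔠 := (Algebra.IsAlgebraic.cardinalMk_le_max Q L).trans (max_le h1 aleph0_le_continuum)
  have h3 : 𝔠 ≤ #L := by
    rw [← mk_real]
    refine mk_le_of_injective (f := fun x : ℝ => algebraMap Q L (algebraMap (MvPolynomial ℝ F) Q (MvPolynomial.X x))) ?_
    refine (algebraMap Q L).injective.comp ((IsFractionRing.injective (MvPolynomial ℝ F) Q).comp ?_)
    exact MvPolynomial.X_injective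
  haveI : CharZero L := charZero_of_injective_algebraMap
    ((algebraMap Q L).injective.comp ((IsFractionRing.injective (MvPolynomial ℝ F) Q).comp
      (MvPolynomial.C_injective ℝ F)) : Function.Injective (((algebraMap Q L).comp
        (algebraMap (MvPolynomial ℝ F) Q)).comp MvPolynomial.C))
  have h4 : #L = #ℂ := by
    rw [mk_complex]
    exact le_antisymm h2 h3
  obtain ⟨e⟩ := IsAlgClosed.ringEquiv_of_equiv_of_charZero (K := L) (L := ℂ)
    (aleph0_lt_continuum.trans_le h3) (Cardinal.eq.1 h4)
  exact ⟨e.toRingHom.comp (((algebraMap Q L).comp (algebraMap (MvPolynomial ℝ F) Q)).comp MvPolynomial.C)⟩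

end Pool.Agent.H498.LG
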