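import Pool.Agent.H498.LG.Spec

/-! The energy of a tuple of matrices, and minimal points in the closure of an orbit. -/

set_option autoImplicit false
set_option linter.all false

namespace Pool.Agent.H498.LG

open Matrix Topology Filter
open scoped ComplexOrder

variable {N : ℕ}

/-- spectral data for `z z*` -/
structure Dat (z : GL (Fin N) ℂ) (U : Mat N) (α : Fin N → ℝ) : Prop where
  l : Uᴴ * U = 1
  r : U * Uᴴ = 1
  pos : ∀ i, 0 < α i
  eq : (z : Mat N) * (z : Mat N)ᴴ = sp U α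

theorem exists_dat (z : GL (Fin N) ℂ) : ∃ U α, Dat z U α := by
  obtain ⟨U, α, h1, h2, h3, h4⟩ := exists_sp (z := (z : Mat N)) ((Matrix.isUnit_iff_isUnit_det _).1 z.isUnit)
  exact ⟨U, α, h1, h2, h3, h4⟩

/-- the inverse of `z z*` -/
noncomputable def iv (z : GL (Fin N) ℂ) : Mat N := ((z⁻¹ : GL (Fin N) ℂ) : Mat N)ᴴ * ((z⁻¹ : GL (Fin N) ℂ) : Mat N)

theorem gl_mul_inv (z : GL (Fin N) ℂ) : (z : Mat N) * ((z⁻¹ : GL (Fin N) ℂ) : Mat N) = 1 := by
  rw [← Units.val_mul, mul_inv_cancel, Units.val_one]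

theorem gl_inv_mul (z : GL (Fin N) ℂ) : ((z⁻¹ : GL (Fin N) ℂ) : Mat N) * (z : Mat N) = 1 := by
  rw [← Units.val_mul, inv_mul_cancel, Units.val_one]

theorem gl_star_mul_inv (z : GL (Fin N) ℂ) : (z : Mat N)ᴴ * ((z⁻¹ : GL (Fin N) ℂ) : Mat N)ᴴ = 1 := by
  rw [← conjTranspose_mul, gl_inv_mul, conjTranspose_one]

theorem gl_star_inv_mul (z : GL (Fin N) ℂ) : ((z⁻¹ : GL (Fin N) ℂ) : Mat N)ᴴ * (z : Mat N)ᴴ = 1 := by
  rw [← conjTranspose_mul, gl_mul_inv, conjTranspose_one]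

theorem mul_iv (z : GL (Fin N) ℂ) : (z : Mat N) * (z : Mat N)ᴴ * iv z = 1 := by
  unfold iv
  calc (z : Mat N) * (z : Mat N)ᴴ * (((z⁻¹ : GL (Fin N) ℂ) : Mat N)ᴴ * ((z⁻¹ : GL (Fin N) ℂ) : Mat N))
      = (z : Mat N) * ((z : Mat N)ᴴ * ((z⁻¹ : GL (Fin N) ℂ) : Mat N)ᴴ) * ((z⁻¹ : GL (Fin N) ℂ) : Mat N) := by
        simp only [Matrix.mul_assoc]
    _ = 1 := by rw [gl_star_mul_inv, Matrix.mul_one, gl_mul_inv]

theorem Dat.iv {z : GL (Fin N) ℂ} {U : Mat N} {α : Fin N → ℝ} (h : Dat z U α) :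
    LG.iv z = sp U (fun i => (α i)⁻¹) := by
  have h1 := mul_iv z
  rw [h.eq] at h1
  have h2 : sp U (fun i => (α i)⁻¹) * sp U α = 1 := by
    rw [sp_mul h.l, ← sp_one h.r]
    congr 1
    funext i
    exact inv_mul_cancel₀ (h.pos i).ne'
  calc LG.iv z = sp U (fun i => (α i)⁻¹) * sp U α * LG.iv z := by rw [h2, Matrix.one_mul]
    _ = _ := by rw [Matrix.mul_assoc, h1, Matrix.mul_one]

/-- the energy of a matrix -/
noncomputable def Phi (z : GL (Fin N) ℂ) : ℝ := ∑ i, Real.log ((exists_dat z).choose_spec.choose i) ^ 2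

theorem exists_phi (z : GL (Fin N) ℂ) : ∃ U α, Dat z U α ∧ Phi z = ∑ i, Real.log (α i) ^ 2 :=
  ⟨_, _, (exists_dat z).choose_spec.choose_spec, rfl⟩

theorem Dat.key {z z' : GL (Fin N) ℂ} {U V : Mat N} {α β : Fin N → ℝ} (h : Dat z U α) (h' : Dat z' V β) :
    |(∑ j, Real.log (β j) ^ 2) - (∑ i, Real.log (α i) ^ 2) -
      (sp U (fun i => 2 * Real.log (α i) / α i) * ((z' : Mat N) * (z' : Mat N)ᴴ - (z : Mat N) * (z : Mat N)ᴴ)).trace.re| ≤
    (sp U (fun i => (1 + 2 * |Real.log (α i)|) / α i) *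
      ((z' : Mat N) * (z' : Mat N)ᴴ - 2 • ((z : Mat N) * (z : Mat N)ᴴ) +
        (z : Mat N) * (z : Mat N)ᴴ * LG.iv z' * ((z : Mat N) * (z : Mat N)ᴴ))).trace.re := by
  rw [h.eq, h'.eq, h'.iv]
  exact LG.key h.l h.r h'.l h'.r h.pos h'.pos

theorem rem_self (z : GL (Fin N) ℂ) : (z : Mat N) * (z : Mat N)ᴴ - 2 • ((z : Mat N) * (z : Mat N)ᴴ) +
    (z : Mat N) * (z : Mat N)ᴴ * LG.iv z * ((z : Mat N) * (z : Mat N)ᴴ) = 0 := by
  rw [mul_iv, Matrix.one_mul, two_smul]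
  abel

theorem Dat.phi {z : GL (Fin N) ℂ} {U : Mat N} {α : Fin N → ℝ} (h : Dat z U α) :
    Phi z = ∑ i, Real.log (α i) ^ 2 := by
  obtain ⟨V, β, h', e⟩ := exists_phi z
  rw [e]
  have h1 := h.key h'
  rw [rem_self, Matrix.mul_zero, sub_self, Matrix.mul_zero, Matrix.trace_zero, Complex.zero_re, sub_zero] at h1
  exact sub_eq_zero.1 (abs_eq_zero.1 (le_antisymm h1 (abs_nonneg _)))

/-- **The key inequality for the energy.** -/
theorem Dat.phi_key {z : GL (Fin N) ℂ} {U : Mat N} {α : Fin N → ℝ} (h : Dat z U α) (z' : GL (Fin N) ℂ) :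
    |Phi z' - Phi z -
      (sp U (fun i => 2 * Real.log (α i) / α i) * ((z' : Mat N) * (z' : Mat N)ᴴ - (z : Mat N) * (z : Mat N)ᴴ)).trace.re| ≤
    (sp U (fun i => (1 + 2 * |Real.log (α i)|) / α i) *
      ((z' : Mat N) * (z' : Mat N)ᴴ - 2 • ((z : Mat N) * (z : Mat N)ᴴ) +
        (z : Mat N) * (z : Mat N)ᴴ * LG.iv z' * ((z : Mat N) * (z : Mat N)ᴴ))).trace.re := by
  obtain ⟨V, β, h', e⟩ := exists_phi z'
  rw [e, h.phi]
  exact h.key h'

theorem phi_nonneg (z : GL (Fin N) ℂ) : 0 ≤ Phi z := Finset.sum_nonneg fun i _ => sq_nonneg _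

theorem inv_eq (z : GL (Fin N) ℂ) : ((z⁻¹ : GL (Fin N) ℂ) : Mat N) = ((z : Mat N).det)⁻¹ • (z : Mat N).adjugate := by
  have h := Matrix.mul_adjugate (z : Mat N)
  have hd : (z : Mat N).det ≠ 0 := ((Matrix.isUnit_iff_isUnit_det _).1 z.isUnit).ne_zero
  have e : (z : Mat N) * (((z : Mat N).det)⁻¹ • (z : Mat N).adjugate) = 1 := by
    rw [Matrix.mul_smul, h, smul_smul, inv_mul_cancel₀ hd, one_smul]
  calc ((z⁻¹ : GL (Fin N) ℂ) : Mat N) = ((z⁻¹ : GL (Fin N) ℂ) : Mat N) * ((z : Mat N) *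
        (((z : Mat N).det)⁻¹ • (z : Mat N).adjugate)) := by rw [e, Matrix.mul_one]
    _ = _ := by rw [← Matrix.mul_assoc, gl_inv_mul, Matrix.one_mul]

theorem tendsto_ent {ι : Type*} {l : Filter ι} {u : ι → Mat N} {z : Mat N} :
    Tendsto u l (𝓝 z) ↔ ∀ a b, Tendsto (fun n => u n a b) l (𝓝 (z a b)) :=
  tendsto_pi_nhds.trans (forall_congr' fun a => tendsto_pi_nhds)

theorem tendsto_inv {ι : Type*} {l : Filter ι} {u : ι → GL (Fin N) ℂ} {z : GL (Fin N) ℂ}
    (h : Tendsto (fun n => (u n : Mat N)) l (𝓝 (z : Mat N))) :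
    Tendsto (fun n => (((u n)⁻¹ : GL (Fin N) ℂ) : Mat N)) l (𝓝 ((z⁻¹ : GL (Fin N) ℂ) : Mat N)) := by
  simp only [inv_eq]
  have hd : (z : Mat N).det ≠ 0 := ((Matrix.isUnit_iff_isUnit_det _).1 z.isUnit).ne_zero
  have h1 : Tendsto (fun n => (u n : Mat N).det) l (𝓝 (z : Mat N).det) :=
    ((continuous_id.matrix_det).tendsto (z : Mat N)).comp h
  have h2 : Tendsto (fun n => (u n : Mat N).adjugate) l (𝓝 (z : Mat N).adjugate) :=
    ((continuous_id.matrix_adjugate).tendsto (z : Mat N)).comp h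
  have h3 := h1.inv₀ hd
  exact tendsto_ent.2 fun a b => h3.mul (tendsto_ent.1 h2 a b)

theorem tendsto_star {ι : Type*} {l : Filter ι} {u : ι → Mat N} {z : Mat N} (h : Tendsto u l (𝓝 z)) :
    Tendsto (fun n => (u n)ᴴ) l (𝓝 zᴴ) := ((continuous_id.matrix_conjTranspose).tendsto z).comp h

theorem tendsto_mul {ι : Type*} {l : Filter ι} {u v : ι → Mat N} {z w : Mat N} (h : Tendsto u l (𝓝 z))
    (h' : Tendsto v l (𝓝 w)) : Tendsto (fun n => u n * v n) l (𝓝 (z * w)) := by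
  refine tendsto_ent.2 fun a b => ?_
  simp only [Matrix.mul_apply]
  exact tendsto_finsetSum _ fun c _ => (tendsto_ent.1 h a c).mul (tendsto_ent.1 h' c b)

theorem tendsto_trace {ι : Type*} {l : Filter ι} {u : ι → Mat N} {z : Mat N} (h : Tendsto u l (𝓝 z)) :
    Tendsto (fun n => (u n).trace.re) l (𝓝 z.trace.re) :=
  ((Complex.continuous_re.comp continuous_id.matrix_trace).tendsto z).comp h

/-- **The energy is continuous.** -/
theorem phi_tendsto {ι : Type*} {l : Filter ι} {u : ι → GL (Fin N) ℂ} {z : GL (Fin N) ℂ}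
    (h : Tendsto (fun n => (u n : Mat N)) l (𝓝 (z : Mat N))) : Tendsto (fun n => Phi (u n)) l (𝓝 (Phi z)) := by
  obtain ⟨U, α, hd⟩ := exists_dat z
  have h1 : Tendsto (fun n => (u n : Mat N) * (u n : Mat N)ᴴ) l (𝓝 ((z : Mat N) * (z : Mat N)ᴴ)) :=
    tendsto_mul h (tendsto_star h)
  have h2 : Tendsto (fun n => iv (u n)) l (𝓝 (iv z)) := tendsto_mul (tendsto_star (tendsto_inv h)) (tendsto_inv h)
  have h3 : Tendsto (fun n => (sp U (fun i => 2 * Real.log (α i) / α i) *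
      ((u n : Mat N) * (u n : Mat N)ᴴ - (z : Mat N) * (z : Mat N)ᴴ)).trace.re) l (𝓝 0) := by
    have := tendsto_trace (tendsto_mul (tendsto_const_nhds (x := sp U (fun i => 2 * Real.log (α i) / α i)))
      (h1.sub (tendsto_const_nhds (x := (z : Mat N) * (z : Mat N)ᴴ))))
    rwa [sub_self, Matrix.mul_zero, Matrix.trace_zero, Complex.zero_re] at this
  have h4 : Tendsto (fun n => (sp U (fun i => (1 + 2 * |Real.log (α i)|) / α i) *
      ((u n : Mat N) * (u n : Mat N)ᴴ - 2 • ((z : Mat N) * (z : Mat N)ᴴ) +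
        (z : Mat N) * (z : Mat N)ᴴ * LG.iv (u n) * ((z : Mat N) * (z : Mat N)ᴴ))).trace.re) l (𝓝 0) := by
    have := tendsto_trace (tendsto_mul (tendsto_const_nhds (x := sp U (fun i => (1 + 2 * |Real.log (α i)|) / α i)))
      ((h1.sub (tendsto_const_nhds (x := 2 • ((z : Mat N) * (z : Mat N)ᴴ)))).add
        (tendsto_mul (tendsto_mul (tendsto_const_nhds (x := (z : Mat N) * (z : Mat N)ᴴ)) h2)
          (tendsto_const_nhds (x := (z : Mat N) * (z : Mat N)ᴴ)))))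
    rwa [rem_self, Matrix.mul_zero, Matrix.trace_zero, Complex.zero_re] at this
  have h5 : Tendsto (fun n => Phi (u n) - Phi z) l (𝓝 0) := by
    have h9 := h3.abs.add h4
    rw [abs_zero, add_zero] at h9
    refine squeeze_zero_norm (fun n => ?_) h9
    have h6 := hd.phi_key (u n)
    rw [Real.norm_eq_abs]
    set a := Phi (u n) - Phi z
    have h7 := abs_sub_abs_le_abs_sub a ((sp U (fun i => 2 * Real.log (α i) / α i) *
      ((u n : Mat N) * (u n : Mat N)ᴴ - (z : Mat N) * (z : Mat N)ᴴ)).trace.re)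
    linarith
  have h8 := h5.add_const (Phi z)
  simpa using h8

/-- the entries are bounded in terms of the energy -/
theorem normSq_le (z : GL (Fin N) ℂ) (i j : Fin N) :
    Complex.normSq ((z : Mat N) i j) ≤ N * Real.exp (Real.sqrt (Phi z)) := by
  obtain ⟨U, α, hd, e⟩ := exists_phi z
  have h1 : Complex.normSq ((z : Mat N) i j) ≤ ((z : Mat N) * (z : Mat N)ᴴ).trace.re := by
    rw [Matrix.trace, Complex.re_sum]
    have h2 : ∀ a, (((z : Mat N) * (z : Mat N)ᴴ).diag a).re = ∑ b, Complex.normSq ((z : Mat N) a b) := by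
      intro a
      rw [Matrix.diag_apply, Matrix.mul_apply, Complex.re_sum]
      refine Finset.sum_congr rfl fun b _ => ?_
      rw [conjTranspose_apply, show star ((z : Mat N) a b) = (starRingEnd ℂ) ((z : Mat N) a b) from rfl,
        Complex.mul_conj, Complex.ofReal_re]
    simp only [h2]
    refine le_trans ?_ (Finset.single_le_sum (f := fun a => ∑ b, Complex.normSq ((z : Mat N) a b))
      (fun a _ => Finset.sum_nonneg fun b _ => Complex.normSq_nonneg _) (Finset.mem_univ i))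
    exact Finset.single_le_sum (f := fun b => Complex.normSq ((z : Mat N) i b))
      (fun b _ => Complex.normSq_nonneg _) (Finset.mem_univ j)
  have h2 : ((z : Mat N) * (z : Mat N)ᴴ).trace.re = ∑ i, α i := by
    rw [hd.eq]
    have := trace_sp_sp U U α (fun _ => 1)
    rw [sp_one hd.r, Matrix.mul_one] at this
    rw [this, Complex.ofReal_re]
    refine Finset.sum_congr rfl fun i _ => ?_
    simp only [mul_one]
    rw [← Finset.sum_mul, wt_row hd.l hd.r, one_mul]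
  rw [h2] at h1
  refine h1.trans ?_
  have h3 : ∀ i, α i ≤ Real.exp (Real.sqrt (Phi z)) := by
    intro i
    rw [← Real.log_le_iff_le_exp (hd.pos i)]
    refine Real.le_sqrt_of_sq_le ?_
    rw [e]
    exact Finset.single_le_sum (f := fun i => Real.log (α i) ^ 2) (fun i _ => sq_nonneg _) (Finset.mem_univ i)
  refine (Finset.sum_le_sum fun i _ => h3 i).trans ?_
  simp

/-- **Minimal points in the closure of an orbit.** -/
theorem exists_min {ι : Type} [Fintype ι] (x : ι → GL (Fin N) ℂ) (H : Subgroup (GL (Fin N) ℂ)) :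
    ∃ (h : ℕ → GL (Fin N) ℂ) (y : ι → GL (Fin N) ℂ), (∀ n, h n ∈ H) ∧
      (∀ i, Tendsto (fun n => ((h n * x i * (h n)⁻¹ : GL (Fin N) ℂ) : Mat N)) atTop (𝓝 (y i : Mat N))) ∧
      ∀ k ∈ H, ∑ i, Phi (y i) ≤ ∑ i, Phi (k * y i * k⁻¹) := by
  classical
  let E : GL (Fin N) ℂ → ℝ := fun h => ∑ i, Phi (h * x i * h⁻¹)
  have hE : ∀ h, 0 ≤ E h := fun h => Finset.sum_nonneg fun i _ => phi_nonneg _
  have hne : (E '' (H : Set (GL (Fin N) ℂ))).Nonempty := ⟨_, 1, H.one_mem, rfl⟩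
  have hbd : BddBelow (E '' (H : Set (GL (Fin N) ℂ))) := ⟨0, by rintro _ ⟨h, _, rfl⟩; exact hE h⟩
  obtain ⟨u, hanti, hu, hmem⟩ := exists_seq_tendsto_sInf hne hbd
  choose h hh hhE using hmem
  have hbound : ∀ n i a b, ‖((h n * x i * (h n)⁻¹ : GL (Fin N) ℂ) : Mat N) a b‖ ≤
      Real.sqrt (N * Real.exp (Real.sqrt (u 0))) := by
    intro n i a b
    refine Real.le_sqrt_of_sq_le ?_
    rw [← Complex.normSq_eq_norm_sq]
    refine (normSq_le _ a b).trans ?_
    refine mul_le_mul_of_nonneg_left (Real.exp_le_exp.2 (Real.sqrt_le_sqrt ?_)) (Nat.cast_nonneg _)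
    refine le_trans ?_ (hanti (Nat.zero_le n))
    rw [← hhE n]
    exact Finset.single_le_sum (f := fun i => Phi (h n * x i * (h n)⁻¹)) (fun i _ => phi_nonneg _) (Finset.mem_univ i)
  let v : ℕ → (ι → Fin N → Fin N → ℂ) := fun n i a b => ((h n * x i * (h n)⁻¹ : GL (Fin N) ℂ) : Mat N) a b
  have hv : ∀ n, v n ∈ Metric.closedBall (0 : ι → Fin N → Fin N → ℂ) (Real.sqrt (N * Real.exp (Real.sqrt (u 0)))) := by
    intro n
    rw [mem_closedBall_zero_iff]
    refine (pi_norm_le_iff_of_nonneg (Real.sqrt_nonneg _)).2 fun i => ?_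
    refine (pi_norm_le_iff_of_nonneg (Real.sqrt_nonneg _)).2 fun a => ?_
    exact (pi_norm_le_iff_of_nonneg (Real.sqrt_nonneg _)).2 fun b => hbound n i a b
  obtain ⟨Y₀, _, φ, hφ, hlim⟩ := tendsto_subseq_of_bounded Metric.isBounded_closedBall hv
  let Y : ι → Mat N := Y₀
  have hlim' : ∀ i, Tendsto (fun n => ((h (φ n) * x i * (h (φ n))⁻¹ : GL (Fin N) ℂ) : Mat N)) atTop (𝓝 (Y i)) := by
    intro i
    exact (tendsto_pi_nhds.1 hlim) i
  have hdet : ∀ i, (Y i : Mat N).det = (x i : Mat N).det := by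
    intro i
    have h1 : Tendsto (fun n => ((h (φ n) * x i * (h (φ n))⁻¹ : GL (Fin N) ℂ) : Mat N).det) atTop
        (𝓝 (Y i : Mat N).det) := ((continuous_id.matrix_det).tendsto (Y i : Mat N)).comp (hlim' i)
    have h2 : ∀ n, ((h (φ n) * x i * (h (φ n))⁻¹ : GL (Fin N) ℂ) : Mat N).det = (x i : Mat N).det := by
      intro n
      rw [Units.val_mul, Units.val_mul, Matrix.det_mul, Matrix.det_mul]
      have h3 := congrArg Matrix.det (gl_mul_inv (h (φ n)))
      rw [Matrix.det_mul, Matrix.det_one] at h3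
      linear_combination (x i : Mat N).det * h3
    simp only [h2] at h1
    exact (tendsto_nhds_unique h1 tendsto_const_nhds)
  have hunit : ∀ i, IsUnit (Y i : Mat N) := by
    intro i
    rw [Matrix.isUnit_iff_isUnit_det, hdet]
    exact (Matrix.isUnit_iff_isUnit_det _).1 (x i).isUnit
  let y : ι → GL (Fin N) ℂ := fun i => (hunit i).unit
  have hy : ∀ i, Tendsto (fun n => ((h (φ n) * x i * (h (φ n))⁻¹ : GL (Fin N) ℂ) : Mat N)) atTop (𝓝 (y i : Mat N)) := hlim'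
  refine ⟨fun n => h (φ n), y, fun n => hh _, hy, fun k hk => ?_⟩
  have h1 : Tendsto (fun n => E (h (φ n))) atTop (𝓝 (∑ i, Phi (y i))) :=
    tendsto_finsetSum _ fun i _ => phi_tendsto (hy i)
  have h2 : Tendsto (fun n => E (h (φ n))) atTop (𝓝 (sInf (E '' (H : Set (GL (Fin N) ℂ))))) := by
    simp only [hhE]
    exact hu.comp hφ.tendsto_atTop
  rw [tendsto_nhds_unique h1 h2]
  have h3 : Tendsto (fun n => E (k * h (φ n))) atTop (𝓝 (∑ i, Phi (k * y i * k⁻¹))) := by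
    refine tendsto_finsetSum _ fun i _ => phi_tendsto ?_
    have e : ∀ n, ((k * h (φ n) * x i * (k * h (φ n))⁻¹ : GL (Fin N) ℂ) : Mat N) =
        (k : Mat N) * ((h (φ n) * x i * (h (φ n))⁻¹ : GL (Fin N) ℂ) : Mat N) * ((k⁻¹ : GL (Fin N) ℂ) : Mat N) := by
      intro n
      rw [← Units.val_mul, ← Units.val_mul]
      congr 1
      group
    simp only [e]
    rw [Units.val_mul, Units.val_mul]
    exact tendsto_mul (tendsto_mul tendsto_const_nhds (hy i)) tendsto_const_nhds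
  refine ge_of_tendsto' h3 fun n => ?_
  exact csInf_le hbd ⟨_, H.mul_mem hk (hh _), rfl⟩

end Pool.Agent.H498.LG
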