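import Pool.Agent.H498.LG.Crit
import Pool.Graph.R_pool_sql_team_seeded_64922ed1.X320.DS.Trace

/-! Minimal points of the energy are semisimple. -/

set_option autoImplicit false
set_option linter.all false

namespace Pool.Agent.H498.LG

open Matrix Topology Filter
open scoped ComplexOrder
open Pool.Agent.X320.DS (Stable Semisimple)

variable {N : ℕ}

theorem eq_zero_of_trace {A : Mat N} (h : (Aᴴ * A).trace.re = 0) : A = 0 := by
  have h1 : (Aᴴ * A).trace.re = ∑ i, ∑ j, Complex.normSq (A j i) := by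
    rw [Matrix.trace, Complex.re_sum]
    refine Finset.sum_congr rfl fun i _ => ?_
    rw [Matrix.diag_apply, Matrix.mul_apply, Complex.re_sum]
    refine Finset.sum_congr rfl fun j _ => ?_
    rw [conjTranspose_apply, show star (A j i) = (starRingEnd ℂ) (A j i) from rfl, mul_comm,
      Complex.mul_conj, Complex.ofReal_re]
  rw [h1] at h
  ext j i
  have h2 := (Finset.sum_eq_zero_iff_of_nonneg fun i _ => Finset.sum_nonneg fun j _ => Complex.normSq_nonneg _).1 h i
    (Finset.mem_univ i)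
  have h3 := (Finset.sum_eq_zero_iff_of_nonneg fun j _ => Complex.normSq_nonneg _).1 h2 j (Finset.mem_univ j)
  exact Complex.normSq_eq_zero.1 h3

/-- spectral data for `z* z` -/
theorem Dat.exists_right {z : GL (Fin N) ℂ} {U : Mat N} {α : Fin N → ℝ} (h : Dat z U α) :
    ∃ V : Mat N, Vᴴ * V = 1 ∧ V * Vᴴ = 1 ∧ (z : Mat N)ᴴ * (z : Mat N) = sp V α ∧
      lg' z U α = sp V (fun i => Real.log (α i)) := by
  let r : Fin N → ℝ := fun i => Real.exp (-(Real.log (α i) / 2))
  have hr : ∀ i, r i * r i = (α i)⁻¹ := by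
    intro i
    show Real.exp _ * Real.exp _ = _
    rw [← Real.exp_add, show -(Real.log (α i) / 2) + -(Real.log (α i) / 2) = -Real.log (α i) by ring,
      Real.exp_neg, Real.exp_log (h.pos i)]
  let V : Mat N := (z : Mat N)ᴴ * U * diagonal (fun i => (r i : ℂ))
  have hsp : ∀ b : Fin N → ℝ, sp V b = (z : Mat N)ᴴ * sp U (fun i => b i / α i) * (z : Mat N) := by
    intro b
    have e : diagonal (fun i => (r i : ℂ)) * diagonal (fun i => (b i : ℂ)) * (diagonal (fun i => (r i : ℂ)))ᴴ =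
        diagonal (fun i => ((b i / α i : ℝ) : ℂ)) := by
      rw [diagonal_conjTranspose, diagonal_mul_diagonal, diagonal_mul_diagonal]
      congr 1
      funext i
      show (r i : ℂ) * (b i : ℂ) * (starRingEnd ℂ) (r i : ℂ) = _
      rw [Complex.conj_ofReal, div_eq_mul_inv, ← hr i]
      push_cast
      ring
    calc sp V b = (z : Mat N)ᴴ * U * (diagonal (fun i => (r i : ℂ)) * diagonal (fun i => (b i : ℂ)) *
          (diagonal (fun i => (r i : ℂ)))ᴴ) * Uᴴ * (z : Mat N) := by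
          show (z : Mat N)ᴴ * U * diagonal (fun i => (r i : ℂ)) * diagonal (fun i => (b i : ℂ)) *
            ((z : Mat N)ᴴ * U * diagonal (fun i => (r i : ℂ)))ᴴ = _
          rw [conjTranspose_mul, conjTranspose_mul, conjTranspose_conjTranspose]
          simp only [Matrix.mul_assoc]
      _ = _ := by
          rw [e]
          unfold sp
          simp only [Matrix.mul_assoc]
  have hVV : V * Vᴴ = 1 := by
    have h1 : V * Vᴴ = sp V (fun _ => 1) := by
      unfold sp
      simp only [Complex.ofReal_one]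
      rw [show (diagonal fun _ : Fin N => (1 : ℂ)) = 1 from diagonal_one, Matrix.mul_one]
    rw [h1, hsp]
    have h2 : sp U (fun i => 1 / α i) = LG.iv z := by
      rw [h.iv]
      congr 1
      funext i
      exact one_div _
    rw [h2]
    unfold LG.iv
    calc (z : Mat N)ᴴ * (((z⁻¹ : GL (Fin N) ℂ) : Mat N)ᴴ * ((z⁻¹ : GL (Fin N) ℂ) : Mat N)) * (z : Mat N)
        = ((z : Mat N)ᴴ * ((z⁻¹ : GL (Fin N) ℂ) : Mat N)ᴴ) * (((z⁻¹ : GL (Fin N) ℂ) : Mat N) * (z : Mat N)) := by
          simp only [Matrix.mul_assoc]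
      _ = 1 := by rw [gl_star_mul_inv, gl_inv_mul, Matrix.one_mul]
  refine ⟨V, mul_eq_one_comm.1 hVV, hVV, ?_, ?_⟩
  · rw [hsp]
    have h2 : sp U (fun i => α i / α i) = 1 := by
      rw [← sp_one h.r]
      congr 1
      funext i
      exact div_self (h.pos i).ne'
    rw [h2, Matrix.mul_one]
  · rw [hsp]
    rfl

/-- **The logarithmic moment map vanishes at minimal points.** -/
theorem moment {ι : Type} [Fintype ι] (y : ι → GL (Fin N) ℂ) (H : Subgroup (GL (Fin N) ℂ))
    (hmin : ∀ k ∈ H, ∑ i, Phi (y i) ≤ ∑ i, Phi (k * y i * k⁻¹)) (U : ι → Mat N) (α : ι → Fin N → ℝ)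
    (hd : ∀ i, Dat (y i) (U i) (α i))
    (hpow : ∀ (W : Mat N) (a : Fin N → ℝ), Wᴴ * W = 1 → W * Wᴴ = 1 →
      (∃ k ∈ H, (k : Mat N) = sp W (fun i => Real.exp (a i))) →
        ∀ s : ℝ, ∃ k ∈ H, (k : Mat N) = sp W (fun i => Real.exp (s * a i)))
    (hl : ∀ i, ∃ k ∈ H, (k : Mat N) = (y i : Mat N) * (y i : Mat N)ᴴ)
    (hr : ∀ i, ∃ k ∈ H, (k : Mat N) = (y i : Mat N)ᴴ * (y i : Mat N)) :
    ∑ i, (lg (U i) (α i) - lg' (y i) (U i) (α i)) = 0 := by
  set M := ∑ i, (lg (U i) (α i) - lg' (y i) (U i) (α i)) with hM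
  have hexp : ∀ i, (fun j => Real.exp (Real.log (α i j))) = α i := by
    intro i
    funext j
    exact Real.exp_log ((hd i).pos j)
  have c1 : ∀ i, (lg (U i) (α i) * M).trace.re = 0 := by
    intro i
    have := crit y H hmin U α hd (hd i).l (hd i).r (fun j => Real.log (α i j))
      (hpow _ _ (hd i).l (hd i).r (by
        obtain ⟨k, hk, e⟩ := hl i
        exact ⟨k, hk, by rw [e, (hd i).eq, hexp]⟩))
    rw [← Complex.re_sum, ← Matrix.trace_sum, ← Matrix.mul_sum] at this
    exact this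
  have c2 : ∀ i, (lg' (y i) (U i) (α i) * M).trace.re = 0 := by
    intro i
    obtain ⟨V, v1, v2, v3, v4⟩ := (hd i).exists_right
    have := crit y H hmin U α hd v1 v2 (fun j => Real.log (α i j))
      (hpow _ _ v1 v2 (by
        obtain ⟨k, hk, e⟩ := hr i
        exact ⟨k, hk, by rw [e, v3, hexp]⟩))
    rw [← Complex.re_sum, ← Matrix.trace_sum, ← Matrix.mul_sum] at this
    rw [v4]
    exact this
  have hstar : Mᴴ = M := by
    rw [hM, conjTranspose_sum]
    refine Finset.sum_congr rfl fun i _ => ?_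
    obtain ⟨V, v1, v2, v3, v4⟩ := (hd i).exists_right
    rw [conjTranspose_sub, v4, sp_star]
    show (sp _ _)ᴴ - _ = _
    rw [sp_star]
    rfl
  apply eq_zero_of_trace
  rw [hstar]
  have e : M * M = ∑ i, (lg (U i) (α i) * M - lg' (y i) (U i) (α i) * M) := by
    conv_lhs => rw [hM, Matrix.sum_mul]
    refine Finset.sum_congr rfl fun i _ => ?_
    rw [Matrix.sub_mul]
  rw [e, Matrix.trace_sum, Complex.re_sum]
  refine Finset.sum_eq_zero fun i _ => ?_
  rw [Matrix.trace_sub, Complex.sub_re, c1, c2, sub_zero]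

theorem det_sp {d : ℕ} {Q : Mat d} (hQ : Q * Qᴴ = 1) (μ : Fin d → ℝ) : (sp Q μ).det = ((∏ i, μ i : ℝ) : ℂ) := by
  unfold sp
  rw [Matrix.det_mul, Matrix.det_mul, Matrix.det_diagonal]
  have h1 : Q.det * Qᴴ.det = 1 := by rw [← Matrix.det_mul, hQ, Matrix.det_one]
  push_cast
  linear_combination (∏ i, (μ i : ℂ)) * h1

/-- **Jensen's inequality** for the compression to a stable subspace. -/
theorem jensen {z V : Mat N} {α : Fin N → ℝ} (hV' : V * Vᴴ = 1) (hα : ∀ i, 0 < α i)
    (he : zᴴ * z = sp V α) {d : ℕ} (J : Matrix (Fin N) (Fin d) ℂ) (hJ : Jᴴ * J = 1) (a : Mat d)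
    (hz : z * J = J * a) (ha : IsUnit a.det) :
    (Jᴴ * sp V (fun i => Real.log (α i)) * J).trace.re ≤ Real.log (Complex.normSq a.det) ∧
      ((Jᴴ * sp V (fun i => Real.log (α i)) * J).trace.re = Real.log (Complex.normSq a.det) →
        zᴴ * z * J = J * (aᴴ * a)) := by
  have ha' : IsUnit aᴴ.det := by
    rw [Matrix.det_conjTranspose]
    exact ha.star
  obtain ⟨Q, μ, hQ, hQ', hμ, hspec⟩ := exists_sp ha'
  rw [conjTranspose_conjTranspose] at hspec
  let J' : Matrix (Fin N) (Fin d) ℂ := J * Q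
  let c : Matrix (Fin N) (Fin d) ℂ := Vᴴ * J'
  have hcc : cᴴ * c = 1 := by
    show (Vᴴ * (J * Q))ᴴ * (Vᴴ * (J * Q)) = 1
    rw [conjTranspose_mul, conjTranspose_conjTranspose, conjTranspose_mul]
    calc Qᴴ * Jᴴ * V * (Vᴴ * (J * Q)) = Qᴴ * (Jᴴ * (V * Vᴴ) * J) * Q := by simp only [Matrix.mul_assoc]
      _ = 1 := by rw [hV', Matrix.mul_one, hJ, Matrix.mul_one, hQ]
  have hcDc : cᴴ * diagonal (fun i => (α i : ℂ)) * c = diagonal (fun i => (μ i : ℂ)) := by
    show (Vᴴ * (J * Q))ᴴ * diagonal (fun i => (α i : ℂ)) * (Vᴴ * (J * Q)) = _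
    rw [conjTranspose_mul, conjTranspose_conjTranspose, conjTranspose_mul]
    calc Qᴴ * Jᴴ * V * diagonal (fun i => (α i : ℂ)) * (Vᴴ * (J * Q)) = Qᴴ * (Jᴴ * sp V α * J) * Q := by
          unfold sp
          simp only [Matrix.mul_assoc]
      _ = Qᴴ * (Jᴴ * zᴴ * (z * J)) * Q := by rw [← he]; simp only [Matrix.mul_assoc]
      _ = Qᴴ * (aᴴ * (Jᴴ * J) * a) * Q := by
          rw [hz, ← conjTranspose_mul, hz, conjTranspose_mul]
          simp only [Matrix.mul_assoc]
      _ = Qᴴ * sp Q μ * Q := by rw [hJ, Matrix.mul_one, hspec]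
      _ = (Qᴴ * Q) * diagonal (fun i => (μ i : ℂ)) * (Qᴴ * Q) := by
          unfold sp
          simp only [Matrix.mul_assoc]
      _ = _ := by rw [hQ, Matrix.one_mul, Matrix.mul_one]
  let p : Fin N → Fin d → ℝ := fun j i => Complex.normSq (c j i)
  have hp0 : ∀ j i, 0 ≤ p j i := fun j i => Complex.normSq_nonneg _
  have quad : ∀ (b : Fin N → ℝ) (i : Fin d), (cᴴ * diagonal (fun j => (b j : ℂ)) * c) i i =
      ((∑ j, p j i * b j : ℝ) : ℂ) := by
    intro b i
    rw [Matrix.mul_apply]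
    push_cast
    refine Finset.sum_congr rfl fun j _ => ?_
    rw [Matrix.mul_diagonal, conjTranspose_apply, show star (c j i) = (starRingEnd ℂ) (c j i) from rfl]
    show _ = ((Complex.normSq (c j i) : ℝ) : ℂ) * _
    rw [Complex.normSq_eq_conj_mul_self]
    ring
  have hp1 : ∀ i, ∑ j, p j i = 1 := by
    intro i
    have h1 := quad (fun _ => 1) i
    simp only [Complex.ofReal_one, mul_one] at h1
    rw [show (diagonal fun _ : Fin N => (1 : ℂ)) = 1 from diagonal_one, Matrix.mul_one, hcc, Matrix.one_apply_eq] at h1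
    exact_mod_cast h1.symm
  have hpα : ∀ i, ∑ j, p j i * α j = μ i := by
    intro i
    have h1 := quad α i
    rw [hcDc, diagonal_apply_eq] at h1
    exact_mod_cast h1.symm
  have htr : (Jᴴ * sp V (fun i => Real.log (α i)) * J).trace.re = ∑ i, ∑ j, p j i * Real.log (α j) := by
    have h1 : (Jᴴ * sp V (fun i => Real.log (α i)) * J).trace =
        (cᴴ * diagonal (fun j => ((Real.log (α j) : ℝ) : ℂ)) * c).trace := by
      have h2 : cᴴ * diagonal (fun j => ((Real.log (α j) : ℝ) : ℂ)) * c =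
          Qᴴ * (Jᴴ * sp V (fun i => Real.log (α i)) * J * Q) := by
        show (Vᴴ * (J * Q))ᴴ * diagonal (fun j => ((Real.log (α j) : ℝ) : ℂ)) * (Vᴴ * (J * Q)) = _
        rw [conjTranspose_mul, conjTranspose_conjTranspose, conjTranspose_mul]
        unfold sp
        simp only [Matrix.mul_assoc]
      have h5 : ∀ X : Mat d, (Qᴴ * (X * Q)).trace = X.trace := by
        intro X
        rw [Matrix.trace_mul_comm, Matrix.mul_assoc, hQ', Matrix.mul_one]
      rw [h2, h5]
    rw [h1, Matrix.trace, Complex.re_sum]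
    refine Finset.sum_congr rfl fun i _ => ?_
    rw [Matrix.diag_apply, quad, Complex.ofReal_re]
  have hdet : Real.log (Complex.normSq a.det) = ∑ i, Real.log (μ i) := by
    have h1 : ((Complex.normSq a.det : ℝ) : ℂ) = ((∏ i, μ i : ℝ) : ℂ) := by
      rw [← det_sp hQ', ← hspec, Matrix.det_mul, Matrix.det_conjTranspose, Complex.normSq_eq_conj_mul_self]
      rfl
    rw [Complex.ofReal_inj.1 h1, Real.log_prod (fun i _ => (hμ i).ne')]
  have hone : ∀ i, ∑ j, p j i * (Real.log (μ i) + (α j / μ i - 1)) = Real.log (μ i) := by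
    intro i
    have h1 : ∑ j, p j i * (Real.log (μ i) + (α j / μ i - 1)) =
        Real.log (μ i) * (∑ j, p j i) + ((∑ j, p j i * α j) / μ i - ∑ j, p j i) := by
      rw [Finset.mul_sum, Finset.sum_div, ← Finset.sum_sub_distrib, ← Finset.sum_add_distrib]
      refine Finset.sum_congr rfl fun j _ => ?_
      ring
    rw [h1, hp1, hpα, div_self (hμ i).ne']
    ring
  have hle : ∀ i j, Real.log (α j) ≤ Real.log (μ i) + (α j / μ i - 1) := by
    intro i j
    have h1 := Real.log_le_sub_one_of_pos (div_pos (hα j) (hμ i))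
    rw [Real.log_div (hα j).ne' (hμ i).ne'] at h1
    linarith
  have hlt : ∀ i j, Real.log (α j) = Real.log (μ i) + (α j / μ i - 1) → α j = μ i := by
    intro i j h
    by_contra hne
    have h1 := Real.log_lt_sub_one_of_pos (div_pos (hα j) (hμ i)) (fun h2 => hne ((div_eq_one_iff_eq (hμ i).ne').1 h2))
    rw [Real.log_div (hα j).ne' (hμ i).ne'] at h1
    linarith
  have hterm : ∀ i j, p j i * Real.log (α j) ≤ p j i * (Real.log (μ i) + (α j / μ i - 1)) :=
    fun i j => mul_le_mul_of_nonneg_left (hle i j) (hp0 j i)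
  have hrow : ∀ i, ∑ j, p j i * Real.log (α j) ≤ Real.log (μ i) := by
    intro i
    rw [← hone i]
    exact Finset.sum_le_sum fun j _ => hterm i j
  rw [htr, hdet]
  refine ⟨Finset.sum_le_sum fun i _ => hrow i, fun heq => ?_⟩
  have hrow' : ∀ i, ∑ j, p j i * Real.log (α j) = Real.log (μ i) := fun i =>
    (Finset.sum_eq_sum_iff_of_le fun i _ => hrow i).1 heq i (Finset.mem_univ i)
  have hent : ∀ i j, p j i = 0 ∨ α j = μ i := by
    intro i j
    have h1 := hrow' i
    rw [← hone i] at h1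
    have h2 := (Finset.sum_eq_sum_iff_of_le fun j _ => hterm i j).1 h1 j (Finset.mem_univ j)
    rcases mul_eq_mul_left_iff.1 h2 with h3 | h3
    · exact Or.inr (hlt i j h3)
    · exact Or.inl h3
  have hDc : diagonal (fun i => (α i : ℂ)) * c = c * diagonal (fun i => (μ i : ℂ)) := by
    ext j i
    rw [Matrix.diagonal_mul, Matrix.mul_diagonal]
    rcases hent i j with h | h
    · rw [Complex.normSq_eq_zero.1 h, mul_zero, zero_mul]
    · rw [h, mul_comm]
  have hVc : V * c = J' := by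
    show V * (Vᴴ * J') = J'
    rw [← Matrix.mul_assoc, hV', Matrix.one_mul]
  have h3 : zᴴ * z * J' = J' * diagonal (fun i => (μ i : ℂ)) := by
    calc zᴴ * z * J' = V * (diagonal (fun i => (α i : ℂ)) * c) := by
          rw [he]
          show V * _ * Vᴴ * J' = V * (_ * (Vᴴ * J'))
          simp only [Matrix.mul_assoc]
      _ = _ := by rw [hDc, ← Matrix.mul_assoc, hVc]
  calc zᴴ * z * J = zᴴ * z * J' * Qᴴ := by
        show _ = zᴴ * z * (J * Q) * Qᴴ
        rw [Matrix.mul_assoc (zᴴ * z) (J * Q) Qᴴ, Matrix.mul_assoc J, hQ', Matrix.mul_one]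
    _ = J * (aᴴ * a) := by
        rw [h3, hspec]
        show J * Q * _ * Qᴴ = J * (Q * _ * Qᴴ)
        simp only [Matrix.mul_assoc]

/-- **The orthogonal complement of a stable subspace is stable at a point with vanishing moment.** -/
theorem perp {ι : Type} [Fintype ι] (y : ι → GL (Fin N) ℂ) (U : ι → Mat N) (α : ι → Fin N → ℝ)
    (hd : ∀ i, Dat (y i) (U i) (α i)) (hM : ∑ i, (lg (U i) (α i) - lg' (y i) (U i) (α i)) = 0)
    {d : ℕ} (J : Matrix (Fin N) (Fin d) ℂ) (hJ : Jᴴ * J = 1) (a : ι → Mat d)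
    (hz : ∀ i, (y i : Mat N) * J = J * a i) (i : ι) : ∃ b : Mat d, (y i : Mat N)ᴴ * J = J * b := by
  have hinv : ∀ i, (Jᴴ * (((y i)⁻¹ : GL (Fin N) ℂ) : Mat N) * J) * a i = 1 := by
    intro i
    calc (Jᴴ * (((y i)⁻¹ : GL (Fin N) ℂ) : Mat N) * J) * a i = Jᴴ * (((y i)⁻¹ : GL (Fin N) ℂ) : Mat N) * (J * a i) := by
          simp only [Matrix.mul_assoc]
      _ = Jᴴ * ((((y i)⁻¹ : GL (Fin N) ℂ) : Mat N) * (y i : Mat N)) * J := by
          rw [← hz]
          simp only [Matrix.mul_assoc]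
      _ = 1 := by rw [gl_inv_mul, Matrix.mul_one, hJ]
  let c : ι → Mat d := fun i => Jᴴ * (((y i)⁻¹ : GL (Fin N) ℂ) : Mat N) * J
  have hca : ∀ i, c i * a i = 1 := hinv
  have hac : ∀ i, a i * c i = 1 := fun i => mul_eq_one_comm.1 (hca i)
  have hzi : ∀ i, (((y i)⁻¹ : GL (Fin N) ℂ) : Mat N) * J = J * c i := by
    intro i
    calc (((y i)⁻¹ : GL (Fin N) ℂ) : Mat N) * J = (((y i)⁻¹ : GL (Fin N) ℂ) : Mat N) * (J * a i) * c i := by
          rw [Matrix.mul_assoc, Matrix.mul_assoc J, hac, Matrix.mul_one]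
      _ = _ := by
          rw [← hz, ← Matrix.mul_assoc (((y i)⁻¹ : GL (Fin N) ℂ) : Mat N) (y i : Mat N) J, gl_inv_mul, Matrix.one_mul]
  have hua : ∀ i, IsUnit (a i).det := fun i => (Matrix.isUnit_iff_isUnit_det _).1 (IsUnit.of_mul_eq_one (c i) (hac i))
  have huc : ∀ i, IsUnit (c i).det := fun i => (Matrix.isUnit_iff_isUnit_det _).1 (IsUnit.of_mul_eq_one (a i) (hca i))
  have hdet : ∀ i, Real.log (Complex.normSq (c i).det) = - Real.log (Complex.normSq (a i).det) := by
    intro i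
    have h1 : (c i).det * (a i).det = 1 := by rw [← Matrix.det_mul, hca, Matrix.det_one]
    have h2 : Complex.normSq (c i).det * Complex.normSq (a i).det = 1 := by
      rw [← map_mul, h1, map_one]
    have h3 := congrArg Real.log h2
    rw [Real.log_mul (fun h => by rw [h, zero_mul] at h2; exact zero_ne_one h2)
      (fun h => by rw [h, mul_zero] at h2; exact zero_ne_one h2), Real.log_one] at h3
    linarith
  have key1 : ∀ i, (Jᴴ * lg' (y i) (U i) (α i) * J).trace.re ≤ Real.log (Complex.normSq (a i).det) ∧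
      ((Jᴴ * lg' (y i) (U i) (α i) * J).trace.re = Real.log (Complex.normSq (a i).det) →
        (y i : Mat N)ᴴ * (y i : Mat N) * J = J * ((a i)ᴴ * a i)) := by
    intro i
    obtain ⟨V, v1, v2, v3, v4⟩ := (hd i).exists_right
    rw [v4]
    exact jensen v2 (hd i).pos v3 J hJ (a i) (hz i) (hua i)
  have key2 : ∀ i, Real.log (Complex.normSq (a i).det) ≤ (Jᴴ * lg (U i) (α i) * J).trace.re := by
    intro i
    have h1 := (jensen (hd i).r (fun j => inv_pos.2 ((hd i).pos j)) ((hd i).iv : (((y i)⁻¹ : GL (Fin N) ℂ) : Mat N)ᴴ *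
      (((y i)⁻¹ : GL (Fin N) ℂ) : Mat N) = _) J hJ (c i) (hzi i) (huc i)).1
    have h2 : sp (U i) (fun j => Real.log (α i j)⁻¹) = - lg (U i) (α i) := by
      have := sp_smul (U i) (-1) (fun j => Real.log (α i j))
      simp only [Real.log_inv]
      rw [show (fun j => - Real.log (α i j)) = fun j => -1 * Real.log (α i j) by funext j; ring, ← this]
      push_cast
      rw [neg_smul, one_smul]
      rfl
    rw [h2, hdet, Matrix.mul_neg, Matrix.neg_mul, Matrix.trace_neg, Complex.neg_re] at h1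
    linarith
  have hsum : ∑ i, ((Jᴴ * lg (U i) (α i) * J).trace.re - (Jᴴ * lg' (y i) (U i) (α i) * J).trace.re) = 0 := by
    have h1 : (Jᴴ * (∑ i, (lg (U i) (α i) - lg' (y i) (U i) (α i))) * J).trace.re = 0 := by
      rw [hM, Matrix.mul_zero, Matrix.zero_mul, Matrix.trace_zero, Complex.zero_re]
    rw [← h1, Matrix.mul_sum, Matrix.sum_mul, Matrix.trace_sum, Complex.re_sum]
    refine Finset.sum_congr rfl fun i _ => ?_
    rw [Matrix.mul_sub, Matrix.sub_mul, Matrix.trace_sub, Complex.sub_re]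
  have hnn : ∀ i, 0 ≤ (Jᴴ * lg (U i) (α i) * J).trace.re - (Jᴴ * lg' (y i) (U i) (α i) * J).trace.re := by
    intro i
    have := (key1 i).1
    have := key2 i
    linarith
  have hz0 := (Finset.sum_eq_zero_iff_of_nonneg fun i _ => hnn i).1 hsum i (Finset.mem_univ i)
  have heq : (Jᴴ * lg' (y i) (U i) (α i) * J).trace.re = Real.log (Complex.normSq (a i).det) := by
    have := (key1 i).1
    have := key2 i
    linarith
  have h3 := (key1 i).2 heq
  refine ⟨(a i)ᴴ * a i * c i, ?_⟩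
  calc (y i : Mat N)ᴴ * J = (y i : Mat N)ᴴ * (J * a i) * c i := by
        rw [Matrix.mul_assoc, Matrix.mul_assoc J, hac, Matrix.mul_one]
    _ = (y i : Mat N)ᴴ * (y i : Mat N) * J * c i := by rw [← hz]; simp only [Matrix.mul_assoc]
    _ = _ := by rw [h3]; simp only [Matrix.mul_assoc]

end Pool.Agent.H498.LG
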