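import Pool.Agent.H498.LG.Coh
import Pool.Agent.H498.BG.LimMain

/-! The limits of the polynomial functions, and the limit representation. -/

set_option autoImplicit false
set_option linter.all false

namespace Pool.Agent.H498.LG

open Topology Filter NumberField IsDedekindDomain
open Pool.Agent.W401.Cheb
open Pool.Agent.X320.DS (Stable Semisimple toEnd alg trace_nondeg exists_basis)
open Pool.Agent.H498.BG (ZQ red trans Zbar trans_red upperDensity nontriv eventually_lt norm_ell inv_lt_one inv_nonneg eq_of_red red_eq exists_limit_rep continuous_of_trace)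

variable {K : Type} [Field K] [NumberField K] {ℓ : ℕ} [hℓ : Fact ℓ.Prime] {N : ℕ}

/-- a system of representations modulo the powers of `ℓ` such that the polynomials in `Fs` have at most Frobenius
elements the values `c` -/
structure Sys (k : ℕ) (Fs : Set (Poly N)) (c : Poly N → GK K → PadicAlgCl ℓ) (S : Set (HeightOneSpectrum (𝓞 K)))
    (L : Submodule ℚ_[ℓ] (PadicAlgCl ℓ)) (ρ : (m : ℕ) → GK K →* GL (Fin N) (ZQ ℓ m))
    (D : ℕ → Set (HeightOneSpectrum (𝓞 K))) : Prop where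
  fin : S.Finite
  deg : ∀ f ∈ Fs, f.totalDegree ≤ k
  coeff : ∀ f ∈ Fs, ∀ v ∉ S, ∀ σ, IsFrob v σ → c f σ ∈ L
  opn : ∀ m, IsOpen ((ρ m).ker : Set (GK K))
  dens : ∀ m, upperDensity (D m) < 1 / (4 * mon N k)
  unr : ∀ m, ∀ v ∉ S, v ∉ D m → ∀ τ, IsInert v τ → ρ m τ = 1
  mat : ∀ m, ∀ v ∉ S, v ∉ D m → ∀ f ∈ Fs, ∀ σ, IsFrob v σ → ∃ h : c f σ ∈ Zbar ℓ,
    val f (ρ m σ : Matrix (Fin N) (Fin N) (ZQ ℓ m)) = red ℓ m ⟨c f σ, h⟩
  inf : ∀ v ∉ S, {m | v ∉ D m}.Infinite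

variable {k : ℕ} {Fs : Set (Poly N)} {c : Poly N → GK K → PadicAlgCl ℓ} {S : Set (HeightOneSpectrum (𝓞 K))}
  {L : Submodule ℚ_[ℓ] (PadicAlgCl ℓ)} {ρ : (m : ℕ) → GK K →* GL (Fin N) (ZQ ℓ m)}
  {D : ℕ → Set (HeightOneSpectrum (𝓞 K))}

theorem Sys.agree (H : Sys k Fs c S L ρ D) {f : Poly N} (hf : f ∈ Fs) {m m' : ℕ} (h : m ≤ m') (g : GK K) :
    trans h (val f (ρ m' g : Matrix (Fin N) (Fin N) (ZQ ℓ m'))) =
      val f (ρ m g : Matrix (Fin N) (Fin N) (ZQ ℓ m)) :=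
  LG.agree h (ρ m) (ρ m') (H.opn m) (H.opn m') S H.fin (D m) (D m') (H.dens m) (H.dens m') f (H.deg f hf) (c f)
    (fun v hv hvD σ hσ => H.mat m v hv hvD f hf σ hσ) (fun v hv hvD σ hσ => H.mat m' v hv hvD f hf σ hσ) g

theorem Sys.large (H : Sys k Fs c S L ρ D) {v : HeightOneSpectrum (𝓞 K)} (hv : v ∉ S) (m : ℕ) :
    ∃ m', m < m' ∧ v ∉ D m' := by
  obtain ⟨m', h1, h2⟩ := (H.inf v hv).exists_gt m
  exact ⟨m', h2, h1⟩

theorem Sys.frob (H : Sys k Fs c S L ρ D) {f : Poly N} (hf : f ∈ Fs) {v : HeightOneSpectrum (𝓞 K)} (hv : v ∉ S)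
    {σ : GK K} (hσ : IsFrob v σ) (m : ℕ) : ∃ h : c f σ ∈ Zbar ℓ,
      val f (ρ m σ : Matrix (Fin N) (Fin N) (ZQ ℓ m)) = red ℓ m ⟨c f σ, h⟩ := by
  obtain ⟨m', h1, h2⟩ := H.large hv m
  obtain ⟨h, e⟩ := H.mat m' v hv h2 f hf σ hσ
  refine ⟨h, ?_⟩
  rw [← H.agree hf h1.le, e, trans_red]

/-- the values do not see the inertia groups outside `S` -/
theorem Sys.inert (H : Sys k Fs c S L ρ D) {f : Poly N} (hf : f ∈ Fs) {v : HeightOneSpectrum (𝓞 K)} (hv : v ∉ S)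
    {τ : GK K} (hτ : IsInert v τ) (m : ℕ) (g : GK K) : val f (ρ m (g * τ) : Matrix (Fin N) (Fin N) (ZQ ℓ m)) =
      val f (ρ m g : Matrix (Fin N) (Fin N) (ZQ ℓ m)) := by
  obtain ⟨m', h1, h2⟩ := H.large hv m
  rw [← H.agree hf h1.le, ← H.agree hf h1.le, map_mul, H.unr m' v hv h2 τ hτ, mul_one]

theorem Sys.approx (H : Sys k Fs c S L ρ D) {f : Poly N} (hf : f ∈ Fs) (g : GK K) (m : ℕ) :
    ∃ b : Zbar ℓ, (b : PadicAlgCl ℓ) ∈ L ∧ red ℓ m b = val f (ρ m g : Matrix (Fin N) (Fin N) (ZQ ℓ m)) := by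
  obtain ⟨v, hv, σ, hσ, e⟩ := Pool.Agent.X320.DS.exists_frob_coset (ρ m).ker (H.opn m) g⁻¹ S H.fin
  rw [QuotientGroup.eq, inv_inv, MonoidHom.mem_ker, map_mul, map_inv, mul_inv_eq_one] at e
  obtain ⟨h, e2⟩ := H.frob hf hv hσ m
  refine ⟨⟨c f σ, h⟩, H.coeff f hf v hv σ hσ, ?_⟩
  rw [← e2, e]

/-- **The limit of the values.** -/
theorem Sys.limit [FiniteDimensional ℚ_[ℓ] L] (H : Sys k Fs c S L ρ D) {f : Poly N} (hf : f ∈ Fs) (g : GK K) :
    ∃ t : Zbar ℓ, ∀ m, red ℓ m t = val f (ρ m g : Matrix (Fin N) (Fin N) (ZQ ℓ m)) := by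
  choose b hbL hb using H.approx hf g
  have hred : ∀ m m' : ℕ, m ≤ m' → red ℓ m (b m') = red ℓ m (b m) := by
    intro m m' h
    rw [← trans_red h, hb, hb, H.agree hf h]
  have hc : CauchySeq fun m => (b m : PadicAlgCl ℓ) := by
    refine cauchySeq_of_le_tendsto_0 (fun N => (ℓ : ℝ)⁻¹ ^ N) (fun p q N hp hq => ?_)
      (tendsto_pow_atTop_nhds_zero_of_lt_one (inv_nonneg (ℓ := ℓ)) inv_lt_one)
    rw [dist_eq_norm]
    exact (red_eq N (b p) (b q)).1 ((hred N p hp).trans (hred N q hq).symm)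
  obtain ⟨t, htL, ht⟩ := cauchySeq_tendsto_of_isComplete (Submodule.complete_of_finiteDimensional L) hbL hc
  have ht1 : ‖t‖ ≤ 1 := le_of_tendsto' ht.norm fun m => (b m).2
  refine ⟨⟨t, ht1⟩, fun m => ?_⟩
  rw [← hb m, red_eq]
  refine le_of_tendsto (tendsto_norm.comp (ht.sub_const ((b m : Zbar ℓ) : PadicAlgCl ℓ))) ?_
  filter_upwards [eventually_ge_atTop m] with p hp
  exact (red_eq m (b p) (b m)).1 (hred m p hp)

/-- the trace as a polynomial -/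
noncomputable def trP (N : ℕ) : Poly N := ∑ i, MvPolynomial.X (i, i)

theorem val_trP {R : Type*} [CommRing R] (A : Matrix (Fin N) (Fin N) R) : val (trP N) A = A.trace := by
  rw [val, trP, map_sum, Matrix.trace]
  exact Finset.sum_congr rfl fun i _ => by rw [MvPolynomial.aeval_X]; rfl

/-- **The limit representation.** -/
theorem Sys.main [FiniteDimensional ℚ_[ℓ] L] (H : Sys k Fs c S L ρ D) (htr : trP N ∈ Fs) :
    ∃ (r : GK K →* GL (Fin N) (PadicAlgCl ℓ)) (F : Poly N → GK K → Zbar ℓ), Continuous r ∧ Semisimple r ∧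
      (∀ v ∉ S, ∀ τ, IsInert v τ → r τ = 1) ∧
      (∀ g, (r g : Matrix (Fin N) (Fin N) (PadicAlgCl ℓ)).trace = F (trP N) g) ∧
      (∀ f ∈ Fs, ∀ m g, red ℓ m (F f g) = val f (ρ m g : Matrix (Fin N) (Fin N) (ZQ ℓ m))) ∧
      (∀ f ∈ Fs, ∀ v ∉ S, ∀ σ, IsFrob v σ → (F f σ : PadicAlgCl ℓ) = c f σ) := by
  classical
  have hlim : ∀ (f : Poly N) (g : GK K), ∃ t : Zbar ℓ, f ∈ Fs → ∀ m, red ℓ m t =
      val f (ρ m g : Matrix (Fin N) (Fin N) (ZQ ℓ m)) := by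
    intro f g
    by_cases hf : f ∈ Fs
    · obtain ⟨t, ht⟩ := H.limit hf g
      exact ⟨t, fun _ => ht⟩
    · exact ⟨0, fun h => absurd h hf⟩
  choose F hF using hlim
  have hT : ∀ m g, red ℓ m (F (trP N) g) = (ρ m g : Matrix (Fin N) (Fin N) (ZQ ℓ m)).trace := by
    intro m g
    rw [hF _ g htr m, val_trP]
  obtain ⟨r, hr, hrT⟩ := exists_limit_rep (F (trP N)) ρ hT
  have hTc : Continuous fun g => (F (trP N) g : PadicAlgCl ℓ) := by
    rw [continuous_iff_continuousAt]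
    intro x
    rw [ContinuousAt, Metric.tendsto_nhds]
    intro ε hε
    obtain ⟨m, hm⟩ := exists_pow_lt_of_lt_one hε (inv_lt_one (ℓ := ℓ))
    have hopen : IsOpen {y | ρ m y = ρ m x} := by
      have : {y | ρ m y = ρ m x} = (fun y => x⁻¹ * y) ⁻¹' ((ρ m).ker : Set (GK K)) := by
        ext y
        simp only [Set.mem_setOf_eq, Set.mem_preimage, SetLike.mem_coe, MonoidHom.mem_ker, map_mul, map_inv]
        rw [inv_mul_eq_one, eq_comm]
      rw [this]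
      exact (H.opn m).preimage (continuous_mul_left x⁻¹)
    filter_upwards [hopen.mem_nhds (show ρ m x = ρ m x from rfl)] with y hy
    rw [dist_eq_norm]
    refine lt_of_le_of_lt ((red_eq m (F (trP N) y) (F (trP N) x)).1 ?_) hm
    rw [hT, hT]
    have hy' : ρ m y = ρ m x := hy
    rw [hy']
  have hrc : Continuous r := continuous_of_trace hr (by simp only [hrT]; exact hTc)
  have hfac : ((N.factorial : ℕ) : PadicAlgCl ℓ) ≠ 0 := by exact_mod_cast N.factorial_ne_zero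
  refine ⟨r, F, hrc, hr, fun v hv τ hτ => ?_, hrT, fun f hf m g => hF f g hf m, fun f hf v hv σ hσ => ?_⟩
  · obtain ⟨d, g, _, hg⟩ := exists_basis hr hfac
    have h1 := hg τ 1 (fun i => by
      rw [hrT, hrT, mul_one]
      congr 1
      refine eq_of_red fun m => ?_
      rw [hT, hT, ← val_trP, ← val_trP, H.inert htr hv hτ])
    rw [h1, map_one]
  · obtain ⟨h, _⟩ := H.frob hf hv hσ 0
    have e : F f σ = ⟨c f σ, h⟩ := by
      refine eq_of_red fun m => ?_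
      obtain ⟨_, e2⟩ := H.frob hf hv hσ m
      rw [hF f σ hf m, e2]
    rw [e]

end Pool.Agent.H498.LG
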