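import Pool.Agent.H498.BG.Cauchy

/-! Polynomial functions of representations have finite rank; congruences at most places. -/

set_option autoImplicit false
set_option linter.all false

namespace Pool.Agent.H498.LG

open Topology Filter NumberField IsDedekindDomain
open Pool.Agent.W401.Cheb
open Pool.Agent.W528.Ord (dens_mono dens_nonneg dens_or)
open Pool.Agent.H498.BG (cover ZQ red trans Zbar trans_red upperDensity nontriv eventually_lt norm_ell inv_lt_one inv_nonneg eq_of_red red_eq)

/-- polynomials in the entries of a matrix -/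
abbrev Poly (N : ℕ) : Type := MvPolynomial (Fin N × Fin N) ℤ

/-- the value of a polynomial at a matrix -/
noncomputable def val {N : ℕ} {R : Type*} [CommRing R] (f : Poly N) (A : Matrix (Fin N) (Fin N) R) : R :=
  MvPolynomial.aeval (fun p : Fin N × Fin N => A p.1 p.2) f

theorem val_map {N : ℕ} {R R' : Type*} [CommRing R] [CommRing R'] (φ : R →+* R') (f : Poly N)
    (A : Matrix (Fin N) (Fin N) R) : φ (val f A) = val f (A.map φ) := by
  unfold val
  rw [MvPolynomial.aeval_def, MvPolynomial.aeval_def, MvPolynomial.hom_eval₂]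
  congr 1
  exact RingHom.ext_int _ _

/-- the monomial of a multiset of entries -/
noncomputable def mono {σ : Type*} {R : Type*} [CommRing R] (k : ℕ) (a : σ → R) (s : Sym (Option σ) k) : R :=
  ((s : Multiset (Option σ)).map fun o => Option.elim o 1 a).prod

theorem exists_sym {σ : Type*} (k : ℕ) (α : σ →₀ ℕ) (h : α.sum (fun _ e => e) ≤ k) :
    ∃ s : Sym (Option σ) k, ∀ (R : Type _) [CommRing R] (a : σ → R),
      mono k a s = α.prod fun i e => a i ^ e := by
  classical
  have hcard : Multiset.card (Finsupp.toMultiset α) = α.sum fun _ e => e := Finsupp.card_toMultiset α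
  refine ⟨⟨(Finsupp.toMultiset α).map some + Multiset.replicate (k - Multiset.card (Finsupp.toMultiset α)) none, ?_⟩, ?_⟩
  · rw [Multiset.card_add, Multiset.card_map, Multiset.card_replicate, hcard]
    omega
  · intro R _ a
    show (((Finsupp.toMultiset α).map some + Multiset.replicate (k - Multiset.card (Finsupp.toMultiset α)) none).map
      fun o => Option.elim o 1 a).prod = _
    rw [Multiset.map_add, Multiset.prod_add, Multiset.map_replicate, Multiset.prod_replicate, Multiset.map_map]
    simp only [Function.comp_def, Option.elim_some, Option.elim_none, one_pow, mul_one]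
    rw [Finsupp.toMultiset_map, Finsupp.prod_toMultiset,
      Finsupp.prod_mapDomain_index (fun _ => pow_zero _) (fun _ _ _ => pow_add _ _ _)]

/-- substitution of a product -/
noncomputable def subst {N : ℕ} {R : Type*} [CommRing R] (f : Poly N) (B : Matrix (Fin N) (Fin N) R) :
    MvPolynomial (Fin N × Fin N) R :=
  MvPolynomial.aeval (fun p : Fin N × Fin N => ∑ c, MvPolynomial.C (B c p.2) * MvPolynomial.X (p.1, c)) f

theorem eval_subst {N : ℕ} {R : Type*} [CommRing R] (f : Poly N) (A B : Matrix (Fin N) (Fin N) R) :
    MvPolynomial.eval (fun p : Fin N × Fin N => A p.1 p.2) (subst f B) = val f (A * B) := by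
  unfold subst val
  rw [MvPolynomial.aeval_def, MvPolynomial.aeval_def, MvPolynomial.hom_eval₂]
  have e : (MvPolynomial.eval (fun p : Fin N × Fin N => A p.1 p.2)).comp
      (algebraMap ℤ (MvPolynomial (Fin N × Fin N) R)) = algebraMap ℤ R := RingHom.ext_int _ _
  rw [e]
  congr 1
  funext p
  rw [map_sum, Matrix.mul_apply]
  exact Finset.sum_congr rfl fun c _ => by rw [map_mul, MvPolynomial.eval_C, MvPolynomial.eval_X, mul_comm]

theorem degree_subst {N : ℕ} {R : Type*} [CommRing R] (f : Poly N) (B : Matrix (Fin N) (Fin N) R) :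
    (subst f B).totalDegree ≤ f.totalDegree := by
  unfold subst
  rw [MvPolynomial.aeval_def, MvPolynomial.eval₂_eq]
  refine (MvPolynomial.totalDegree_finset_sum _ _).trans (Finset.sup_le fun d hd => ?_)
  refine (MvPolynomial.totalDegree_mul _ _).trans ?_
  have h1 : ((algebraMap ℤ (MvPolynomial (Fin N × Fin N) R)) (MvPolynomial.coeff d f)).totalDegree = 0 := by
    rw [show (algebraMap ℤ (MvPolynomial (Fin N × Fin N) R)) (MvPolynomial.coeff d f) =
      MvPolynomial.C ((MvPolynomial.coeff d f : ℤ) : R) by simp]
    exact MvPolynomial.totalDegree_C _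
  rw [h1, zero_add]
  refine (MvPolynomial.totalDegree_finset_prod _ _).trans ?_
  refine le_trans (Finset.sum_le_sum fun p _ => ?_) (MvPolynomial.le_totalDegree hd)
  refine (MvPolynomial.totalDegree_pow _ _).trans ?_
  refine mul_le_of_le_one_right (Nat.zero_le _) ?_
  refine (MvPolynomial.totalDegree_finset_sum _ _).trans (Finset.sup_le fun c _ => ?_)
  refine (MvPolynomial.totalDegree_mul _ _).trans ?_
  rw [MvPolynomial.totalDegree_C, zero_add]
  refine (MvPolynomial.totalDegree_monomial_le _ _).trans ?_
  simp

/-- **Polynomial functions of degree at most `k` have finite rank.** -/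
theorem exists_rank {N : ℕ} {R : Type*} [CommRing R] (k : ℕ) (f : Poly N) (hf : f.totalDegree ≤ k) :
    ∃ w : Matrix (Fin N) (Fin N) R → Sym (Option (Fin N × Fin N)) k → R, ∀ A B : Matrix (Fin N) (Fin N) R,
      val f (A * B) = ∑ s, mono k (fun p : Fin N × Fin N => A p.1 p.2) s * w B s := by
  classical
  have h1 : ∀ B : Matrix (Fin N) (Fin N) R, ∀ α ∈ (subst f B).support, ∃ s : Sym (Option (Fin N × Fin N)) k,
      ∀ (a : Fin N × Fin N → R), mono k a s = α.prod fun i e => a i ^ e := by
    intro B α hα
    obtain ⟨s, hs⟩ := exists_sym k α ((MvPolynomial.le_totalDegree hα).trans ((degree_subst f B).trans hf))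
    exact ⟨s, fun a => hs R a⟩
  choose! σ hσ using h1
  refine ⟨fun B s => ∑ α ∈ (subst f B).support with σ B α = s, MvPolynomial.coeff α (subst f B), fun A B => ?_⟩
  rw [← eval_subst, MvPolynomial.eval_eq']
  simp only [Finset.mul_sum]
  rw [← Finset.sum_fiberwise_of_maps_to (s := (subst f B).support) (t := Finset.univ) (g := σ B)
    (fun _ _ => Finset.mem_univ _)]
  refine Finset.sum_congr rfl fun s _ => Finset.sum_congr rfl fun α hα => ?_
  rw [Finset.mem_filter] at hα
  rw [← hα.2, hσ B α hα.1, Finsupp.prod_fintype _ _ (fun i => pow_zero _), mul_comm]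

end Pool.Agent.H498.LG
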