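import Pool.Agent.H498.LG.SSgen
import Pool.Agent.H498.LG.Rank

/-! Zero sets of polynomials contain the real powers of their positive elements. -/

set_option autoImplicit false
set_option linter.all false

namespace Pool.Agent.H498.LG

open Matrix Topology Filter
open scoped ComplexOrder
open Pool.Agent.X320.DS (Stable Semisimple)

variable {N : ℕ}

/-- the character `s ↦ exp (θ s)` -/
noncomputable def expHom : Multiplicative ℝ →* (ℝ → ℂ) where
  toFun θ s := Complex.exp (((Multiplicative.toAdd θ * s : ℝ)) : ℂ)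
  map_one' := by
    funext s
    simp
  map_mul' θ θ' := by
    funext s
    rw [toAdd_mul, add_mul]
    push_cast
    rw [Complex.exp_add]
    rfl

/-- exponential polynomials -/
noncomputable def ep : AddMonoidAlgebra ℂ ℝ →ₐ[ℂ] (ℝ → ℂ) := AddMonoidAlgebra.lift ℂ (ℝ → ℂ) ℝ expHom

theorem ep_eq_zero (x : AddMonoidAlgebra ℂ ℝ) (h : ∀ n : ℕ, ep x n = 0) : ep x = 0 := by
  let χ : ℝ → (Multiplicative ℕ →* ℂ) := fun θ => powersHom ℂ (Complex.exp (θ : ℂ))
  have hχ : Function.Injective χ := by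
    intro θ θ' e
    have e1 : χ θ (Multiplicative.ofAdd 1) = χ θ' (Multiplicative.ofAdd 1) := by rw [e]
    have e2 : Complex.exp (θ : ℂ) = Complex.exp (θ' : ℂ) := by simpa [χ] using e1
    rw [← Complex.ofReal_exp, ← Complex.ofReal_exp] at e2
    exact Real.exp_injective (Complex.ofReal_inj.1 e2)
  have hli : LinearIndependent ℂ fun θ : ℝ => (χ θ : Multiplicative ℕ → ℂ) :=
    (linearIndependent_monoidHom (Multiplicative ℕ) ℂ).comp χ hχ
  have h0 : x.coeff = 0 := by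
    refine linearIndependent_iff.1 hli x.coeff ?_
    funext n
    rw [Finsupp.linearCombination_apply, Finsupp.sum, Finset.sum_apply]
    have h1 := h (Multiplicative.toAdd n)
    rw [ep, AddMonoidAlgebra.lift_apply, Finsupp.sum, Finset.sum_apply] at h1
    refine Eq.trans ?_ h1
    refine Finset.sum_congr rfl fun θ _ => ?_
    show x.coeff θ * (Complex.exp (θ : ℂ)) ^ (Multiplicative.toAdd n) = x.coeff θ * Complex.exp _
    rw [← Complex.exp_nat_mul]
    congr 2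
    rw [toAdd_ofAdd]
    push_cast
    ring
  rw [ep, AddMonoidAlgebra.lift_apply, h0, Finsupp.sum_zero_index]

/-- the function `s ↦ val P (M s)` -/
theorem val_fun (P : Poly N) (M : Matrix (Fin N) (Fin N) (ℝ → ℂ)) (s : ℝ) :
    val P M s = val P (M.map fun f => f s) :=
  val_map (Pi.evalRingHom (fun _ : ℝ => ℂ) s) P M

theorem val_mem (P : Poly N) (M : Matrix (Fin N) (Fin N) (ℝ → ℂ)) (h : ∀ i j, M i j ∈ ep.range) :
    val P M ∈ ep.range := by
  let M' : Matrix (Fin N) (Fin N) ep.range := Matrix.of fun i j => ⟨M i j, h i j⟩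
  have e : M'.map (ep.range.val : ep.range →+* (ℝ → ℂ)) = M := by
    ext i j
    rfl
  rw [← e, ← val_map]
  exact (val P M').2

/-- **Real powers.** -/
theorem pow_lemma (P : Poly N) (B C W : Mat N) (a : Fin N → ℝ)
    (h : ∀ n : ℕ, val P (B * sp W (fun i => Real.exp (n * a i)) * C) = 0) (s : ℝ) :
    val P (B * sp W (fun i => Real.exp (s * a i)) * C) = 0 := by
  let M : Matrix (Fin N) (Fin N) (ℝ → ℂ) := Matrix.of fun i j s => (B * sp W (fun i => Real.exp (s * a i)) * C) i j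
  have hM : ∀ s, M.map (fun f => f s) = B * sp W (fun i => Real.exp (s * a i)) * C := by
    intro s
    ext i j
    rfl
  have hmem : ∀ i j, M i j ∈ ep.range := by
    intro i j
    have e : M i j = ∑ c, ∑ b, ∑ d, (B i b * W b d * star (W c d) * C c j) • ep (AddMonoidAlgebra.single (a d) 1) := by
      funext s
      show (B * sp W (fun i => Real.exp (s * a i)) * C) i j = _
      rw [Matrix.mul_apply, Finset.sum_apply]
      refine Finset.sum_congr rfl fun c _ => ?_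
      rw [Matrix.mul_apply, Finset.sum_mul, Finset.sum_apply]
      refine Finset.sum_congr rfl fun b _ => ?_
      rw [sp_apply, Finset.mul_sum, Finset.sum_mul, Finset.sum_apply]
      refine Finset.sum_congr rfl fun d _ => ?_
      rw [ep, AddMonoidAlgebra.lift_single, one_smul, Pi.smul_apply]
      show _ = _ * Complex.exp _
      rw [toAdd_ofAdd, Complex.ofReal_exp, mul_comm s]
      push_cast
      ring
    rw [e]
    exact Subalgebra.sum_mem _ fun c _ => Subalgebra.sum_mem _ fun b _ => Subalgebra.sum_mem _ fun d _ =>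
      Subalgebra.smul_mem _ ((AlgHom.mem_range _).2 ⟨_, rfl⟩) _
  obtain ⟨x, hx⟩ := val_mem P M hmem
  have h0 := ep_eq_zero x (fun n => by
    have h1 : (ep x : ℝ → ℂ) = val P M := hx
    rw [h1, val_fun, hM]
    exact h n)
  have h1 : (ep x : ℝ → ℂ) = val P M := hx
  rw [← hM, ← val_fun, ← h1, h0]
  rfl

theorem continuous_val (P : Poly N) : Continuous fun A : Mat N => val P A := by
  unfold val
  have h : Continuous fun A : Mat N => MvPolynomial.aeval (fun p : Fin N × Fin N => A p.1 p.2) P := by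
    simp only [MvPolynomial.aeval_def, MvPolynomial.eval₂_eq]
    refine continuous_finsetSum _ fun d _ => continuous_const.mul (continuous_finsetProd _ fun p _ => ?_)
    exact (continuous_id.matrix_elem p.1 p.2).pow _
  exact h

/-- semisimplicity is invariant under conjugation -/
theorem semisimple_conj {G : Type*} [Group G] {k : Type*} [Field k] {ρ ρ' : G →* GL (Fin N) k} (hρ : Semisimple ρ)
    (p : GL (Fin N) k) (h : ∀ g, ρ' g = p * ρ g * p⁻¹) : Semisimple ρ' := by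
  have hp : ∀ (w : Fin N → k), ((p⁻¹ : GL (Fin N) k) : Matrix (Fin N) (Fin N) k) *ᵥ ((p : Matrix (Fin N) (Fin N) k) *ᵥ w) = w := by
    intro w
    rw [Matrix.mulVec_mulVec, ← Units.val_mul, inv_mul_cancel, Units.val_one, Matrix.one_mulVec]
  have hp' : ∀ (w : Fin N → k), (p : Matrix (Fin N) (Fin N) k) *ᵥ (((p⁻¹ : GL (Fin N) k) : Matrix (Fin N) (Fin N) k) *ᵥ w) = w := by
    intro w
    rw [Matrix.mulVec_mulVec, ← Units.val_mul, mul_inv_cancel, Units.val_one, Matrix.one_mulVec]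
  let e : (Fin N → k) ≃ₗ[k] (Fin N → k) :=
    { toFun := fun w => (p : Matrix (Fin N) (Fin N) k) *ᵥ w
      invFun := fun w => ((p⁻¹ : GL (Fin N) k) : Matrix (Fin N) (Fin N) k) *ᵥ w
      map_add' := fun w w' => Matrix.mulVec_add _ w w'
      map_smul' := fun c w => Matrix.mulVec_smul _ c w
      left_inv := hp
      right_inv := hp' }
  intro W hW
  have hst : Stable ρ (W.map (e.symm : (Fin N → k) →ₗ[k] (Fin N → k))) := by
    rintro g _ ⟨w, hw, rfl⟩
    refine ⟨(ρ' g : Matrix (Fin N) (Fin N) k) *ᵥ w, hW g w hw, ?_⟩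
    show ((p⁻¹ : GL (Fin N) k) : Matrix (Fin N) (Fin N) k) *ᵥ ((ρ' g : Matrix (Fin N) (Fin N) k) *ᵥ w) =
      (ρ g : Matrix (Fin N) (Fin N) k) *ᵥ (((p⁻¹ : GL (Fin N) k) : Matrix (Fin N) (Fin N) k) *ᵥ w)
    rw [Matrix.mulVec_mulVec, Matrix.mulVec_mulVec, ← Units.val_mul, ← Units.val_mul, h,
      show p⁻¹ * (p * ρ g * p⁻¹) = ρ g * p⁻¹ by group]
  obtain ⟨W₁, hW₁, hc⟩ := hρ _ hst
  refine ⟨W₁.map (e : (Fin N → k) →ₗ[k] (Fin N → k)), ?_, ?_⟩
  · rintro g _ ⟨w, hw, rfl⟩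
    refine ⟨(ρ g : Matrix (Fin N) (Fin N) k) *ᵥ w, hW₁ g w hw, ?_⟩
    show (p : Matrix (Fin N) (Fin N) k) *ᵥ ((ρ g : Matrix (Fin N) (Fin N) k) *ᵥ w) =
      (ρ' g : Matrix (Fin N) (Fin N) k) *ᵥ ((p : Matrix (Fin N) (Fin N) k) *ᵥ w)
    rw [Matrix.mulVec_mulVec, Matrix.mulVec_mulVec, ← Units.val_mul, ← Units.val_mul, h,
      show p * ρ g * p⁻¹ * p = p * ρ g by group]
  · have h1 := (Submodule.orderIsoMapComap e).isCompl hc
    have h2 : (Submodule.orderIsoMapComap e) (W.map (e.symm : (Fin N → k) →ₗ[k] (Fin N → k))) = W := by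
      show (W.map (e.symm : (Fin N → k) →ₗ[k] (Fin N → k))).map (e : (Fin N → k) →ₗ[k] (Fin N → k)) = W
      rw [← Submodule.map_comp]
      rw [LinearEquiv.comp_symm, Submodule.map_id]
    rw [h2] at h1
    exact h1

/-- the zero set of a set of polynomials -/
def zs {R : Type*} [CommRing R] (C : Set (Poly N)) : Set (GL (Fin N) R) :=
  {A | ∀ P ∈ C, val P (A : Matrix (Fin N) (Fin N) R) = 0}

theorem conj_val (h₀ z : GL (Fin N) ℂ) : ((h₀ * z * h₀⁻¹ : GL (Fin N) ℂ) : Mat N) =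
    (h₀ : Mat N) * (z : Mat N) * ((h₀⁻¹ : GL (Fin N) ℂ) : Mat N) := by
  rw [Units.val_mul, Units.val_mul]

/-- **Semisimplification inside a reductive group.** -/
theorem exists_ss' {G : Type} [Group G] (T : Finset G) (hT : Subgroup.closure (T : Set G) = ⊤)
    (x : G →* GL (Fin N) ℂ) (C : G → Set (Poly N)) (hx : ∀ g, x g ∈ zs (C g))
    (hmul : ∀ g h, ∀ a ∈ (zs (C g) : Set (GL (Fin N) ℂ)), ∀ b ∈ (zs (C h) : Set (GL (Fin N) ℂ)), a * b ∈ zs (C (g * h)))
    (hinv : ∀ g, ∀ a ∈ (zs (C g) : Set (GL (Fin N) ℂ)), a⁻¹ ∈ zs (C g⁻¹))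
    (hone : (1 : GL (Fin N) ℂ) ∈ zs (C 1)) (h₀ : GL (Fin N) ℂ)
    (hstar : ∀ g, ∀ a b : GL (Fin N) ℂ, (b : Mat N) = (a : Mat N)ᴴ → h₀ * a * h₀⁻¹ ∈ zs (C g) →
      h₀ * b * h₀⁻¹ ∈ zs (C g⁻¹)) :
    ∃ y : G →* GL (Fin N) ℂ, (∀ g, y g ∈ zs (C g)) ∧ Semisimple y ∧
      ∀ (f : Poly N), (∀ g, ∀ a ∈ (zs (C g) : Set (GL (Fin N) ℂ)), ∀ h ∈ (zs (C 1) : Set (GL (Fin N) ℂ)),
        val f ((h * a * h⁻¹ : GL (Fin N) ℂ) : Mat N) = val f (a : Mat N)) →
        ∀ g, val f (y g : Mat N) = val f (x g : Mat N) := by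
  let A : G → Set (GL (Fin N) ℂ) := fun g => {z | h₀ * z * h₀⁻¹ ∈ zs (C g)}
  let x' : G →* GL (Fin N) ℂ := (MulAut.conj h₀⁻¹).toMonoidHom.comp x
  have hx' : ∀ g, h₀ * x' g * h₀⁻¹ = x g := by
    intro g
    show h₀ * (h₀⁻¹ * x g * h₀⁻¹⁻¹) * h₀⁻¹ = x g
    group
  have hA : ∀ g, x' g ∈ A g := by
    intro g
    show h₀ * x' g * h₀⁻¹ ∈ zs (C g)
    rw [hx']
    exact hx g
  have hAmul : ∀ g h a b, a ∈ A g → b ∈ A h → a * b ∈ A (g * h) := by
    intro g h a b ha hb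
    show h₀ * (a * b) * h₀⁻¹ ∈ zs (C (g * h))
    have := hmul g h _ ha _ hb
    rwa [show h₀ * a * h₀⁻¹ * (h₀ * b * h₀⁻¹) = h₀ * (a * b) * h₀⁻¹ by group] at this
  have hAinv : ∀ g a, a ∈ A g → a⁻¹ ∈ A g⁻¹ := by
    intro g a ha
    show h₀ * a⁻¹ * h₀⁻¹ ∈ zs (C g⁻¹)
    have := hinv g _ ha
    rwa [show (h₀ * a * h₀⁻¹)⁻¹ = h₀ * a⁻¹ * h₀⁻¹ by group] at this
  have hAone : (1 : GL (Fin N) ℂ) ∈ A 1 := by
    show h₀ * 1 * h₀⁻¹ ∈ zs (C 1)
    rw [mul_one, mul_inv_cancel]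
    exact hone
  have hcl : ∀ (g : G) (u : ℕ → GL (Fin N) ℂ) (a : GL (Fin N) ℂ), (∀ n, u n ∈ A g) →
      Tendsto (fun n => (u n : Mat N)) atTop (𝓝 (a : Mat N)) → a ∈ A g := by
    intro g u a hu hlim P hP
    have h1 : Tendsto (fun n => val P ((h₀ * u n * h₀⁻¹ : GL (Fin N) ℂ) : Mat N)) atTop
        (𝓝 (val P ((h₀ * a * h₀⁻¹ : GL (Fin N) ℂ) : Mat N))) := by
      refine ((continuous_val P).tendsto _).comp ?_
      simp only [conj_val]
      exact tendsto_mul (tendsto_mul tendsto_const_nhds hlim) tendsto_const_nhds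
    have h2 : ∀ n, val P ((h₀ * u n * h₀⁻¹ : GL (Fin N) ℂ) : Mat N) = 0 := fun n => hu n P hP
    simp only [h2] at h1
    exact (tendsto_nhds_unique h1 tendsto_const_nhds)
  have hApow : ∀ k ∈ A 1, ∀ n : ℕ, k ^ n ∈ A 1 := by
    intro k hk n
    induction n with
    | zero => rw [pow_zero]; exact hAone
    | succ n ih =>
      rw [pow_succ]
      have := hAmul 1 1 _ _ ih hk
      rwa [mul_one] at this
  have hpow : ∀ (W : Mat N) (a : Fin N → ℝ), Wᴴ * W = 1 → W * Wᴴ = 1 →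
      (∃ k ∈ A 1, (k : Mat N) = sp W (fun i => Real.exp (a i))) →
        ∀ s : ℝ, ∃ k ∈ A 1, (k : Mat N) = sp W (fun i => Real.exp (s * a i)) := by
    rintro W a hW hW' ⟨k, hk, e⟩ s
    have hkn : ∀ n : ℕ, ((k ^ n : GL (Fin N) ℂ) : Mat N) = sp W (fun i => Real.exp (n * a i)) := by
      intro n
      induction n with
      | zero =>
        rw [pow_zero, Units.val_one, Nat.cast_zero, sp_exp_zero hW']
      | succ n ih =>
        rw [pow_succ, Units.val_mul, ih, e]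
        have := sp_exp_mul hW a n 1
        simp only [one_mul] at this
        rw [this]
        push_cast
        rfl
    let ks : GL (Fin N) ℂ :=
      { val := sp W (fun i => Real.exp (s * a i))
        inv := sp W (fun i => Real.exp (-s * a i))
        val_inv := by rw [sp_exp_mul hW, add_neg_cancel, sp_exp_zero hW']
        inv_val := by rw [sp_exp_mul hW, neg_add_cancel, sp_exp_zero hW'] }
    refine ⟨ks, fun P hP => ?_, rfl⟩
    rw [conj_val]
    refine pow_lemma P (h₀ : Mat N) ((h₀⁻¹ : GL (Fin N) ℂ) : Mat N) W a (fun n => ?_) s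
    rw [← hkn, ← conj_val]
    exact hApow k hk n P hP
  obtain ⟨y', h', hh', hy', hss, hlim⟩ := exists_ss T hT x' A hA hAmul hAinv hAone hcl (fun g a ha => by
    have hu : IsUnit ((a : Mat N)ᴴ) := ⟨⟨(a : Mat N)ᴴ, ((a⁻¹ : GL (Fin N) ℂ) : Mat N)ᴴ, gl_star_mul_inv a, gl_star_inv_mul a⟩, rfl⟩
    exact ⟨hu.unit, hstar g a hu.unit rfl ha, rfl⟩) hpow
  let y : G →* GL (Fin N) ℂ := (MulAut.conj h₀).toMonoidHom.comp y'
  refine ⟨y, fun g => hy' g, semisimple_conj hss h₀ (fun g => rfl), fun f hf g => ?_⟩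
  have h1 : Tendsto (fun n => val f ((h₀ * (h' n * x' g * (h' n)⁻¹) * h₀⁻¹ : GL (Fin N) ℂ) : Mat N)) atTop
      (𝓝 (val f (y g : Mat N))) := by
    refine ((continuous_val f).tendsto _).comp ?_
    show Tendsto _ atTop (𝓝 ((h₀ * y' g * h₀⁻¹ : GL (Fin N) ℂ) : Mat N))
    simp only [conj_val]
    refine tendsto_mul (tendsto_mul tendsto_const_nhds ?_) tendsto_const_nhds
    simp only [← conj_val]
    exact hlim g
  have h2 : ∀ n, val f ((h₀ * (h' n * x' g * (h' n)⁻¹) * h₀⁻¹ : GL (Fin N) ℂ) : Mat N) = val f (x g : Mat N) := by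
    intro n
    have h3 := hf g (x g) (hx g) (h₀ * h' n * h₀⁻¹) (hh' n)
    rw [← h3]
    congr 2
    rw [← hx' g]
    group
  simp only [h2] at h1
  exact (tendsto_nhds_unique h1 tendsto_const_nhds)

end Pool.Agent.H498.LG
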