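import Pool.Agent.H498.LG.Point
import Pool.Agent.H498.LG.Zar
import Pool.Agent.H498.LG.BN
import Pool.Agent.H498.LG.Desc

/-! The limit of a system of parameters modulo the powers of `ℓ`. -/

set_option autoImplicit false
set_option linter.all false

namespace Pool.Agent.H498.LG

open Topology Filter NumberField IsDedekindDomain
open Pool.Agent.W401.Cheb
open Pool.Agent.X320.DS (Stable Semisimple toEnd toEnd_apply)
open Pool.Agent.H498.BG (ZQ red Zbar)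

variable {ℓ : ℕ} [hℓ : Fact ℓ.Prime] {N : ℕ}

theorem countable_closure {G : Type*} [Group G] (s : Finset G) : Countable (Subgroup.closure (s : Set G)) := by
  rw [FreeGroup.closure_eq_range]
  exact Function.Surjective.countable (FreeGroup.lift (fun x : ↥(s : Set G) => (x : G))).rangeRestrict_surjective

/-- polynomials which are invariant under conjugation by the identity coset -/
def Invt {Γ : Type*} [Group Γ] (C : Γ → Set (Poly N)) (f : Poly N) : Prop :=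
  ∀ g, ∀ a ∈ (zs (C g) : Set (GL (Fin N) ℂ)), ∀ h ∈ (zs (C 1) : Set (GL (Fin N) ℂ)),
    val f ((h * a * h⁻¹ : GL (Fin N) ℂ) : Mat N) = val f (a : Mat N)

/-- a family of cosets of a reductive group -/
structure Datum {Γ : Type*} [Group Γ] (C : Γ → Set (Poly N)) : Prop where
  mul : ∀ g h, ∀ a ∈ (zs (C g) : Set (GL (Fin N) ℂ)), ∀ b ∈ (zs (C h) : Set (GL (Fin N) ℂ)), a * b ∈ zs (C (g * h))
  inv : ∀ g, ∀ a ∈ (zs (C g) : Set (GL (Fin N) ℂ)), a⁻¹ ∈ zs (C g⁻¹)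
  one : (1 : GL (Fin N) ℂ) ∈ zs (C 1)
  red : ∃ h₀ : GL (Fin N) ℂ, ∀ g, ∀ a b : GL (Fin N) ℂ, (b : Mat N) = (a : Mat N).conjTranspose →
    h₀ * a * h₀⁻¹ ∈ zs (C g) → h₀ * b * h₀⁻¹ ∈ zs (C g⁻¹)

/-- the finite case -/
theorem finite_case {Γ : Type} [Group Γ] (C : Γ → Set (Poly N)) (hC : Datum C)
    (ρ : (m : ℕ) → Γ →* GL (Fin N) (ZQ ℓ m)) (hρ : ∀ m g, ρ m g ∈ zs (C g)) (Fs : Set (Poly N))
    (hinv : ∀ f ∈ Fs, Invt C f) (htr : trP N ∈ Fs) (F : Poly N → Γ → Zbar ℓ)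
    (hF : ∀ f ∈ Fs, ∀ m g, red ℓ m (F f g) = val f (ρ m g : Matrix (Fin N) (Fin N) (ZQ ℓ m)))
    (r : Γ →* GL (Fin N) (PadicAlgCl ℓ)) (hr : Semisimple r)
    (hrT : ∀ g, (r g : Matrix (Fin N) (Fin N) (PadicAlgCl ℓ)).trace = F (trP N) g)
    (T : Finset Γ) (hT : ∀ g, toEnd r g ∈ Submodule.span (PadicAlgCl ℓ) (toEnd r '' (T : Set Γ))) :
    ∃ p : GL (Fin N) (PadicAlgCl ℓ), ∀ g ∈ T,
      (∀ P ∈ C g, val P ((p : Matrix (Fin N) (Fin N) (PadicAlgCl ℓ)) * (r g : Matrix (Fin N) (Fin N) (PadicAlgCl ℓ)) *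
        ((p⁻¹ : GL (Fin N) (PadicAlgCl ℓ)) : Matrix (Fin N) (Fin N) (PadicAlgCl ℓ))) = 0) ∧
      ∀ f ∈ Fs, val f ((p : Matrix (Fin N) (Fin N) (PadicAlgCl ℓ)) * (r g : Matrix (Fin N) (Fin N) (PadicAlgCl ℓ)) *
        ((p⁻¹ : GL (Fin N) (PadicAlgCl ℓ)) : Matrix (Fin N) (Fin N) (PadicAlgCl ℓ))) = F f g := by
  classical
  let G := Subgroup.closure (T : Set Γ)
  haveI : Countable G := countable_closure T
  obtain ⟨j, x, hx⟩ := exists_point (fun m => (ρ m).comp G.subtype)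
  have hxC : ∀ g : G, x g ∈ zs (C (g : Γ)) := by
    intro g P hP
    have := hx P g 0 (fun m => by
      rw [map_zero]
      exact (hρ m (g : Γ) P hP).symm)
    rw [this]
    show j ((0 : Zbar ℓ) : PadicAlgCl ℓ) = 0
    exact map_zero j
  obtain ⟨h₀, hstar⟩ := hC.red
  let T' : Finset G := T.attach.image fun t => ⟨t.1, Subgroup.subset_closure t.2⟩
  have hT' : (T' : Set G) = ((↑) : G → Γ) ⁻¹' (T : Set Γ) := by
    ext g
    simp only [T', Finset.coe_image, Set.mem_image, Finset.mem_coe, Finset.mem_attach, true_and, Set.mem_preimage]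
    constructor
    · rintro ⟨t, rfl⟩
      exact t.2
    · intro h
      exact ⟨⟨g, h⟩, rfl⟩
  obtain ⟨y, hyC, hyss, hyf⟩ := exists_ss' T' (by rw [hT']; exact Subgroup.closure_closure_coe_preimage) x
    (fun g : G => C (g : Γ)) hxC (fun g h => hC.mul g h) (fun g => hC.inv g) hC.one h₀ (fun g => hstar g)
  have hyF : ∀ f ∈ Fs, ∀ g : G, val f (y g : Mat N) = j (F f g) := by
    intro f hf g
    rw [hyf f (fun g a ha h hh => hinv f hf g a ha h hh) g]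
    exact hx f g (F f g) (fun m => hF f hf m g)
  have hrG : Semisimple (r.comp G.subtype) := by
    intro W hW
    have hWr : Stable r W := by
      intro g w hw
      rw [← toEnd_apply]
      have h1 : ∀ a ∈ Submodule.span (PadicAlgCl ℓ) (toEnd r '' (T : Set Γ)), a w ∈ W := by
        intro a ha
        refine Submodule.span_induction (p := fun a _ => a w ∈ W) ?_ ?_ ?_ ?_ ha
        · rintro _ ⟨t, ht, rfl⟩
          rw [toEnd_apply]
          exact hW ⟨t, Subgroup.subset_closure ht⟩ w hw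
        · exact W.zero_mem
        · intro a b _ _ ha hb
          exact W.add_mem ha hb
        · intro c a _ ha
          exact W.smul_mem c ha
      exact h1 _ (hT g)
    obtain ⟨W', hW', hc⟩ := hr W hWr
    exact ⟨W', fun g w hw => hW' (g : Γ) w hw, hc⟩
  obtain ⟨p, hp⟩ := bn j (r.comp G.subtype) hrG y hyss (fun g => by
    have h1 := hyF (trP N) htr g
    rw [val_trP] at h1
    rw [h1]
    exact congrArg j (hrT (g : Γ)).symm)
  have hconj : ∀ g : G, (p : Mat N) * (r g : Matrix (Fin N) (Fin N) (PadicAlgCl ℓ)).map j *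
      ((p⁻¹ : GL (Fin N) ℂ) : Mat N) = (y g : Mat N) := by
    intro g
    have h1 : (y g : Mat N) * (p : Mat N) = (p : Mat N) * (r g : Matrix (Fin N) (Fin N) (PadicAlgCl ℓ)).map j := hp g
    rw [← h1, Matrix.mul_assoc, ← Units.val_mul, mul_inv_cancel, Units.val_one, Matrix.mul_one]
  obtain ⟨q, hq⟩ := transfer j p
  refine ⟨q, fun g hg => ⟨fun P hP => ?_, fun f hf => ?_⟩⟩
  · refine hq _ P 0 ?_
    have h1 := hconj ⟨g, Subgroup.subset_closure hg⟩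
    rw [map_zero]
    show val P ((p : Mat N) * (r g : Matrix (Fin N) (Fin N) (PadicAlgCl ℓ)).map j * ((p⁻¹ : GL (Fin N) ℂ) : Mat N)) = 0
    have h2 : (p : Mat N) * (r g : Matrix (Fin N) (Fin N) (PadicAlgCl ℓ)).map j *
      ((p⁻¹ : GL (Fin N) ℂ) : Mat N) = (y ⟨g, Subgroup.subset_closure hg⟩ : Mat N) := h1
    rw [h2]
    exact hyC ⟨g, Subgroup.subset_closure hg⟩ P hP
  · refine hq _ f (F f g) ?_
    have h2 : (p : Mat N) * (r g : Matrix (Fin N) (Fin N) (PadicAlgCl ℓ)).map j *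
      ((p⁻¹ : GL (Fin N) ℂ) : Mat N) = (y ⟨g, Subgroup.subset_closure hg⟩ : Mat N) :=
        hconj ⟨g, Subgroup.subset_closure hg⟩
    show val f ((p : Mat N) * (r g : Matrix (Fin N) (Fin N) (PadicAlgCl ℓ)).map j * ((p⁻¹ : GL (Fin N) ℂ) : Mat N)) = _
    rw [h2]
    exact hyF f hf ⟨g, Subgroup.subset_closure hg⟩

/-- **Descent to the group.** -/
theorem descent {Γ : Type} [Group Γ] (C : Γ → Set (Poly N)) (hC : Datum C)
    (ρ : (m : ℕ) → Γ →* GL (Fin N) (ZQ ℓ m)) (hρ : ∀ m g, ρ m g ∈ zs (C g)) (Fs : Set (Poly N))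
    (hinv : ∀ f ∈ Fs, Invt C f) (htr : trP N ∈ Fs) (F : Poly N → Γ → Zbar ℓ)
    (hF : ∀ f ∈ Fs, ∀ m g, red ℓ m (F f g) = val f (ρ m g : Matrix (Fin N) (Fin N) (ZQ ℓ m)))
    (r : Γ →* GL (Fin N) (PadicAlgCl ℓ)) (hr : Semisimple r)
    (hrT : ∀ g, (r g : Matrix (Fin N) (Fin N) (PadicAlgCl ℓ)).trace = F (trP N) g) :
    ∃ p : GL (Fin N) (PadicAlgCl ℓ), ∀ g, p * r g * p⁻¹ ∈ zs (C g) ∧
      ∀ f ∈ Fs, val f ((p * r g * p⁻¹ : GL (Fin N) (PadicAlgCl ℓ)) : Matrix (Fin N) (Fin N) (PadicAlgCl ℓ)) = F f g := by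
  classical
  obtain ⟨b, hb1, hb2, hb3⟩ := Submodule.exists_fun_fin_finrank_span_eq (PadicAlgCl ℓ) (Set.range (toEnd r))
  choose t ht using hb1
  let R : Γ → Set (Poly N × PadicAlgCl ℓ) := fun g => {Q | (Q.1 ∈ C g ∧ Q.2 = 0) ∨ (Q.1 ∈ Fs ∧ Q.2 = F Q.1 g)}
  obtain ⟨p, hp⟩ := compactness (fun g => (r g : Matrix (Fin N) (Fin N) (PadicAlgCl ℓ))) R (fun Γ₀ => by
    obtain ⟨p, hp⟩ := finite_case C hC ρ hρ Fs hinv htr F hF r hr hrT (Γ₀ ∪ Finset.univ.image t) (fun g => by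
      have h1 : toEnd r g ∈ Submodule.span (PadicAlgCl ℓ) (Set.range b) := by
        rw [hb2]
        exact Submodule.subset_span ⟨g, rfl⟩
      refine Submodule.span_mono ?_ h1
      rintro _ ⟨i, rfl⟩
      refine ⟨t i, ?_, ht i⟩
      exact Finset.mem_coe.2 (Finset.mem_union_right _ (Finset.mem_image_of_mem _ (Finset.mem_univ _))))
    refine ⟨p, fun g hg Q hQ => ?_⟩
    have h1 := hp g (Finset.mem_union_left _ hg)
    rcases hQ with ⟨h2, h3⟩ | ⟨h2, h3⟩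
    · rw [h3]
      exact h1.1 _ h2
    · rw [h3]
      exact h1.2 _ h2)
  refine ⟨p, fun g => ⟨fun P hP => ?_, fun f hf => ?_⟩⟩
  · rw [Units.val_mul, Units.val_mul]
    exact hp g (P, 0) (Or.inl ⟨hP, rfl⟩)
  · rw [Units.val_mul, Units.val_mul]
    exact hp g (f, F f g) (Or.inr ⟨hf, rfl⟩)

variable {K : Type} [Field K] [NumberField K] {k : ℕ} {Fs : Set (Poly N)} {c : Poly N → GK K → PadicAlgCl ℓ}
  {S : Set (HeightOneSpectrum (𝓞 K))} {L : Submodule ℚ_[ℓ] (PadicAlgCl ℓ)} {ρ : (m : ℕ) → GK K →* GL (Fin N) (ZQ ℓ m)}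
  {D : ℕ → Set (HeightOneSpectrum (𝓞 K))}

/-- **The limit of a system of parameters.** -/
theorem Sys.parameter [FiniteDimensional ℚ_[ℓ] L] (H : Sys k Fs c S L ρ D) (htr : trP N ∈ Fs)
    (C : GK K → Set (Poly N)) (hC : Datum C) (hinv : ∀ f ∈ Fs, Invt C f) (hρ : ∀ m g, ρ m g ∈ zs (C g)) :
    ∃ r : GK K →* GL (Fin N) (PadicAlgCl ℓ), Continuous r ∧ Semisimple r ∧ (∀ v ∉ S, ∀ τ, IsInert v τ → r τ = 1) ∧
      (∀ g, r g ∈ zs (C g)) ∧
      (∀ f ∈ Fs, ∀ m g, ∃ h : val f (r g : Matrix (Fin N) (Fin N) (PadicAlgCl ℓ)) ∈ Zbar ℓ,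
        red ℓ m ⟨_, h⟩ = val f (ρ m g : Matrix (Fin N) (Fin N) (ZQ ℓ m))) ∧
      (∀ f ∈ Fs, ∀ v ∉ S, ∀ σ, IsFrob v σ → val f (r σ : Matrix (Fin N) (Fin N) (PadicAlgCl ℓ)) = c f σ) := by
  obtain ⟨r, F, hrc, hrss, hrI, hrT, hF, hc⟩ := H.main htr
  obtain ⟨p, hp⟩ := descent C hC ρ hρ Fs hinv htr F hF r hrss hrT
  let r' : GK K →* GL (Fin N) (PadicAlgCl ℓ) := (MulAut.conj p).toMonoidHom.comp r
  have hr' : ∀ g, r' g = p * r g * p⁻¹ := fun g => rfl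
  refine ⟨r', ?_, semisimple_conj hrss p hr', fun v hv τ hτ => ?_, fun g => (hp g).1, fun f hf m g => ?_, fun f hf v hv σ hσ => ?_⟩
  · show Continuous fun g => p * r g * p⁻¹
    exact (continuous_const.mul hrc).mul continuous_const
  · rw [hr', hrI v hv τ hτ, mul_one, mul_inv_cancel]
  · have h1 : val f (r' g : Matrix (Fin N) (Fin N) (PadicAlgCl ℓ)) = F f g := (hp g).2 f hf
    refine ⟨by rw [h1]; exact (F f g).2, ?_⟩
    rw [← hF f hf m g]
    congr 1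
    exact Subtype.ext h1
  · have h1 : val f (r' σ : Matrix (Fin N) (Fin N) (PadicAlgCl ℓ)) = F f σ := (hp σ).2 f hf
    rw [h1]
    exact hc f hf v hv σ hσ

end Pool.Agent.H498.LG
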