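import Pool.Agent.H498.LG.Lim
import Pool.Agent.H498.LG.Embed

/-! A system of representations modulo the powers of `ℓ` has a complex point. -/

set_option autoImplicit false
set_option linter.all false

namespace Pool.Agent.H498.LG

open Topology Filter Cardinal
open Pool.Agent.H498.BG (ZQ red trans Zbar trans_red norm_ell inv_lt_one inv_nonneg eq_of_red red_eq mem_I)

variable {ℓ : ℕ} [hℓ : Fact ℓ.Prime] {N : ℕ}

theorem ell_ne : ((ℓ : Zbar ℓ) : PadicAlgCl ℓ) ≠ 0 := by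
  rw [← norm_ne_zero_iff, norm_ell]
  have : (ℓ : ℝ) ≠ 0 := by exact_mod_cast hℓ.out.ne_zero
  exact inv_ne_zero this

/-- every element of `ℚ̄_ℓ` becomes integral after multiplication by a power of `ℓ` -/
theorem exists_pow_mul (x : PadicAlgCl ℓ) : ∃ c : ℕ, ((ℓ : Zbar ℓ) : PadicAlgCl ℓ) ^ c * x ∈ Zbar ℓ := by
  obtain ⟨c, hc⟩ := exists_pow_lt_of_lt_one (show (0 : ℝ) < (‖x‖ + 1)⁻¹ by positivity) (inv_lt_one (ℓ := ℓ))
  refine ⟨c, ?_⟩
  show ‖_‖ ≤ 1
  rw [norm_mul, norm_pow, norm_ell]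
  have h0 := norm_nonneg x
  have h1 : (ℓ : ℝ)⁻¹ ^ c * ‖x‖ ≤ (‖x‖ + 1)⁻¹ * ‖x‖ := mul_le_mul_of_nonneg_right hc.le h0
  refine h1.trans ?_
  rw [inv_mul_le_iff₀ (by positivity)]
  linarith

theorem exists_dvd_pow {a : Zbar ℓ} (ha : a ≠ 0) : ∃ c : ℕ, a ∣ (ℓ : Zbar ℓ) ^ c := by
  have ha' : (a : PadicAlgCl ℓ) ≠ 0 := fun h => ha (Subtype.ext h)
  obtain ⟨c, hc⟩ := exists_pow_mul (a : PadicAlgCl ℓ)⁻¹
  refine ⟨c, ⟨_, hc⟩, ?_⟩
  apply Subtype.ext
  rw [Subring.coe_mul, Subring.coe_pow]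
  field_simp

instance : CharZero (Zbar ℓ) := charZero_of_injective_algebraMap (R := ℤ) (by
  intro a b h
  have h2 := congrArg (fun x : Zbar ℓ => (x : PadicAlgCl ℓ)) h
  simp only [algebraMap_int_eq, eq_intCast] at h2
  push_cast at h2
  exact_mod_cast h2)

instance : IsFractionRing (Zbar ℓ) (PadicAlgCl ℓ) := by
  refine IsFractionRing.of_field (Zbar ℓ) (PadicAlgCl ℓ) fun z => ?_
  obtain ⟨c, hc⟩ := exists_pow_mul z
  refine ⟨⟨_, hc⟩, (ℓ : Zbar ℓ) ^ c, ?_⟩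
  rw [map_pow]
  show _ = (_ : PadicAlgCl ℓ) / ((ℓ : Zbar ℓ) : PadicAlgCl ℓ) ^ c
  rw [eq_div_iff (pow_ne_zero _ ell_ne), mul_comm]
  rfl

theorem point_aux (R : Type) [CommRing R] (hR : #R ≤ 𝔠) (C : Zbar ℓ →+* R) (ψ : (m : ℕ) → R →+* ZQ ℓ m)
    (hψ : ∀ m t, ψ m (C t) = red ℓ m t) : ∃ θ : R →+* ℂ, (∀ a b, (∀ m, ψ m a = ψ m b) → θ a = θ b) ∧
      Function.Injective (θ.comp C) := by
  classical
  let I : Ideal R := ⨅ m, RingHom.ker (ψ m)
  have hI : ∀ a : R, (∀ m, ψ m a = 0) → a ∈ I := by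
    intro a ha
    rw [Ideal.mem_iInf]
    exact fun m => ha m
  have hdis : Disjoint (I : Set R) (Submonoid.powers (C (ℓ : Zbar ℓ)) : Set R) := by
    rw [Set.disjoint_left]
    rintro _ h ⟨c, rfl⟩
    have h1 : ψ (c + 1) (C (ℓ : Zbar ℓ) ^ c) = 0 := (Ideal.mem_iInf.1 h) (c + 1)
    rw [← map_pow, hψ] at h1
    have h3 := (mem_I (c + 1) _).1 (Ideal.Quotient.eq_zero_iff_mem.1 h1)
    rw [Subring.coe_pow, norm_pow, norm_ell] at h3
    have h4 : (0 : ℝ) < (ℓ : ℝ)⁻¹ ^ c := by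
      have : (0 : ℝ) < ℓ := by exact_mod_cast hℓ.out.pos
      positivity
    have h5 := inv_lt_one (ℓ := ℓ)
    rw [pow_succ] at h3
    nlinarith
  obtain ⟨p, hp, hIp, hdp⟩ := Ideal.exists_le_prime_disjoint I _ hdis
  haveI : IsDomain (R ⧸ p) := Ideal.Quotient.isDomain p
  let Ω := FractionRing (R ⧸ p)
  let ι₁ : R →+* Ω := (algebraMap (R ⧸ p) Ω).comp (Ideal.Quotient.mk p)
  have hι₁ : ∀ a, ι₁ a = 0 ↔ a ∈ p := by
    intro a
    rw [← Ideal.Quotient.eq_zero_iff_mem]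
    exact map_eq_zero_iff _ (IsFractionRing.injective (R ⧸ p) Ω)
  have hι₀ : Function.Injective (ι₁.comp C) := by
    rw [injective_iff_map_eq_zero]
    intro a ha
    by_contra hne
    have h1 : C a ∈ p := (hι₁ _).1 ha
    obtain ⟨c, b, hb⟩ := exists_dvd_pow hne
    have h2 : C (ℓ : Zbar ℓ) ^ c ∈ p := by
      rw [← map_pow, hb, map_mul]
      exact Ideal.mul_mem_right _ _ h1
    exact Set.disjoint_left.1 hdp h2 ⟨c, rfl⟩
  haveI : CharZero Ω := charZero_of_injective_ringHom hι₀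
  have hcard : #Ω ≤ 𝔠 := by
    rw [IsFractionRing.cardinalMk (R := R ⧸ p) Ω]
    exact (mk_le_of_surjective Ideal.Quotient.mk_surjective).trans hR
  obtain ⟨e⟩ := exists_embedding Ω hcard
  refine ⟨e.comp ι₁, fun a b h => ?_, e.injective.comp hι₀⟩
  rw [← sub_eq_zero, ← map_sub]
  have h1 : a - b ∈ p := hIp (hI _ fun m => by rw [map_sub, h, sub_self])
  show e (ι₁ (a - b)) = 0
  rw [(hι₁ _).2 h1, map_zero]

/-- **A system of representations modulo the powers of `ℓ` has a complex point.** -/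
theorem exists_point {Γ : Type} [Group Γ] [Countable Γ] (ρ : (m : ℕ) → Γ →* GL (Fin N) (ZQ ℓ m)) :
    ∃ (j : PadicAlgCl ℓ →+* ℂ) (x : Γ →* GL (Fin N) ℂ), ∀ (f : Poly N) (g : Γ) (t : Zbar ℓ),
      (∀ m, red ℓ m t = val f (ρ m g : Matrix (Fin N) (Fin N) (ZQ ℓ m))) →
        val f (x g : Matrix (Fin N) (Fin N) ℂ) = j t := by
  classical
  let R := MvPolynomial (Γ × Fin N × Fin N) (Zbar ℓ)
  let ψ : (m : ℕ) → R →+* ZQ ℓ m := fun m => MvPolynomial.eval₂Hom (red ℓ m)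
    fun p => (ρ m p.1 : Matrix (Fin N) (Fin N) (ZQ ℓ m)) p.2.1 p.2.2
  have hR : #R ≤ 𝔠 := by
    refine MvPolynomial.cardinalMk_le_max.trans ?_
    refine max_le (max_le ?_ ?_) aleph0_le_continuum
    · exact (mk_le_of_injective (Subtype.val_injective : Function.Injective (Subtype.val : Zbar ℓ → PadicAlgCl ℓ))).trans
        (card_algcl ℓ)
    · exact (mk_le_aleph0 (α := Γ × Fin N × Fin N)).trans aleph0_le_continuum
  obtain ⟨θ, hθ, hinj⟩ := point_aux R hR MvPolynomial.C ψ (fun m t => MvPolynomial.eval₂_C _ _ _)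
  let j : PadicAlgCl ℓ →+* ℂ := IsFractionRing.lift hinj
  have hj : ∀ t : Zbar ℓ, j (t : PadicAlgCl ℓ) = θ (MvPolynomial.C t) := fun t => IsFractionRing.lift_algebraMap hinj t
  let XX : Γ → Matrix (Fin N) (Fin N) R := fun g => Matrix.of fun i k => MvPolynomial.X (g, i, k)
  have hψX : ∀ m g, (XX g).map (ψ m) = (ρ m g : Matrix (Fin N) (Fin N) (ZQ ℓ m)) := by
    intro m g
    ext i k
    exact MvPolynomial.eval₂_X _ _ _
  have hθm : ∀ A B : Matrix (Fin N) (Fin N) R, (∀ m, A.map (ψ m) = B.map (ψ m)) → A.map θ = B.map θ := by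
    intro A B h
    ext i k
    exact hθ _ _ fun m => congrFun (congrFun (h m) i) k
  let x₀ : Γ →* Matrix (Fin N) (Fin N) ℂ :=
    { toFun := fun g => (XX g).map θ
      map_one' := by
        rw [← Matrix.map_one θ (map_zero θ) (map_one θ)]
        refine hθm _ _ fun m => ?_
        rw [hψX, map_one, Units.val_one, Matrix.map_one _ (map_zero _) (map_one _)]
      map_mul' := fun g h => by
        rw [← Matrix.map_mul]
        refine hθm _ _ fun m => ?_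
        rw [Matrix.map_mul, hψX, hψX, hψX, map_mul, Units.val_mul] }
  refine ⟨j, x₀.toHomUnits, fun f g t h => ?_⟩
  rw [hj]
  show val f ((XX g).map θ) = θ (MvPolynomial.C t)
  rw [← val_map]
  refine hθ _ _ fun m => ?_
  rw [val_map, hψX, ← h m]
  exact (MvPolynomial.eval₂_C _ _ _).symm

end Pool.Agent.H498.LG
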