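import Pool.Agent.H498.LG.Jensen

/-! Semisimplification inside a self-adjoint group. -/

set_option autoImplicit false
set_option linter.all false

namespace Pool.Agent.H498.LG

open Matrix Topology Filter
open scoped ComplexOrder
open Pool.Agent.X320.DS (Stable Semisimple)

variable {N : ℕ}

/-- every subspace is the range of an isometry -/
theorem exists_isometry (W : Submodule ℂ (Fin N → ℂ)) : ∃ (d : ℕ) (J : Matrix (Fin N) (Fin d) ℂ), Jᴴ * J = 1 ∧
    ∀ v, v ∈ W ↔ ∃ u, v = J *ᵥ u := by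
  classical
  let e : EuclideanSpace ℂ (Fin N) ≃ₗ[ℂ] (Fin N → ℂ) := WithLp.linearEquiv 2 ℂ (Fin N → ℂ)
  let W₂ : Submodule ℂ (EuclideanSpace ℂ (Fin N)) := W.comap (e : EuclideanSpace ℂ (Fin N) →ₗ[ℂ] (Fin N → ℂ))
  let b := stdOrthonormalBasis ℂ W₂
  let J : Matrix (Fin N) (Fin (Module.finrank ℂ W₂)) ℂ := Matrix.of fun i k => ((b k : W₂) : EuclideanSpace ℂ (Fin N)) i
  have hJ : Jᴴ * J = 1 := by
    ext k l
    rw [Matrix.mul_apply, Matrix.one_apply]
    have h1 := (orthonormal_iff_ite.1 b.orthonormal) k l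
    rw [← h1, Submodule.coe_inner, PiLp.inner_apply]
    refine Finset.sum_congr rfl fun i _ => ?_
    rw [conjTranspose_apply, RCLike.inner_apply, mul_comm]
    rfl
  have hJu : ∀ u, J *ᵥ u = e ((∑ k, u k • b k : W₂) : EuclideanSpace ℂ (Fin N)) := by
    intro u
    funext i
    rw [Matrix.mulVec, dotProduct]
    rw [Submodule.coe_sum, map_sum, Finset.sum_apply]
    refine Finset.sum_congr rfl fun k _ => ?_
    rw [mul_comm]
    rfl
  refine ⟨_, J, hJ, fun v => ⟨fun hv => ?_, ?_⟩⟩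
  · let w : W₂ := ⟨e.symm v, by
      show e (e.symm v) ∈ W
      rwa [LinearEquiv.apply_symm_apply]⟩
    refine ⟨fun k => b.repr w k, ?_⟩
    rw [hJu, b.sum_repr]
    exact (LinearEquiv.apply_symm_apply e v).symm
  · rintro ⟨u, rfl⟩
    rw [hJu]
    exact (∑ k, u k • b k : W₂).2

theorem semisimple_of_gen {G : Type*} [Group G] (T : Set G) (hT : Subgroup.closure T = ⊤) (y : G →* GL (Fin N) ℂ)
    (h : ∀ (d : ℕ) (J : Matrix (Fin N) (Fin d) ℂ), Jᴴ * J = 1 → (∀ g, ∃ a : Mat d, (y g : Mat N) * J = J * a) →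
      ∀ t ∈ T, ∃ b : Mat d, (y t : Mat N)ᴴ * J = J * b) : Semisimple y := by
  intro W hW
  obtain ⟨d, J, hJ, hmem⟩ := exists_isometry W
  have hid : ∀ v ∈ W, J *ᵥ (Jᴴ *ᵥ v) = v := by
    intro v hv
    obtain ⟨u, rfl⟩ := (hmem v).1 hv
    rw [Matrix.mulVec_mulVec u, hJ, Matrix.one_mulVec]
  have hst : ∀ g, ∃ a : Mat d, (y g : Mat N) * J = J * a := by
    intro g
    refine ⟨Jᴴ * ((y g : Mat N) * J), ?_⟩
    apply Matrix.ext_of_mulVec_single
    intro i
    rw [← Matrix.mulVec_mulVec, ← Matrix.mulVec_mulVec, ← Matrix.mulVec_mulVec, ← Matrix.mulVec_mulVec]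
    rw [hid]
    exact hW g _ ((hmem _).2 ⟨_, rfl⟩)
  have hall : ∀ g, ∃ b : Mat d, (y g : Mat N)ᴴ * J = J * b := by
    intro g
    have hg : g ∈ Subgroup.closure T := by rw [hT]; trivial
    refine Subgroup.closure_induction (p := fun g _ => ∃ b : Mat d, (y g : Mat N)ᴴ * J = J * b) ?_ ?_ ?_ ?_ hg
    · exact fun t ht => h d J hJ hst t ht
    · refine ⟨1, ?_⟩
      rw [map_one, Units.val_one, conjTranspose_one, Matrix.one_mul, Matrix.mul_one]
    · rintro g g' _ _ ⟨b, hb⟩ ⟨b', hb'⟩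
      refine ⟨b' * b, ?_⟩
      rw [map_mul, Units.val_mul, conjTranspose_mul, Matrix.mul_assoc, hb, ← Matrix.mul_assoc, hb', Matrix.mul_assoc]
    · rintro g _ ⟨b, hb⟩
      let c : Mat d := Jᴴ * (((y g)⁻¹ : GL (Fin N) ℂ) : Mat N)ᴴ * J
      have hcb : c * b = 1 := by
        calc c * b = Jᴴ * (((y g)⁻¹ : GL (Fin N) ℂ) : Mat N)ᴴ * (J * b) := by
              show Jᴴ * (((y g)⁻¹ : GL (Fin N) ℂ) : Mat N)ᴴ * J * b = _
              simp only [Matrix.mul_assoc]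
          _ = Jᴴ * ((((y g)⁻¹ : GL (Fin N) ℂ) : Mat N)ᴴ * (y g : Mat N)ᴴ) * J := by
              rw [← hb]
              simp only [Matrix.mul_assoc]
          _ = 1 := by rw [gl_star_inv_mul, Matrix.mul_one, hJ]
      have hbc : b * c = 1 := mul_eq_one_comm.1 hcb
      refine ⟨c, ?_⟩
      rw [map_inv]
      calc (((y g)⁻¹ : GL (Fin N) ℂ) : Mat N)ᴴ * J = (((y g)⁻¹ : GL (Fin N) ℂ) : Mat N)ᴴ * (J * b) * c := by
            rw [Matrix.mul_assoc, Matrix.mul_assoc J, hbc, Matrix.mul_one]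
        _ = _ := by
            rw [← hb, ← Matrix.mul_assoc (((y g)⁻¹ : GL (Fin N) ℂ) : Mat N)ᴴ (y g : Mat N)ᴴ J, gl_star_inv_mul,
              Matrix.one_mul]
  refine ⟨LinearMap.ker (Matrix.mulVecLin Jᴴ), ?_, ?_⟩
  · intro g v hv
    rw [LinearMap.mem_ker, Matrix.mulVecLin_apply] at hv ⊢
    obtain ⟨b, hb⟩ := hall g
    have h1 : Jᴴ * (y g : Mat N) = bᴴ * Jᴴ := by
      have := congrArg conjTranspose hb
      rwa [conjTranspose_mul, conjTranspose_mul, conjTranspose_conjTranspose] at this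
    rw [Matrix.mulVec_mulVec, h1, ← Matrix.mulVec_mulVec, hv, Matrix.mulVec_zero]
  · refine ⟨?_, ?_⟩
    · rw [Submodule.disjoint_def]
      intro v hv hv'
      rw [LinearMap.mem_ker, Matrix.mulVecLin_apply] at hv'
      rw [← hid v hv, hv', Matrix.mulVec_zero]
    · rw [codisjoint_iff, eq_top_iff]
      intro v _
      refine Submodule.mem_sup.2 ⟨J *ᵥ (Jᴴ *ᵥ v), (hmem _).2 ⟨_, rfl⟩, v - J *ᵥ (Jᴴ *ᵥ v), ?_, by abel⟩
      rw [LinearMap.mem_ker, Matrix.mulVecLin_apply, Matrix.mulVec_sub, Matrix.mulVec_mulVec, hJ, Matrix.one_mulVec,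
        sub_self]

/-- **Semisimplification inside a self-adjoint group.** -/
theorem exists_ss {G : Type} [Group G] (T : Finset G) (hT : Subgroup.closure (T : Set G) = ⊤)
    (x : G →* GL (Fin N) ℂ) (A : G → Set (GL (Fin N) ℂ)) (hx : ∀ g, x g ∈ A g)
    (hmul : ∀ g h a b, a ∈ A g → b ∈ A h → a * b ∈ A (g * h)) (hinv : ∀ g a, a ∈ A g → a⁻¹ ∈ A g⁻¹)
    (hone : (1 : GL (Fin N) ℂ) ∈ A 1)
    (hcl : ∀ (g : G) (u : ℕ → GL (Fin N) ℂ) (a : GL (Fin N) ℂ), (∀ n, u n ∈ A g) →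
      Tendsto (fun n => (u n : Mat N)) atTop (𝓝 (a : Mat N)) → a ∈ A g)
    (hstar : ∀ g, ∀ a ∈ A g, ∃ b ∈ A g⁻¹, (b : Mat N) = (a : Mat N)ᴴ)
    (hpow : ∀ (W : Mat N) (a : Fin N → ℝ), Wᴴ * W = 1 → W * Wᴴ = 1 →
      (∃ k ∈ A 1, (k : Mat N) = sp W (fun i => Real.exp (a i))) →
        ∀ s : ℝ, ∃ k ∈ A 1, (k : Mat N) = sp W (fun i => Real.exp (s * a i))) :
    ∃ (y : G →* GL (Fin N) ℂ) (h : ℕ → GL (Fin N) ℂ), (∀ n, h n ∈ A 1) ∧ (∀ g, y g ∈ A g) ∧ Semisimple y ∧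
      ∀ g, Tendsto (fun n => ((h n * x g * (h n)⁻¹ : GL (Fin N) ℂ) : Mat N)) atTop (𝓝 (y g : Mat N)) := by
  classical
  let H : Subgroup (GL (Fin N) ℂ) :=
    { carrier := A 1
      mul_mem' := fun {a b} ha hb => by
        have := hmul 1 1 a b ha hb
        rwa [one_mul] at this
      one_mem' := hone
      inv_mem' := fun {a} ha => by
        have := hinv 1 a ha
        rwa [inv_one] at this }
  obtain ⟨h, y₀, hh, hlim, hmin⟩ := exists_min (ι := T) (fun t => x t) H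
  have hex : ∀ g : G, ∃ Y : GL (Fin N) ℂ,
      Tendsto (fun n => ((h n * x g * (h n)⁻¹ : GL (Fin N) ℂ) : Mat N)) atTop (𝓝 (Y : Mat N)) := by
    intro g
    have hg : g ∈ Subgroup.closure (T : Set G) := by rw [hT]; trivial
    refine Subgroup.closure_induction (p := fun g _ => ∃ Y : GL (Fin N) ℂ,
      Tendsto (fun n => ((h n * x g * (h n)⁻¹ : GL (Fin N) ℂ) : Mat N)) atTop (𝓝 (Y : Mat N))) ?_ ?_ ?_ ?_ hg
    · exact fun t ht => ⟨y₀ ⟨t, ht⟩, hlim ⟨t, ht⟩⟩
    · refine ⟨1, ?_⟩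
      simp only [map_one, mul_one, mul_inv_cancel]
      exact tendsto_const_nhds
    · rintro g g' _ _ ⟨Y, hY⟩ ⟨Y', hY'⟩
      refine ⟨Y * Y', ?_⟩
      have e : ∀ n, ((h n * x (g * g') * (h n)⁻¹ : GL (Fin N) ℂ) : Mat N) =
          ((h n * x g * (h n)⁻¹ : GL (Fin N) ℂ) : Mat N) * ((h n * x g' * (h n)⁻¹ : GL (Fin N) ℂ) : Mat N) := by
        intro n
        rw [← Units.val_mul, map_mul]
        congr 1
        group
      simp only [e]
      rw [Units.val_mul]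
      exact tendsto_mul hY hY'
    · rintro g _ ⟨Y, hY⟩
      refine ⟨Y⁻¹, ?_⟩
      have e : ∀ n, (h n * x g⁻¹ * (h n)⁻¹ : GL (Fin N) ℂ) = (h n * x g * (h n)⁻¹)⁻¹ := by
        intro n
        rw [map_inv]
        group
      simp only [e]
      exact tendsto_inv hY
  choose Y hY using hex
  let y : G →* GL (Fin N) ℂ :=
    { toFun := Y
      map_one' := by
        apply Units.ext
        refine tendsto_nhds_unique (hY 1) ?_
        simp only [map_one, mul_one, mul_inv_cancel]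
        exact tendsto_const_nhds
      map_mul' := fun g g' => by
        apply Units.ext
        refine tendsto_nhds_unique (hY (g * g')) ?_
        have e : ∀ n, ((h n * x (g * g') * (h n)⁻¹ : GL (Fin N) ℂ) : Mat N) =
            ((h n * x g * (h n)⁻¹ : GL (Fin N) ℂ) : Mat N) * ((h n * x g' * (h n)⁻¹ : GL (Fin N) ℂ) : Mat N) := by
          intro n
          rw [← Units.val_mul, map_mul]
          congr 1
          group
        simp only [e]
        rw [Units.val_mul]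
        exact tendsto_mul (hY g) (hY g') }
  have hmem : ∀ g, y g ∈ A g := by
    intro g
    refine hcl g (fun n => h n * x g * (h n)⁻¹) (y g) (fun n => ?_) (hY g)
    have h1 := hmul (1 * g) 1⁻¹ (h n * x g) (h n)⁻¹ (hmul 1 g _ _ (hh n) (hx g)) (hinv 1 _ (hh n))
    rwa [one_mul, inv_one, mul_one] at h1
  have hy₀ : ∀ t : T, y₀ t = y t := by
    intro t
    apply Units.ext
    exact tendsto_nhds_unique (hlim t) (hY t)
  refine ⟨y, h, hh, hmem, ?_, hY⟩
  refine semisimple_of_gen (T : Set G) hT y fun d J hJ hst t ht => ?_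
  have hdat : ∀ t : T, ∃ (Uα : Mat N × (Fin N → ℝ)), Dat (y₀ t) Uα.1 Uα.2 := by
    intro t
    obtain ⟨U, α, hd⟩ := exists_dat (y₀ t)
    exact ⟨(U, α), hd⟩
  choose Uα hUα using hdat
  have hM := moment y₀ H hmin (fun t => (Uα t).1) (fun t => (Uα t).2) hUα hpow
    (fun t => by
      obtain ⟨b, hb, e⟩ := hstar t (y t) (hmem t)
      refine ⟨y t * b, ?_, by rw [Units.val_mul, e, hy₀]⟩
      have := hmul _ _ _ _ (hmem t) hb
      rwa [mul_inv_cancel] at this)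
    (fun t => by
      obtain ⟨b, hb, e⟩ := hstar t (y t) (hmem t)
      refine ⟨b * y t, ?_, by rw [Units.val_mul, e, hy₀]⟩
      have := hmul _ _ _ _ hb (hmem t)
      rwa [inv_mul_cancel] at this)
  choose a ha using hst
  have := perp y₀ (fun t => (Uα t).1) (fun t => (Uα t).2) hUα hM J hJ (fun t => a t)
    (fun t => by rw [hy₀]; exact ha t) ⟨t, ht⟩
  rwa [hy₀] at this

end Pool.Agent.H498.LG
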