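import Mathlib

/-! Explicit spectral calculus for positive definite matrices, and the energy `∑ (log α)²`. -/

set_option autoImplicit false
set_option linter.all false

namespace Pool.Agent.H498.LG

open Matrix
open scoped ComplexOrder

/-- complex matrices -/
abbrev Mat (N : ℕ) : Type := Matrix (Fin N) (Fin N) ℂ

/-- the matrix with eigenvectors the columns of `U` and eigenvalues `a` -/
noncomputable def sp {N : ℕ} (U : Mat N) (a : Fin N → ℝ) : Mat N := U * diagonal (fun i => (a i : ℂ)) * Uᴴ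

variable {N : ℕ}

theorem sp_mul {U : Mat N} (hU : Uᴴ * U = 1) (a b : Fin N → ℝ) : sp U a * sp U b = sp U (fun i => a i * b i) := by
  unfold sp
  calc U * diagonal (fun i => (a i : ℂ)) * Uᴴ * (U * diagonal (fun i => (b i : ℂ)) * Uᴴ)
      = U * diagonal (fun i => (a i : ℂ)) * (Uᴴ * U) * diagonal (fun i => (b i : ℂ)) * Uᴴ := by
        simp only [Matrix.mul_assoc]
    _ = U * (diagonal (fun i => (a i : ℂ)) * diagonal (fun i => (b i : ℂ))) * Uᴴ := by
        rw [hU, Matrix.mul_one]; simp only [Matrix.mul_assoc]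
    _ = _ := by rw [diagonal_mul_diagonal]; congr 3; funext i; push_cast; rfl

theorem sp_add (U : Mat N) (a b : Fin N → ℝ) : sp U a + sp U b = sp U (fun i => a i + b i) := by
  unfold sp
  rw [← Matrix.add_mul, ← Matrix.mul_add, diagonal_add]
  congr 3; funext i; push_cast; rfl

theorem sp_smul (U : Mat N) (c : ℝ) (a : Fin N → ℝ) : (c : ℂ) • sp U a = sp U (fun i => c * a i) := by
  unfold sp
  rw [← Matrix.smul_mul, ← Matrix.mul_smul]
  congr 2
  ext i k
  by_cases h : i = k
  · subst h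
    simp
  · simp [diagonal_apply_ne _ h]

theorem sp_star (U : Mat N) (a : Fin N → ℝ) : (sp U a)ᴴ = sp U a := by
  unfold sp
  rw [conjTranspose_mul, conjTranspose_mul, conjTranspose_conjTranspose, diagonal_conjTranspose, Matrix.mul_assoc]
  congr 3
  funext i
  exact Complex.conj_ofReal _

theorem sp_one {U : Mat N} (hU : U * Uᴴ = 1) : sp U (fun _ => 1) = 1 := by
  unfold sp
  simp only [Complex.ofReal_one]
  rw [show (diagonal fun _ : Fin N => (1 : ℂ)) = 1 from diagonal_one, Matrix.mul_one, hU]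

/-- the weights -/
noncomputable def wt (U V : Mat N) (i j : Fin N) : ℝ := Complex.normSq ((Uᴴ * V) i j)

theorem wt_nonneg (U V : Mat N) (i j : Fin N) : 0 ≤ wt U V i j := Complex.normSq_nonneg _

theorem trace_sp_sp (U V : Mat N) (a b : Fin N → ℝ) :
    (sp U a * sp V b).trace = ((∑ i, ∑ j, wt U V i j * (a i * b j) : ℝ) : ℂ) := by
  have e : (sp U a * sp V b).trace =
      (diagonal (fun i => (a i : ℂ)) * (Uᴴ * V) * diagonal (fun i => (b i : ℂ)) * (Uᴴ * V)ᴴ).trace := by
    unfold sp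
    rw [conjTranspose_mul, conjTranspose_conjTranspose]
    rw [show U * diagonal (fun i => (a i : ℂ)) * Uᴴ * (V * diagonal (fun i => (b i : ℂ)) * Vᴴ) =
      U * (diagonal (fun i => (a i : ℂ)) * Uᴴ * (V * diagonal (fun i => (b i : ℂ)) * Vᴴ)) by
        simp only [Matrix.mul_assoc], Matrix.trace_mul_comm]
    simp only [Matrix.mul_assoc]
  rw [e]
  set W := Uᴴ * V with hW
  rw [Matrix.trace]
  push_cast
  refine Finset.sum_congr rfl fun i _ => ?_
  rw [Matrix.diag_apply, Matrix.mul_apply]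
  refine Finset.sum_congr rfl fun j _ => ?_
  rw [Matrix.mul_diagonal, Matrix.diagonal_mul, conjTranspose_apply, wt, ← hW, Complex.normSq_eq_conj_mul_self]
  rw [show star (W i j) = (starRingEnd ℂ) (W i j) from rfl]
  ring

theorem wt_row {U V : Mat N} (hU : Uᴴ * U = 1) (hV : V * Vᴴ = 1) (i : Fin N) : ∑ j, wt U V i j = 1 := by
  have h : (Uᴴ * V) * (Uᴴ * V)ᴴ = 1 := by
    rw [conjTranspose_mul, conjTranspose_conjTranspose]
    calc Uᴴ * V * (Vᴴ * U) = Uᴴ * (V * Vᴴ) * U := by simp only [Matrix.mul_assoc]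
      _ = 1 := by rw [hV, Matrix.mul_one, hU]
  have h2 := congrFun (congrFun h i) i
  rw [Matrix.mul_apply, Matrix.one_apply_eq] at h2
  have h3 : ((∑ j, wt U V i j : ℝ) : ℂ) = 1 := by
    rw [← h2]
    push_cast
    refine Finset.sum_congr rfl fun j _ => ?_
    rw [conjTranspose_apply, wt, Complex.normSq_eq_conj_mul_self, mul_comm]
    rfl
  exact_mod_cast h3

theorem wt_col {U V : Mat N} (hU : U * Uᴴ = 1) (hV : Vᴴ * V = 1) (j : Fin N) : ∑ i, wt U V i j = 1 := by
  have h := wt_row (U := V) (V := U) hV hU j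
  rw [← h]
  refine Finset.sum_congr rfl fun i _ => ?_
  unfold wt
  have e : (Vᴴ * U) j i = star ((Uᴴ * V) i j) := by
    rw [← conjTranspose_apply, conjTranspose_mul, conjTranspose_conjTranspose]
  rw [e]
  exact (Complex.normSq_conj _).symm

/-! ### the scalar inequality -/

theorem sq_log_le {x : ℝ} (hx : 0 < x) : Real.log x ^ 2 ≤ x - 2 + 1 / x := by
  set u := Real.log x / 2 with hu
  have h1 : |u| ≤ |Real.sinh u| := by
    rw [Real.abs_sinh]
    exact Real.self_le_sinh_iff.2 (abs_nonneg _)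
  have h2 : u ^ 2 ≤ Real.sinh u ^ 2 := sq_le_sq.2 h1
  have h3 : Real.exp u ^ 2 = x := by
    rw [← Real.exp_nat_mul, hu]
    push_cast
    rw [mul_div_cancel₀ _ two_ne_zero, Real.exp_log hx]
  have h4 : Real.exp (-u) ^ 2 = 1 / x := by
    rw [Real.exp_neg, inv_pow, h3, one_div]
  have h5 : Real.exp u * Real.exp (-u) = 1 := by rw [← Real.exp_add, add_neg_cancel, Real.exp_zero]
  have h6 : Real.sinh u ^ 2 * 4 = x - 2 + 1 / x := by
    rw [Real.sinh_eq, ← h3, one_div, ← inv_pow, ← Real.exp_neg]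
    nlinarith
  have h7 : Real.log x ^ 2 = u ^ 2 * 4 := by rw [hu]; ring
  rw [h7, ← h6]
  linarith

theorem scalar {α β : ℝ} (hα : 0 < α) (hβ : 0 < β) :
    |Real.log β ^ 2 - Real.log α ^ 2 - 2 * Real.log α / α * (β - α)| ≤
      (1 + 2 * |Real.log α|) / α * (β - 2 * α + α ^ 2 / β) := by
  set x := β / α with hx
  have hx0 : 0 < x := div_pos hβ hα
  have hβx : β = x * α := by rw [hx, div_mul_cancel₀ _ hα.ne']
  have hl : Real.log β = Real.log x + Real.log α := by rw [hβx, Real.log_mul hx0.ne' hα.ne']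
  have e1 : Real.log β ^ 2 - Real.log α ^ 2 - 2 * Real.log α / α * (β - α) =
      Real.log x ^ 2 + 2 * Real.log α * (Real.log x - (x - 1)) := by
    rw [hl, hβx]
    field_simp
    ring
  have e2 : (1 + 2 * |Real.log α|) / α * (β - 2 * α + α ^ 2 / β) =
      (1 + 2 * |Real.log α|) * (x - 2 + 1 / x) := by
    rw [hβx]
    field_simp
  rw [e1, e2]
  have h1 := sq_log_le hx0
  have h2 : |Real.log x - (x - 1)| ≤ x - 2 + 1 / x := by
    rw [abs_le]
    constructor
    · have := Real.one_sub_inv_le_log_of_pos hx0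
      rw [one_div]
      linarith
    · have h3 := Real.log_le_sub_one_of_pos hx0
      have h4 : 0 ≤ Real.log x ^ 2 := sq_nonneg _
      linarith
  calc |Real.log x ^ 2 + 2 * Real.log α * (Real.log x - (x - 1))|
      ≤ |Real.log x ^ 2| + |2 * Real.log α * (Real.log x - (x - 1))| := abs_add_le _ _
    _ = Real.log x ^ 2 + 2 * |Real.log α| * |Real.log x - (x - 1)| := by
        rw [abs_mul, abs_mul, abs_of_nonneg (sq_nonneg (Real.log x)), abs_two]
    _ ≤ (x - 2 + 1 / x) + 2 * |Real.log α| * (x - 2 + 1 / x) := by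
        refine add_le_add h1 (mul_le_mul_of_nonneg_left h2 (by positivity))
    _ = _ := by ring

/-- **The key inequality.** -/
theorem key {U V : Mat N} (hU : Uᴴ * U = 1) (hU' : U * Uᴴ = 1) (hV : Vᴴ * V = 1) (hV' : V * Vᴴ = 1)
    {α β : Fin N → ℝ} (hα : ∀ i, 0 < α i) (hβ : ∀ i, 0 < β i) :
    |(∑ j, Real.log (β j) ^ 2) - (∑ i, Real.log (α i) ^ 2) -
      (sp U (fun i => 2 * Real.log (α i) / α i) * (sp V β - sp U α)).trace.re| ≤
    (sp U (fun i => (1 + 2 * |Real.log (α i)|) / α i) *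
      (sp V β - 2 • sp U α + sp U α * sp V (fun j => (β j)⁻¹) * sp U α)).trace.re := by
  have row := wt_row hU hV'
  have col := wt_col hU' hV
  have s1 : ∀ b : Fin N → ℝ, ∑ j, b j = ∑ i, ∑ j, wt U V i j * b j := by
    intro b
    rw [Finset.sum_comm]
    refine Finset.sum_congr rfl fun j _ => ?_
    rw [← Finset.sum_mul, col, one_mul]
  have s2 : ∀ a : Fin N → ℝ, ∑ i, a i = ∑ i, ∑ j, wt U V i j * a i := by
    intro a
    refine Finset.sum_congr rfl fun i _ => ?_
    rw [← Finset.sum_mul, row, one_mul]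
  have t1 : ∀ a b : Fin N → ℝ, (sp U a * sp U b).trace.re = ∑ i, ∑ j, wt U V i j * (a i * b i) := by
    intro a b
    rw [sp_mul hU]
    have h := trace_sp_sp U V (fun i => a i * b i) (fun _ => 1)
    rw [sp_one hV', Matrix.mul_one] at h
    rw [h, Complex.ofReal_re]
    simp only [mul_one]
  have t2 : ∀ a b : Fin N → ℝ, (sp U a * sp V b).trace.re = ∑ i, ∑ j, wt U V i j * (a i * b j) := by
    intro a b
    rw [trace_sp_sp, Complex.ofReal_re]
  have t3 : ∀ a b c d : Fin N → ℝ, (sp U a * (sp U b * sp V c * sp U d)).trace.re =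
      ∑ i, ∑ j, wt U V i j * (d i * a i * b i * c j) := by
    intro a b c d
    rw [show sp U a * (sp U b * sp V c * sp U d) = (sp U a * sp U b * sp V c) * sp U d by
      simp only [Matrix.mul_assoc], Matrix.trace_mul_comm, ← Matrix.mul_assoc, ← Matrix.mul_assoc, sp_mul hU, sp_mul hU, t2]
  have l1 : (∑ j, Real.log (β j) ^ 2) - (∑ i, Real.log (α i) ^ 2) -
      (sp U (fun i => 2 * Real.log (α i) / α i) * (sp V β - sp U α)).trace.re =
      ∑ i, ∑ j, wt U V i j * (Real.log (β j) ^ 2 - Real.log (α i) ^ 2 - 2 * Real.log (α i) / α i * (β j - α i)) := by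
    rw [Matrix.mul_sub, Matrix.trace_sub, Complex.sub_re, t1, t2, s1 (fun j => Real.log (β j) ^ 2),
      s2 (fun i => Real.log (α i) ^ 2)]
    simp only [← Finset.sum_sub_distrib]
    refine Finset.sum_congr rfl fun i _ => Finset.sum_congr rfl fun j _ => ?_
    ring
  have l2 : (sp U (fun i => (1 + 2 * |Real.log (α i)|) / α i) *
      (sp V β - 2 • sp U α + sp U α * sp V (fun j => (β j)⁻¹) * sp U α)).trace.re =
      ∑ i, ∑ j, wt U V i j * ((1 + 2 * |Real.log (α i)|) / α i * (β j - 2 * α i + α i ^ 2 / β j)) := by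
    rw [two_smul, Matrix.mul_add, Matrix.mul_sub, Matrix.mul_add, Matrix.trace_add, Matrix.trace_sub,
      Matrix.trace_add, Complex.add_re, Complex.sub_re, Complex.add_re, t1, t2, t3]
    simp only [← Finset.sum_sub_distrib, ← Finset.sum_add_distrib]
    refine Finset.sum_congr rfl fun i _ => Finset.sum_congr rfl fun j _ => ?_
    rw [div_eq_mul_inv (α i ^ 2)]
    ring
  rw [l1, l2]
  refine (Finset.abs_sum_le_sum_abs _ _).trans (Finset.sum_le_sum fun i _ => ?_)
  refine (Finset.abs_sum_le_sum_abs _ _).trans (Finset.sum_le_sum fun j _ => ?_)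
  rw [abs_mul, abs_of_nonneg (wt_nonneg U V i j)]
  exact mul_le_mul_of_nonneg_left (scalar (hα i) (hβ j)) (wt_nonneg U V i j)

/-- the spectral theorem -/
theorem exists_sp {z : Mat N} (hz : IsUnit z.det) : ∃ (U : Mat N) (α : Fin N → ℝ), Uᴴ * U = 1 ∧ U * Uᴴ = 1 ∧
    (∀ i, 0 < α i) ∧ z * zᴴ = sp U α := by
  have hu : IsUnit z := (Matrix.isUnit_iff_isUnit_det z).2 hz
  have hpd : (z * zᴴ).PosDef := by
    refine Matrix.PosDef.mul_conjTranspose_self z ?_
    exact Matrix.vecMul_injective_of_isUnit hu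
  refine ⟨hpd.1.eigenvectorUnitary, hpd.1.eigenvalues, ?_, ?_, fun i => hpd.eigenvalues_pos i, ?_⟩
  · exact Unitary.coe_star_mul_self hpd.1.eigenvectorUnitary
  · exact Unitary.coe_mul_star_self hpd.1.eigenvectorUnitary
  · conv_lhs => rw [hpd.1.spectral_theorem]
    rfl

end Pool.Agent.H498.LG
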